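import Mathlib

set_option autoImplicit false

namespace Pool.Agent.Lib.MP_a6e91d_co
open Finset

abbrev V (m : ℕ) := Fin m → ℤ

variable {m : ℕ}

def nrm (x : V m) : ℕ := ∑ i, (x i).natAbs
def sup (x : V m) : ℕ := (univ.filter fun i => x i ≠ 0).card
def exc (x : V m) : ℕ := ∑ i, ((x i).natAbs - 1)
def Le (y u : V m) : Prop := ∀ i, (y i).natAbs + (u i - y i).natAbs = (u i).natAbs

instance (y u : V m) : Decidable (Le y u) := by unfold Le; infer_instance

noncomputable def sph (m n : ℕ) : Finset (V m) :=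
  (Fintype.piFinset fun _ => Icc (-(n : ℤ)) n).filter (fun x => nrm x = n)

theorem natAbs_le_nrm (x : V m) (i : Fin m) : (x i).natAbs ≤ nrm x :=
  single_le_sum (f := fun i => (x i).natAbs) (fun _ _ => Nat.zero_le _) (mem_univ i)

@[simp] theorem mem_sph {n : ℕ} {x : V m} : x ∈ sph m n ↔ nrm x = n := by
  unfold sph
  rw [mem_filter, Fintype.mem_piFinset]
  refine ⟨fun h => h.2, fun h => ⟨fun i => ?_, h⟩⟩
  have := natAbs_le_nrm x i
  rw [mem_Icc]; omega

theorem sup_add_exc (x : V m) : sup x + exc x = nrm x := by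
  unfold sup exc nrm
  rw [card_filter, ← sum_add_distrib]
  refine sum_congr rfl fun i _ => ?_
  split_ifs <;> omega

theorem sup_le (x : V m) : sup x ≤ m := by
  unfold sup
  exact (card_filter_le _ _).trans (by simp)

theorem nrm_add_le (x y : V m) : nrm (x + y) ≤ nrm x + nrm y := by
  unfold nrm
  rw [← sum_add_distrib]
  exact sum_le_sum fun i _ => Int.natAbs_add_le _ _

@[simp] theorem nrm_neg (x : V m) : nrm (-x) = nrm x := by simp [nrm]
@[simp] theorem sup_neg (x : V m) : sup (-x) = sup x := by simp [sup]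
@[simp] theorem exc_neg (x : V m) : exc (-x) = exc x := by simp [exc]
@[simp] theorem nrm_zero : nrm (0 : V m) = 0 := by simp [nrm]

theorem nrm_sub_comm (x y : V m) : nrm (x - y) = nrm (y - x) := by
  rw [← nrm_neg, neg_sub]

theorem nrm_sub_le (x y : V m) : nrm (x - y) ≤ nrm x + nrm y := by
  have := nrm_add_le x (-y)
  rwa [← sub_eq_add_neg, nrm_neg] at this

theorem nrm_eq_zero {x : V m} : nrm x = 0 ↔ x = 0 := by
  refine ⟨fun h => funext fun i => ?_, fun h => by simp [h]⟩
  have := natAbs_le_nrm x i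
  simp only [Pi.zero_apply]; omega

theorem nrm_add_mod (x y : V m) : nrm (x + y) % 2 = (nrm x + nrm y) % 2 := by
  unfold nrm
  rw [← sum_add_distrib, Finset.sum_nat_mod, Finset.sum_nat_mod (f := fun i => (x i).natAbs + (y i).natAbs)]
  congr 1
  refine sum_congr rfl fun i _ => ?_
  simp only [Pi.add_apply]; omega

theorem Le.nrm_eq {y u : V m} (h : Le y u) : nrm y + nrm (u - y) = nrm u := by
  unfold nrm
  rw [← sum_add_distrib]
  exact sum_congr rfl fun i _ => h i

theorem le_of_nrm {y u : V m} (h : nrm y + nrm (u - y) ≤ nrm u) : Le y u := by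
  unfold nrm at h
  rw [← sum_add_distrib] at h
  have hle : ∀ i ∈ (univ : Finset (Fin m)), (u i).natAbs ≤ (y i).natAbs + ((u - y) i).natAbs := by
    intro i _
    simp only [Pi.sub_apply]; omega
  have := (sum_eq_sum_iff_of_le hle).1 (le_antisymm (sum_le_sum hle) h)
  intro i
  exact (this i (mem_univ i)).symm

theorem Le.compl {y u : V m} (h : Le y u) : Le (u - y) u := by
  intro i
  have := h i
  simp only [Pi.sub_apply]; omega

theorem Le.neg {y u : V m} (h : Le y u) : Le (-y) (-u) := by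
  intro i
  have := h i
  simp only [Pi.neg_apply]; omega

theorem le_neg_iff {y u : V m} : Le (-y) (-u) ↔ Le y u :=
  ⟨fun h => by simpa using h.neg, Le.neg⟩

theorem Le.trans {x y u : V m} (h : Le x y) (h' : Le y u) : Le x u := by
  intro i
  have := h i
  have := h' i
  omega

theorem Le.refl (x : V m) : Le x x := by
  intro i; simp

theorem Le.eq_of_nrm {y u : V m} (h : Le y u) (h' : nrm y = nrm u) : y = u := by
  have := h.nrm_eq
  have h0 : u - y = 0 := nrm_eq_zero.1 (by omega)
  exact (sub_eq_zero.1 h0).symm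

/-- changing one coordinate -/
theorem nrm_add_single (x : V m) (i : Fin m) (c : ℤ) :
    nrm (x + Pi.single i c) + (x i).natAbs = nrm x + (x i + c).natAbs := by
  unfold nrm
  rw [← Finset.add_sum_erase _ _ (mem_univ i), ← Finset.add_sum_erase _ (fun j => (x j).natAbs) (mem_univ i)]
  have : ∑ j ∈ univ.erase i, ((x + Pi.single i c : V m) j).natAbs = ∑ j ∈ univ.erase i, (x j).natAbs := by
    refine sum_congr rfl fun j hj => ?_
    simp [Pi.single_eq_of_ne (ne_of_mem_erase hj)]
  rw [this]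
  simp only [Pi.add_apply, Pi.single_eq_same]
  omega

theorem nrm_single (i : Fin m) (c : ℤ) : nrm (Pi.single i c : V m) = c.natAbs := by
  have := nrm_add_single (0 : V m) i c
  simpa using this

theorem exists_le (u : V m) (j : ℕ) (hj : j ≤ nrm u) : ∃ y, Le y u ∧ nrm y = j := by
  induction j with
  | zero => exact ⟨0, fun i => by simp, nrm_zero⟩
  | succ j ih =>
    obtain ⟨y, hy, hn⟩ := ih (by omega)
    have h1 := hy.nrm_eq
    have h2 : u - y ≠ 0 := fun h => by rw [h, nrm_zero] at h1; omega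
    obtain ⟨i, hi⟩ := Function.ne_iff.1 h2
    simp only [Pi.sub_apply, Pi.zero_apply] at hi
    have hyi := hy i
    by_cases hpos : 0 < u i - y i
    · refine ⟨y + Pi.single i 1, fun k => ?_, ?_⟩
      · by_cases hk : k = i
        · subst hk; simp only [Pi.add_apply, Pi.single_eq_same]; omega
        · simpa [Pi.single_eq_of_ne hk] using hy k
      · have := nrm_add_single y i 1
        omega
    · refine ⟨y + Pi.single i (-1), fun k => ?_, ?_⟩
      · by_cases hk : k = i
        · subst hk; simp only [Pi.add_apply, Pi.single_eq_same]; omega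
        · simpa [Pi.single_eq_of_ne hk] using hy k
      · have := nrm_add_single y i (-1)
        omega

/-- unit directions -/
def sg (b : Bool) : ℤ := if b then 1 else -1
def dir (d : Fin m × Bool) : V m := Pi.single d.1 (sg d.2)
def IsUp (x : V m) (d : Fin m × Bool) : Prop := (x d.1 + sg d.2).natAbs = (x d.1).natAbs + 1

instance (x : V m) (d : Fin m × Bool) : Decidable (IsUp x d) := by unfold IsUp; infer_instance

theorem IsUp.nrm_eq {x : V m} {d : Fin m × Bool} (h : IsUp x d) : nrm (x + dir d) = nrm x + 1 := by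
  have := nrm_add_single x d.1 (sg d.2)
  unfold IsUp at h
  unfold dir
  omega

theorem IsUp.le {x : V m} {d : Fin m × Bool} (h : IsUp x d) : Le x (x + dir d) := by
  apply le_of_nrm
  rw [h.nrm_eq, add_sub_cancel_left, dir, nrm_single]
  unfold sg; split_ifs <;> simp

theorem card_isUp (x : V m) : (univ.filter fun d => IsUp x d).card + sup x = 2 * m := by
  unfold sup
  rw [card_filter, card_filter, Fintype.sum_prod_type, ← sum_add_distrib]
  have : ∀ i ∈ (univ : Finset (Fin m)),
      ((∑ b : Bool, if IsUp x (i, b) then 1 else 0) + if x i ≠ 0 then 1 else 0) = 2 := by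
    intro i _
    simp only [Fintype.sum_bool, IsUp, sg, if_true, Bool.false_eq_true, if_false]
    split_ifs <;> omega
  rw [sum_congr rfl this]
  simp [mul_comm]

theorem le_add_dir_iff {x u : V m} (h : Le x u) (d : Fin m × Bool) :
    Le (x + dir d) u ↔
      (x d.1 + sg d.2).natAbs + (u d.1 - (x d.1 + sg d.2)).natAbs = (u d.1).natAbs := by
  refine ⟨fun h' => by simpa [dir] using h' d.1, fun h' k => ?_⟩
  by_cases hk : k = d.1
  · subst hk; simpa [dir] using h'
  · simpa [dir, Pi.single_eq_of_ne hk] using h k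

theorem card_isUp_le {x u : V m} (h : Le x u) :
    (univ.filter fun d => IsUp x d ∧ Le (x + dir d) u).card = sup (u - x) := by
  unfold sup
  rw [card_filter, card_filter, Fintype.sum_prod_type]
  refine sum_congr rfl fun i _ => ?_
  have := h i
  simp only [Fintype.sum_bool, IsUp, le_add_dir_iff h, sg, if_true, Bool.false_eq_true, if_false,
    Pi.sub_apply]
  split_ifs <;> omega

/-- A lattice tiling of the integer lattice by cross-polytope balls of radius `s`. -/
structure Tiling (m s : ℕ) (G : Type) [AddCommGroup G] where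
  φ : V m →+ G
  ex : ∀ g, ∃ x, nrm x ≤ s ∧ φ x = g
  uniq : ∀ x y, nrm x ≤ s → nrm y ≤ s → φ x = φ y → x = y

variable {s : ℕ} {G : Type} [AddCommGroup G] [DecidableEq G] (T : Tiling m s G)

namespace Tiling

noncomputable def L (n : ℕ) : Finset (V m) := (sph m n).filter fun u => T.φ u = 0

theorem mem_L {n : ℕ} {u : V m} : u ∈ T.L n ↔ nrm u = n ∧ T.φ u = 0 := by
  simp [L]

omit [DecidableEq G] in
theorem min_nrm {u : V m} (h : T.φ u = 0) (h0 : u ≠ 0) : 2 * s + 1 ≤ nrm u := by
  by_contra hlt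
  obtain ⟨y, hy, hn⟩ := exists_le u (nrm u / 2) (by omega)
  have h1 := hy.nrm_eq
  have : -y = u - y := T.uniq _ _ (by rw [nrm_neg]; omega) (by omega) (by rw [map_sub, h, map_neg, zero_sub])
  apply h0
  have h2 : u = (u - y) + y := by abel
  rw [h2, ← this]; simp

theorem neg_mem_L {n : ℕ} {u : V m} (h : u ∈ T.L n) : -u ∈ T.L n := by
  rw [mem_L] at h ⊢
  simp [h.1, h.2]

/-- the lattice vectors of norm `n` above `y` -/
noncomputable def up (n : ℕ) (y : V m) : Finset (V m) := (T.L n).filter fun u => Le y u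

theorem mem_up {n : ℕ} {y u : V m} : u ∈ T.up n y ↔ (nrm u = n ∧ T.φ u = 0) ∧ Le y u := by
  simp [up, mem_L]

omit [DecidableEq G] in
theorem near_unique {y u u' : V m} (hu : T.φ u = 0) (hu' : T.φ u' = 0) (h : nrm (u - y) ≤ s)
    (h' : nrm (u' - y) ≤ s) : u = u' := by
  have := T.uniq _ _ h h' (by simp [hu, hu'])
  simpa using this

omit [DecidableEq G] in
theorem exists_near (y : V m) : ∃ u, T.φ u = 0 ∧ nrm (u - y) ≤ s := by
  obtain ⟨x, hx, h⟩ := T.ex (-T.φ y)
  exact ⟨x + y, by simp [h], by simpa using hx⟩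

theorem cover1 {y : V m} (hy : nrm y = s + 1) : (T.up (2 * s + 1) y).card = 1 := by
  obtain ⟨u, hu, hn⟩ := T.exists_near y
  have h0 : u ≠ 0 := by rintro rfl; simp at hn; omega
  have h1 := T.min_nrm hu h0
  have h2 := nrm_add_le y (u - y)
  rw [add_sub_cancel] at h2
  rw [card_eq_one]
  refine ⟨u, eq_singleton_iff_unique_mem.2 ⟨T.mem_up.2 ⟨⟨by omega, hu⟩, le_of_nrm (by omega)⟩, ?_⟩⟩
  intro u' hu'
  rw [mem_up] at hu'
  have := hu'.2.nrm_eq
  exact T.near_unique hu'.1.2 hu (by omega) hn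

theorem cover2 {y : V m} (hy : nrm y = s + 2) :
    (T.up (2 * s + 1) y).card + (T.up (2 * s + 2) y).card = 1 := by
  obtain ⟨u, hu, hn⟩ := T.exists_near y
  have h0 : u ≠ 0 := by rintro rfl; simp at hn; omega
  have h1 := T.min_nrm hu h0
  have h2 := nrm_add_le y (u - y)
  have h3 := nrm_add_mod y (u - y)
  rw [add_sub_cancel] at h2 h3
  have key : ∀ n u', n ≤ 2 * s + 2 → u' ∈ T.up n y → u' = u := by
    intro n u' hn' hu'
    rw [mem_up] at hu'
    have := hu'.2.nrm_eq
    exact T.near_unique hu'.1.2 hu (by omega) hn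
  have hmem : u ∈ T.up (nrm u) y := T.mem_up.2 ⟨⟨rfl, hu⟩, le_of_nrm (by omega)⟩
  have hemp : ∀ n, n ≤ 2 * s + 2 → n ≠ nrm u → T.up n y = ∅ := by
    intro n hn' hne
    refine eq_empty_of_forall_notMem fun u' hu' => hne ?_
    rw [← key n u' hn' hu']
    exact (T.mem_up.1 hu').1.1.symm
  have hone : (T.up (nrm u) y).card = 1 :=
    card_eq_one.2 ⟨u, eq_singleton_iff_unique_mem.2 ⟨hmem, fun u' h => key _ u' (by omega) h⟩⟩
  by_cases hc : nrm u = 2 * s + 1
  · rw [hemp (2 * s + 2) le_rfl (by omega), ← hc, hone]; rfl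
  · have hc' : nrm u = 2 * s + 2 := by omega
    rw [hemp (2 * s + 1) (by omega) (by omega), ← hc', hone]; rfl

/-- neighbours of `y - u` are `-u` and the translates of the vectors of norm `2s+2` above `y` -/
theorem sum_up_shift {M : Type*} [AddCommMonoid M] {y u : V m} (hy : nrm y = s + 1)
    (hu : u ∈ T.up (2 * s + 1) y) (g : V m → M) :
    ∑ u' ∈ T.up (2 * s + 1) (y - u), g (u' - (y - u)) =
      g (-y) + ∑ w ∈ T.up (2 * s + 2) y, g (w - y) := by
  rw [mem_up] at hu
  have h1 := hu.2.nrm_eq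
  have hx : nrm (y - u) = s := by rw [nrm_sub_comm]; omega
  have hm : -u ∈ T.up (2 * s + 1) (y - u) := by
    refine T.mem_up.2 ⟨⟨by simp [hu.1.1], by simp [hu.1.2]⟩, ?_⟩
    have := hu.2.compl.neg
    rwa [neg_sub] at this
  rw [← add_sum_erase _ _ hm]
  congr 1
  · congr 1; abel
  · refine sum_bij' (fun u' _ => u' + u) (fun w _ => w - u) ?_ ?_ ?_ ?_ ?_
    · intro u' hu'
      rw [mem_erase, mem_up] at hu'
      have h2 := hu'.2.2.nrm_eq
      have e : u' - (y - u) = u' + u - y := by abel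
      rw [e] at h2
      have h3 : T.φ (u' + u) = 0 := by simp [hu.1.2, hu'.2.1.2]
      have h4 := T.min_nrm h3 (fun h => hu'.1 (eq_neg_of_add_eq_zero_left h))
      have h5 := nrm_add_le y (u' + u - y)
      have h6 := nrm_add_mod y (u' + u - y)
      rw [add_sub_cancel] at h5 h6
      exact T.mem_up.2 ⟨⟨by omega, h3⟩, le_of_nrm (by omega)⟩
    · intro w hw
      rw [mem_up] at hw
      have h2 := hw.2.nrm_eq
      have h3 : T.φ (w - u) = 0 := by simp [hu.1.2, hw.1.2]
      have h4 := T.min_nrm h3 (fun h => by rw [sub_eq_zero.1 h] at hw; omega)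
      have e : w - u - (y - u) = w - y := by abel
      have h5 := nrm_add_le (y - u) (w - u - (y - u))
      rw [add_sub_cancel, e] at h5
      rw [mem_erase, mem_up]
      refine ⟨fun h => ?_, ⟨by omega, h3⟩, le_of_nrm (by rw [e]; omega)⟩
      have : w = 0 := by simpa using h
      rw [this, nrm_zero] at hw; omega
    · intro u' _; simp
    · intro w _; simp
    · intro u' _; congr 1; abel

/-- exchanging the roles of the points of norm `s` and `s+1` -/
theorem sum_pairs {M : Type*} [AddCommMonoid M] (F : V m → V m → M) :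
    ∑ x ∈ sph m s, ∑ u ∈ T.up (2 * s + 1) x, F x (x - u) =
      ∑ y ∈ sph m (s + 1), ∑ u ∈ T.up (2 * s + 1) y, F (y - u) y := by
  rw [sum_sigma', sum_sigma']
  refine sum_bij' (fun p _ => ⟨p.1 - p.2, -p.2⟩) (fun p _ => ⟨p.1 - p.2, -p.2⟩) ?_ ?_ ?_ ?_ ?_
  · rintro ⟨x, u⟩ h
    simp only [mem_sigma, mem_sph, mem_up] at h ⊢
    have h1 := h.2.2.nrm_eq
    refine ⟨by rw [nrm_sub_comm]; omega, ⟨by simp [h.2.1.1], by simp [h.2.1.2]⟩, ?_⟩
    have := h.2.2.compl.neg
    rwa [neg_sub] at this
  · rintro ⟨x, u⟩ h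
    simp only [mem_sigma, mem_sph, mem_up] at h ⊢
    have h1 := h.2.2.nrm_eq
    refine ⟨by rw [nrm_sub_comm]; omega, ⟨by simp [h.2.1.1], by simp [h.2.1.2]⟩, ?_⟩
    have := h.2.2.compl.neg
    rwa [neg_sub] at this
  · rintro ⟨x, u⟩ _; simp
  · rintro ⟨x, u⟩ _; simp
  · rintro ⟨x, u⟩ _; simp

/-- double counting of pairs (point, lattice vector above it) -/
theorem sum_up_comm {M : Type*} [AddCommMonoid M] (j n : ℕ) (F : V m → V m → M) :
    ∑ y ∈ sph m j, ∑ u ∈ T.up n y, F y u =
      ∑ u ∈ T.L n, ∑ y ∈ (sph m j).filter (fun y => Le y u), F y u := by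
  unfold up
  simp only [sum_filter]
  rw [sum_comm]

/-- number of lattice vectors at distance `s+1` from a point `x` of norm `s` -/
noncomputable def K (x : V m) : ℕ := (T.up (2 * s + 1) x).card
/-- number of lattice vectors of norm `2s+2` above `y` -/
noncomputable def Kt (y : V m) : ℕ := (T.up (2 * s + 2) y).card

theorem sum_sup {x : V m} (hx : nrm x = s) :
    ∑ u ∈ T.up (2 * s + 1) x, sup (u - x) + sup x = 2 * m := by
  rw [← card_isUp x]
  congr 1
  have h1 : ∀ u ∈ T.up (2 * s + 1) x, sup (u - x) =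
      ∑ d ∈ univ.filter (fun d => IsUp x d), if Le (x + dir d) u then 1 else 0 := by
    intro u hu
    rw [← card_isUp_le (T.mem_up.1 hu).2, ← card_filter, filter_filter]
  rw [sum_congr rfl h1, sum_comm, card_eq_sum_ones]
  refine sum_congr rfl fun d hd => ?_
  rw [mem_filter] at hd
  rw [← card_filter]
  refine Eq.trans ?_ (T.cover1 (y := x + dir d) (by rw [hd.2.nrm_eq, hx]))
  congr 1
  ext u
  simp only [mem_filter, mem_up]
  exact ⟨fun h => ⟨h.1.1, h.2⟩, fun h => ⟨⟨h.1, hd.2.le.trans h.2⟩, h.2⟩⟩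

theorem nrm_sub_of_up {x u : V m} (hx : nrm x = s) (hu : u ∈ T.up (2 * s + 1) x) :
    nrm (u - x) = s + 1 := by
  rw [mem_up] at hu
  have := hu.2.nrm_eq
  omega

/-- the pointwise identity -/
theorem K_eq {x : V m} (hx : nrm x = s) :
    (s + 1) * T.K x + s = 2 * m + exc x + ∑ u ∈ T.up (2 * s + 1) x, exc (u - x) := by
  have h1 := T.sum_sup hx
  have h2 : ∑ u ∈ T.up (2 * s + 1) x, (sup (u - x) + exc (u - x)) = (s + 1) * T.K x := by
    rw [sum_congr rfl fun u hu => (sup_add_exc (u - x)).trans (T.nrm_sub_of_up hx hu)]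
    simp [K, mul_comm]
  rw [sum_add_distrib] at h2
  have := sup_add_exc x
  omega

theorem K_shift {y u : V m} (hy : nrm y = s + 1) (hu : u ∈ T.up (2 * s + 1) y) :
    T.K (y - u) = 1 + T.Kt y := by
  have := T.sum_up_shift hy hu (fun _ => (1 : ℕ))
  simpa [K, Kt] using this

theorem exists_up {y : V m} (hy : nrm y = s + 1) : ∃ u, T.up (2 * s + 1) y = {u} :=
  card_eq_one.1 (T.cover1 hy)

/-- lower bound for `Kt` from the excess of the point -/
theorem Kt_ge {y : V m} (hy : nrm y = s + 1) : 2 * m + exc y ≤ (s + 1) * (1 + T.Kt y) + s := by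
  obtain ⟨u, hu⟩ := T.exists_up hy
  have hu' : u ∈ T.up (2 * s + 1) y := by rw [hu]; exact mem_singleton_self u
  have h0 := (T.mem_up.1 hu').2.nrm_eq
  have h00 := (T.mem_up.1 hu').1.1
  have h1 := T.K_eq (x := y - u) (by rw [nrm_sub_comm]; omega)
  rw [T.sum_up_shift hy hu' exc, T.K_shift hy hu', exc_neg] at h1
  omega

theorem sum_K : ∑ x ∈ sph m s, T.K x = (sph m (s + 1)).card := by
  have := T.sum_pairs (fun _ _ => (1 : ℕ))
  simp only [sum_const, smul_eq_mul, mul_one] at this
  unfold K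
  rw [this, sum_congr rfl fun y hy => T.cover1 (mem_sph.1 hy)]
  simp

theorem sum_K_sq : ∑ x ∈ sph m s, T.K x * T.K x = ∑ y ∈ sph m (s + 1), (1 + T.Kt y) := by
  have := T.sum_pairs (fun x _ => T.K x)
  simp only [sum_const, smul_eq_mul] at this
  refine this.trans (sum_congr rfl fun y hy => ?_)
  rw [mem_sph] at hy
  rw [sum_congr rfl fun u hu => T.K_shift hy hu, sum_const, T.cover1 hy]
  simp

end Tiling

end Pool.Agent.Lib.MP_a6e91d_co
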