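import Pool.Agent.Lib.MP_a6e91d_co.Count

set_option autoImplicit false

namespace Pool.Agent.Lib.MP_a6e91d_co
open Finset

/-- A spanning family of the right size gives a tiling. -/
theorem tiling_of_span {m s : ℕ} {G : Type} [AddCommGroup G] [Fintype G] (φ : V m →+ G)
    (hc : Fintype.card G = (ball m s).card) (ex : ∀ g, ∃ x, nrm x ≤ s ∧ φ x = g) :
    Nonempty (Tiling m s G) := by
  classical
  refine ⟨⟨φ, ex, fun x y hx hy e => ?_⟩⟩
  have h : Set.InjOn φ (ball m s) := by
    rw [← card_image_iff]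
    have : (ball m s).image φ = univ := eq_univ_of_forall fun g => by
      obtain ⟨x, hx, e⟩ := ex g
      exact mem_image.2 ⟨x, mem_ball.2 hx, e⟩
    rw [this, card_univ, hc]
  exact h (mem_coe.2 (mem_ball.2 hx)) (mem_coe.2 (mem_ball.2 hy)) e

theorem tiling_of_set {m s n : ℕ}
    (hn : n = ∑ i ∈ range (m + 1), Nat.choose m i * Nat.choose s i * 2 ^ i)
    (A : Finset (ZMod n)) (hA : A.card = m)
    (h : ∀ x : ZMod n, ∃ c : ZMod n → ℤ,
      ∑ a ∈ A, |c a| ≤ (s : ℤ) ∧ ∑ a ∈ A, (c a : ZMod n) * a = x) :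
    n = (ball m s).card ∧ Nonempty (Tiling m s (ZMod n)) := by
  have hb : n = (ball m s).card := hn.trans (card_ball s).symm
  have ho := card_ball_odd (m := m) s
  have : NeZero n := ⟨by omega⟩
  refine ⟨hb, ?_⟩
  let e : A ≃ Fin m := A.equivFinOfCardEq hA
  let φ : V m →+ ZMod n :=
    { toFun := fun x => ∑ i, (x i : ZMod n) * (e.symm i : ZMod n)
      map_zero' := by simp
      map_add' := fun x y => by simp [add_mul, sum_add_distrib] }
  refine tiling_of_span φ (by rw [ZMod.card]; exact hb) fun g => ?_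
  obtain ⟨c, h1, h2⟩ := h g
  refine ⟨fun i => c (e.symm i), ?_, ?_⟩
  · rw [← sum_coe_sort, ← e.symm.sum_comp] at h1
    unfold nrm
    zify
    exact h1
  · rw [← sum_coe_sort, ← e.symm.sum_comp] at h2
    exact h2

end Pool.Agent.Lib.MP_a6e91d_co
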