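import Pool.Agent.Lib.MP_a6e91d_co.LP

set_option autoImplicit false
set_option maxRecDepth 100000

namespace Pool.Agent.Lib.MP_a6e91d_co

def c2T2 : Cert where
  s := 2
  b := 6
  den := 300000
  tT := .node 0 (.node 0 (.node 0 (.leaf (300000) .nil) .nil) .nil) .nil
  tC := .node 3 (.leaf (800001) .nil) (.node 2 (.node 0 (.leaf (600001) .nil) .nil) (.node 1 (.node 0
    (.node 0 (.leaf (500000) .nil) .nil) .nil) (.node 0 (.node 0 (.node 0 (.node 0 (.leaf (100000)
    .nil) .nil) .nil) .nil) .nil)))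
  tD := .node 2 (.leaf (-199999) .nil) (.node 1 (.node 0 (.leaf (-199999) .nil) .nil) (.node 0 (.node 0
    (.node 0 (.leaf (-200000) .nil) .nil) .nil) .nil))
  o1 := 0
  o2 := -599999

theorem c2T2_ok : c2T2.ok = true := by decide +kernel
theorem c2T2_W : c2T2.W = true := by decide +kernel
theorem c2T2_U : c2T2.U = true := by decide +kernel
theorem c2T2_f : c2T2.fin2 (3 : ℕ) (1 : ℕ) = true := by decide +kernel

def c3T1 : Cert where
  s := 3
  b := 8
  den := 300000
  tT := .node 3 (.leaf (300000) .nil) (.node 2 (.node 0 (.leaf (300000) .nil) .nil) (.node 1 (.node 1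
    (.leaf (150000) .nil) (.node 0 (.node 0 (.leaf (150000) .nil) .nil) .nil)) (.node 0 (.node 0
    (.node 0 (.node 0 (.leaf (12500) .nil) .nil) .nil) .nil) .nil)))
  tC := .node 4 (.leaf (356252) .nil) (.node 3 (.node 0 (.leaf (300002) .nil) .nil) (.node 2 (.node 1
    (.leaf (431252) .nil) (.node 0 (.node 0 (.leaf (159376) .nil) .nil) .nil)) (.node 1 (.node 1
    (.node 0 (.leaf (178126) .nil) .nil) (.node 0 (.node 0 (.node 0 (.leaf (59375) .nil) .nil) .nil)
    .nil)) (.node 0 (.node 0 (.node 0 (.node 0 (.node 0 (.leaf (3125) .nil) .nil) .nil) .nil) .nil)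
    .nil))))
  tD := .node 3 (.leaf (-299998) .nil) (.node 2 (.node 0 (.leaf (-281248) .nil) .nil) (.node 1 (.node 1
    (.leaf (-121874) .nil) (.node 0 (.node 0 (.leaf (-121873) .nil) .nil) .nil)) (.node 0 (.node 0
    (.node 0 (.node 0 (.leaf (-9375) .nil) .nil) .nil) .nil) .nil)))
  o1 := -56248
  o2 := -28123

theorem c3T1_ok : c3T1.ok = true := by decide +kernel
theorem c3T1_W : c3T1.W = true := by decide +kernel
theorem c3T1_U : c3T1.U = true := by decide +kernel
theorem c3T1_Y : c3T1.Y = true := by decide +kernel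
theorem c3T1_f9 : c3T1.fin1 (9 : ℕ) (2 : ℕ) 4 1 = true := by decide +kernel

def c3T2 : Cert where
  s := 3
  b := 8
  den := 100000
  tT := .node 0 (.node 0 (.node 0 (.node 0 (.leaf (100000) .nil) .nil) .nil) .nil) .nil
  tC := .node 4 (.leaf (-1124998) .nil) (.node 3 (.node 0 (.leaf (75002) .nil) .nil) (.node 2 (.node 1
    (.leaf (-599998) .nil) (.node 0 (.node 0 (.leaf (375002) .nil) .nil) .nil)) (.node 1 (.node 1
    (.node 0 (.leaf (-374999) .nil) .nil) (.node 0 (.node 0 (.node 0 (.leaf (175000) .nil) .nil)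
    .nil) .nil)) (.node 0 (.node 0 (.node 0 (.node 0 (.node 0 (.leaf (25000) .nil) .nil) .nil) .nil)
    .nil) .nil))))
  tD := .node 3 (.leaf (1725001) .nil) (.node 2 (.node 0 (.leaf (-224998) .nil) .nil) (.node 1 (.node 1
    (.leaf (825002) .nil) (.node 0 (.node 0 (.leaf (-74998) .nil) .nil) .nil)) (.node 0 (.node 0
    (.node 0 (.node 0 (.leaf (-75000) .nil) .nil) .nil) .nil) .nil)))
  o1 := -449998
  o2 := 1575001

theorem c3T2_ok : c3T2.ok = true := by decide +kernel
theorem c3T2_W : c3T2.W = true := by decide +kernel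
theorem c3T2_U : c3T2.U = true := by decide +kernel
theorem c3T2_f : c3T2.fin2 (14 : ℕ) (1 : ℕ) = true := by decide +kernel

def c4T1 : Cert where
  s := 4
  b := 10
  den := 300000
  tT := .node 4 (.leaf (300000) .nil) (.node 3 (.node 0 (.leaf (300000) .nil) .nil) (.node 2 (.node 1
    (.leaf (300000) .nil) (.node 0 (.node 0 (.leaf (150000) .nil) .nil) .nil)) (.node 1 (.node 1
    (.node 0 (.leaf (150000) .nil) .nil) (.node 0 (.node 0 (.node 0 (.leaf (50000) .nil) .nil) .nil)
    .nil)) (.node 0 (.node 0 (.node 0 (.node 0 (.node 0 (.leaf (2500) .nil) .nil) .nil) .nil) .nil)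
    .nil))))
  tC := .node 5 (.leaf (396001) .nil) (.node 4 (.node 0 (.leaf (268001) .nil) .nil) (.node 3 (.node 1
    (.leaf (360002) .nil) (.node 0 (.node 0 (.leaf (146001) .nil) .nil) .nil)) (.node 2 (.node 2
    (.leaf (280002) .nil) (.node 1 (.node 0 (.leaf (344001) .nil) .nil) (.node 0 (.node 0 (.node 0
    (.leaf (54000) .nil) .nil) .nil) .nil))) (.node 1 (.node 1 (.node 1 (.leaf (54002) .nil) (.node
    0 (.node 0 (.leaf (86000) .nil) .nil) .nil)) (.node 0 (.node 0 (.node 0 (.node 0 (.leaf (14500)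
    .nil) .nil) .nil) .nil) .nil)) (.node 0 (.node 0 (.node 0 (.node 0 (.node 0 (.node 0 (.leaf
    (500) .nil) .nil) .nil) .nil) .nil) .nil) .nil)))))
  tD := .node 4 (.leaf (-331998) .nil) (.node 3 (.node 0 (.leaf (-307998) .nil) .nil) (.node 2 (.node 1
    (.leaf (-255998) .nil) (.node 0 (.node 0 (.leaf (-137998) .nil) .nil) .nil)) (.node 1 (.node 1
    (.node 0 (.leaf (-127999) .nil) .nil) (.node 0 (.node 0 (.node 0 (.leaf (-42000) .nil) .nil)
    .nil) .nil)) (.node 0 (.node 0 (.node 0 (.node 0 (.node 0 (.leaf (-2000) .nil) .nil) .nil) .nil)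
    .nil) .nil))))
  o1 := 0
  o2 := 0

theorem c4T1_ok : c4T1.ok = true := by decide +kernel
theorem c4T1_W : c4T1.W = true := by decide +kernel
theorem c4T1_U : c4T1.U = true := by decide +kernel
theorem c4T1_Y : c4T1.Y = true := by decide +kernel
theorem c4T1_f11 : c4T1.fin1 (11 : ℕ) (5 : ℕ) 4 2 = true := by decide +kernel
theorem c4T1_f13 : c4T1.fin1 (13 : ℕ) (5 : ℕ) 5 2 = true := by decide +kernel
theorem c4T1_f14 : c4T1.fin1 (14 : ℕ) (5 : ℕ) 5 2 = true := by decide +kernel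

def c4T2 : Cert where
  s := 4
  b := 10
  den := 100000
  tT := .node 0 (.node 0 (.node 0 (.node 0 (.node 0 (.leaf (100000) .nil) .nil) .nil) .nil) .nil) .nil
  tC := .node 5 (.leaf (2820002) .nil) (.node 4 (.node 0 (.leaf (80002) .nil) .nil) (.node 3 (.node 1
    (.leaf (-819998) .nil) (.node 0 (.node 0 (.leaf (640001) .nil) .nil) .nil)) (.node 2 (.node 2
    (.leaf (2520002) .nil) (.node 1 (.node 0 (.leaf (-3059999) .nil) .nil) (.node 0 (.node 0 (.node
    0 (.leaf (560001) .nil) .nil) .nil) .nil))) (.node 1 (.node 1 (.node 1 (.leaf (4000001) .nil)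
    (.node 0 (.node 0 (.leaf (-559999) .nil) .nil) .nil)) (.node 0 (.node 0 (.node 0 (.node 0 (.leaf
    (180000) .nil) .nil) .nil) .nil) .nil)) (.node 0 (.node 0 (.node 0 (.node 0 (.node 0 (.node 0
    (.leaf (20000) .nil) .nil) .nil) .nil) .nil) .nil) .nil)))))
  tD := .node 4 (.leaf (-579999) .nil) (.node 3 (.node 0 (.leaf (-1119999) .nil) .nil) (.node 2 (.node 1
    (.leaf (5840001) .nil) (.node 0 (.node 0 (.leaf (-719998) .nil) .nil) .nil)) (.node 1 (.node 1
    (.node 0 (.leaf (1280001) .nil) .nil) (.node 0 (.node 0 (.node 0 (.leaf (-79998) .nil) .nil)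
    .nil) .nil)) (.node 0 (.node 0 (.node 0 (.node 0 (.node 0 (.leaf (-80000) .nil) .nil) .nil)
    .nil) .nil) .nil))))
  o1 := 0
  o2 := 0

theorem c4T2_ok : c4T2.ok = true := by decide +kernel
theorem c4T2_W : c4T2.W = true := by decide +kernel
theorem c4T2_U : c4T2.U = true := by decide +kernel
theorem c4T2_f : c4T2.fin2 (20 : ℕ) (1 : ℕ) = true := by decide +kernel

def c4T3 : Cert where
  s := 4
  b := 10
  den := 100000
  tT := .node 1 (.node 0 (.node 0 (.node 0 (.leaf (100000) .nil) .nil) .nil) .nil) .nil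
  tC := .node 4 (.node 0 (.leaf (160002) .nil) .nil) (.node 3 (.node 1 (.leaf (-239998) .nil) (.node 0
    (.node 0 (.leaf (80001) .nil) .nil) .nil)) (.node 2 (.node 2 (.leaf (360002) .nil) (.node 1
    (.node 0 (.leaf (320002) .nil) .nil) (.node 0 (.node 0 (.node 0 (.leaf (20000) .nil) .nil) .nil)
    .nil))) (.node 1 (.node 1 (.node 1 (.leaf (-399999) .nil) (.node 0 (.node 0 (.leaf (140000)
    .nil) .nil) .nil)) (.node 0 (.node 0 (.node 0 (.node 0 (.leaf (20000) .nil) .nil) .nil) .nil)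
    .nil)) .nil)))
  tD := .node 4 (.leaf (-319998) .nil) (.node 3 (.node 0 (.leaf (-79998) .nil) .nil) (.node 2 (.node 1
    (.leaf (-179999) .nil) .nil) (.node 1 (.node 1 (.node 0 (.leaf (-19998) .nil) .nil) (.node 0
    (.node 0 (.node 0 (.leaf (-80000) .nil) .nil) .nil) .nil)) .nil)))
  o1 := 7140002
  o2 := 1920002

theorem c4T3_ok : c4T3.ok = true := by decide +kernel
theorem c4T3_W : c4T3.W = true := by decide +kernel
theorem c4T3_U : c4T3.U = true := by decide +kernel
theorem c4T3_f : c4T3.fin3 (57 : ℕ) (1 : ℕ) = true := by decide +kernel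

def c5T1 : Cert where
  s := 5
  b := 12
  den := 2700000
  tT := .node 5 (.leaf (2700000) .nil) (.node 4 (.node 0 (.leaf (2700000) .nil) .nil) (.node 3 (.node 1
    (.leaf (2700000) .nil) (.node 0 (.node 0 (.leaf (1350000) .nil) .nil) .nil)) (.node 2 (.node 2
    (.leaf (1350000) .nil) (.node 1 (.node 0 (.leaf (2700000) .nil) .nil) (.node 0 (.node 0 (.node 0
    (.leaf (450000) .nil) .nil) .nil) .nil))) (.node 1 (.node 1 (.node 1 (.leaf (450000) .nil)
    (.node 0 (.node 0 (.leaf (675000) .nil) .nil) .nil)) (.node 0 (.node 0 (.node 0 (.node 0 (.leaf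
    (112500) .nil) .nil) .nil) .nil) .nil)) (.node 0 (.node 0 (.node 0 (.node 0 (.node 0 (.node 0
    (.leaf (3750) .nil) .nil) .nil) .nil) .nil) .nil) .nil)))))
  tC := .node 6 (.leaf (4431206) .nil) (.node 5 (.node 0 (.leaf (2440472) .nil) .nil) (.node 4 (.node 1
    (.leaf (2794100) .nil) (.node 0 (.node 0 (.leaf (1261792) .nil) .nil) .nil)) (.node 3 (.node 2
    (.leaf (4612840) .nil) (.node 1 (.node 0 (.leaf (2913957) .nil) .nil) (.node 0 (.node 0 (.node 0
    (.leaf (455326) .nil) .nil) .nil) .nil))) (.node 2 (.node 2 (.node 0 (.leaf (1675330) .nil)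
    .nil) (.node 1 (.node 1 (.leaf (1428949) .nil) (.node 0 (.node 0 (.leaf (1472699) .nil) .nil)
    .nil)) (.node 0 (.node 0 (.node 0 (.node 0 (.leaf (122403) .nil) .nil) .nil) .nil) .nil)))
    (.node 1 (.node 1 (.node 1 (.node 0 (.leaf (500001) .nil) .nil) (.node 0 (.node 0 (.node 0
    (.leaf (253126) .nil) .nil) .nil) .nil)) (.node 0 (.node 0 (.node 0 (.node 0 (.node 0 (.leaf
    (25625) .nil) .nil) .nil) .nil) .nil) .nil)) (.node 0 (.node 0 (.node 0 (.node 0 (.node 0 (.node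
    0 (.node 0 (.leaf (625) .nil) .nil) .nil) .nil) .nil) .nil) .nil) .nil))))))
  tD := .node 5 (.leaf (-2250532) .nil) (.node 4 (.node 0 (.leaf (-2924018) .nil) .nil) (.node 3 (.node
    1 (.leaf (-1872276) .nil) (.node 0 (.node 0 (.leaf (-1355417) .nil) .nil) .nil)) (.node 2 (.node
    2 (.leaf (-1082487) .nil) (.node 1 (.node 0 (.leaf (-2416580) .nil) .nil) (.node 0 (.node 0
    (.node 0 (.leaf (-411248) .nil) .nil) .nil) .nil))) (.node 1 (.node 1 (.node 1 (.leaf (-401981)
    .nil) (.node 0 (.node 0 (.leaf (-593331) .nil) .nil) .nil)) (.node 0 (.node 0 (.node 0 (.node 0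
    (.leaf (-96806) .nil) .nil) .nil) .nil) .nil)) (.node 0 (.node 0 (.node 0 (.node 0 (.node 0
    (.node 0 (.leaf (-3125) .nil) .nil) .nil) .nil) .nil) .nil) .nil)))))
  o1 := 0
  o2 := 0

theorem c5T1_ok : c5T1.ok = true := by decide +kernel
theorem c5T1_W : c5T1.W = true := by decide +kernel
theorem c5T1_U : c5T1.U = true := by decide +kernel
theorem c5T1_Y : c5T1.Y = true := by decide +kernel
theorem c5T1_f16 : c5T1.fin1 (16 : ℕ) (3 : ℕ) 5 1 = true := by decide +kernel
theorem c5T1_f17 : c5T1.fin1 (17 : ℕ) (3 : ℕ) 5 1 = true := by decide +kernel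

def c5T2 : Cert where
  s := 5
  b := 12
  den := 300000
  tT := .node 0 (.node 0 (.node 0 (.node 0 (.node 0 (.node 0 (.leaf (300000) .nil) .nil) .nil) .nil)
    .nil) .nil) .nil
  tC := .node 6 (.leaf (613883335) .nil) (.node 5 (.node 0 (.leaf (134616668) .nil) .nil) (.node 4
    (.node 1 (.leaf (299250001) .nil) (.node 0 (.node 0 (.leaf (-5749998) .nil) .nil) .nil)) (.node
    3 (.node 2 (.leaf (199350002) .nil) (.node 1 (.node 0 (.leaf (-43749998) .nil) .nil) (.node 0
    (.node 0 (.node 0 (.leaf (4750001) .nil) .nil) .nil) .nil))) (.node 2 (.node 2 (.node 0 (.leaf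
    (-22699999) .nil) .nil) (.node 1 (.node 1 (.leaf (285750001) .nil) (.node 0 (.node 0 (.leaf
    (-27499999) .nil) .nil) .nil)) (.node 0 (.node 0 (.node 0 (.node 0 (.leaf (2250001) .nil) .nil)
    .nil) .nil) .nil))) (.node 1 (.node 1 (.node 1 (.node 0 (.leaf (22750002) .nil) .nil) (.node 0
    (.node 0 (.node 0 (.leaf (-2249999) .nil) .nil) .nil) .nil)) (.node 0 (.node 0 (.node 0 (.node 0
    (.node 0 (.leaf (550000) .nil) .nil) .nil) .nil) .nil) .nil)) (.node 0 (.node 0 (.node 0 (.node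
    0 (.node 0 (.node 0 (.node 0 (.leaf (50000) .nil) .nil) .nil) .nil) .nil) .nil) .nil) .nil))))))
  tD := .node 5 (.leaf (-716583332) .nil) (.node 4 (.node 0 (.leaf (24500002) .nil) .nil) (.node 3
    (.node 1 (.leaf (112250001) .nil) (.node 0 (.node 0 (.leaf (-9749998) .nil) .nil) .nil)) (.node
    2 (.node 2 (.leaf (56500001) .nil) (.node 1 (.node 0 (.leaf (77000001) .nil) .nil) (.node 0
    (.node 0 (.node 0 (.leaf (-2999999) .nil) .nil) .nil) .nil))) (.node 1 (.node 1 (.node 1 (.leaf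
    (-84999999) .nil) (.node 0 (.node 0 (.leaf (5250001) .nil) .nil) .nil)) (.node 0 (.node 0 (.node
    0 (.node 0 (.leaf (-249999) .nil) .nil) .nil) .nil) .nil)) (.node 0 (.node 0 (.node 0 (.node 0
    (.node 0 (.node 0 (.leaf (-250000) .nil) .nil) .nil) .nil) .nil) .nil) .nil)))))
  o1 := 825000001
  o2 := -374249998

theorem c5T2_ok : c5T2.ok = true := by decide +kernel
theorem c5T2_W : c5T2.W = true := by decide +kernel
theorem c5T2_U : c5T2.U = true := by decide +kernel
theorem c5T2_f : c5T2.fin2 (21 : ℕ) (1 : ℕ) = true := by decide +kernel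

def c6T1 : Cert where
  s := 6
  b := 14
  den := 44100000
  tT := .node 6 (.leaf (44100000) .nil) (.node 5 (.node 0 (.leaf (44100000) .nil) .nil) (.node 4 (.node
    1 (.leaf (44100000) .nil) (.node 0 (.node 0 (.leaf (22050000) .nil) .nil) .nil)) (.node 3 (.node
    2 (.leaf (44100000) .nil) (.node 1 (.node 0 (.leaf (44100000) .nil) .nil) (.node 0 (.node 0
    (.node 0 (.leaf (7350000) .nil) .nil) .nil) .nil))) (.node 2 (.node 2 (.node 0 (.leaf (22050000)
    .nil) .nil) (.node 1 (.node 1 (.leaf (22050000) .nil) (.node 0 (.node 0 (.leaf (22050000) .nil)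
    .nil) .nil)) (.node 0 (.node 0 (.node 0 (.node 0 (.leaf (1837500) .nil) .nil) .nil) .nil)
    .nil))) (.node 1 (.node 1 (.node 1 (.node 0 (.leaf (7350000) .nil) .nil) (.node 0 (.node 0
    (.node 0 (.leaf (3675000) .nil) .nil) .nil) .nil)) (.node 0 (.node 0 (.node 0 (.node 0 (.node 0
    (.leaf (367500) .nil) .nil) .nil) .nil) .nil) .nil)) (.node 0 (.node 0 (.node 0 (.node 0 (.node
    0 (.node 0 (.node 0 (.leaf (8750) .nil) .nil) .nil) .nil) .nil) .nil) .nil) .nil))))))
  tC := .node 7 (.leaf (76784560) .nil) (.node 6 (.node 0 (.leaf (45268678) .nil) .nil) (.node 5 (.node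
    1 (.leaf (42828531) .nil) (.node 0 (.node 0 (.leaf (20471031) .nil) .nil) .nil)) (.node 4 (.node
    2 (.leaf (56608678) .nil) (.node 1 (.node 0 (.leaf (45487060) .nil) .nil) (.node 0 (.node 0
    (.node 0 (.leaf (7081546) .nil) .nil) .nil) .nil))) (.node 3 (.node 3 (.leaf (47444560) .nil)
    (.node 2 (.node 0 (.leaf (54921178) .nil) .nil) (.node 1 (.node 1 (.leaf (20746766) .nil) (.node
    0 (.node 0 (.leaf (23463531) .nil) .nil) .nil)) (.node 0 (.node 0 (.node 0 (.node 0 (.leaf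
    (1883825) .nil) .nil) .nil) .nil) .nil)))) (.node 2 (.node 2 (.node 1 (.leaf (22550001) .nil)
    (.node 0 (.node 0 (.leaf (12465002) .nil) .nil) .nil)) (.node 1 (.node 1 (.node 0 (.leaf
    (23235002) .nil) .nil) (.node 0 (.node 0 (.node 0 (.leaf (8010001) .nil) .nil) .nil) .nil))
    (.node 0 (.node 0 (.node 0 (.node 0 (.node 0 (.leaf (397500) .nil) .nil) .nil) .nil) .nil)
    .nil))) (.node 1 (.node 1 (.node 1 (.node 1 (.leaf (2310001) .nil) (.node 0 (.node 0 (.leaf
    (4020001) .nil) .nil) .nil)) (.node 0 (.node 0 (.node 0 (.node 0 (.leaf (1020000) .nil) .nil)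
    .nil) .nil) .nil)) (.node 0 (.node 0 (.node 0 (.node 0 (.node 0 (.node 0 (.leaf (68750) .nil)
    .nil) .nil) .nil) .nil) .nil) .nil)) (.node 0 (.node 0 (.node 0 (.node 0 (.node 0 (.node 0
    (.node 0 (.node 0 (.leaf (1250) .nil) .nil) .nil) .nil) .nil) .nil) .nil) .nil) .nil)))))))
  tD := .node 6 (.leaf (-42931322) .nil) (.node 5 (.node 0 (.leaf (-47257940) .nil) .nil) (.node 4
    (.node 1 (.leaf (-42712940) .nil) (.node 0 (.node 0 (.leaf (-22855366) .nil) .nil) .nil)) (.node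
    3 (.node 2 (.leaf (-33278822) .nil) (.node 1 (.node 0 (.leaf (-41272940) .nil) .nil) (.node 0
    (.node 0 (.node 0 (.leaf (-7164704) .nil) .nil) .nil) .nil))) (.node 2 (.node 2 (.node 0 (.leaf
    (-19169999) .nil) .nil) (.node 1 (.node 1 (.leaf (-20864999) .nil) (.node 0 (.node 0 (.leaf
    (-20069998) .nil) .nil) .nil)) (.node 0 (.node 0 (.node 0 (.node 0 (.leaf (-1687498) .nil) .nil)
    .nil) .nil) .nil))) (.node 1 (.node 1 (.node 1 (.node 0 (.leaf (-6659999) .nil) .nil) (.node 0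
    (.node 0 (.node 0 (.leaf (-3269998) .nil) .nil) .nil) .nil)) (.node 0 (.node 0 (.node 0 (.node 0
    (.node 0 (.leaf (-322500) .nil) .nil) .nil) .nil) .nil) .nil)) (.node 0 (.node 0 (.node 0 (.node
    0 (.node 0 (.node 0 (.node 0 (.leaf (-7500) .nil) .nil) .nil) .nil) .nil) .nil) .nil) .nil))))))
  o1 := 0
  o2 := 0

theorem c6T1_ok : c6T1.ok = true := by decide +kernel
theorem c6T1_W : c6T1.W = true := by decide +kernel
theorem c6T1_U : c6T1.U = true := by decide +kernel
theorem c6T1_Y : c6T1.Y = true := by decide +kernel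
theorem c6T1_f22 : c6T1.fin1 (22 : ℕ) (7 : ℕ) 6 2 = true := by decide +kernel
theorem c6T1_f23 : c6T1.fin1 (23 : ℕ) (7 : ℕ) 6 2 = true := by decide +kernel
theorem c6T1_f25 : c6T1.fin1 (25 : ℕ) (7 : ℕ) 7 2 = true := by decide +kernel
theorem c6T1_f26 : c6T1.fin1 (26 : ℕ) (7 : ℕ) 7 2 = true := by decide +kernel
theorem c6T1_f27 : c6T1.fin1 (27 : ℕ) (7 : ℕ) 7 2 = true := by decide +kernel

def c6T2 : Cert where
  s := 6
  b := 14
  den := 700000
  tT := .node 0 (.node 0 (.node 0 (.node 0 (.node 0 (.node 0 (.node 0 (.leaf (700000) .nil) .nil) .nil)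
    .nil) .nil) .nil) .nil) .nil
  tC := .node 7 (.leaf (2415501808) .nil) (.node 6 (.node 0 (.leaf (-48258553) .nil) .nil) (.node 5
    (.node 1 (.leaf (6440655936) .nil) (.node 0 (.node 0 (.leaf (-233205631) .nil) .nil) .nil))
    (.node 4 (.node 2 (.leaf (1255917733) .nil) (.node 1 (.node 0 (.leaf (251008508) .nil) .nil)
    (.node 0 (.node 0 (.node 0 (.leaf (3600001) .nil) .nil) .nil) .nil))) (.node 3 (.node 3 (.leaf
    (691329364) .nil) (.node 2 (.node 0 (.leaf (33114640) .nil) .nil) (.node 1 (.node 1 (.leaf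
    (796956617) .nil) (.node 0 (.node 0 (.leaf (-243298353) .nil) .nil) .nil)) (.node 0 (.node 0
    (.node 0 (.node 0 (.leaf (20400001) .nil) .nil) .nil) .nil) .nil)))) (.node 2 (.node 2 (.node 1
    (.leaf (1508739367) .nil) (.node 0 (.node 0 (.leaf (-37603219) .nil) .nil) .nil)) (.node 1
    (.node 1 (.node 0 (.leaf (601178253) .nil) .nil) (.node 0 (.node 0 (.node 0 (.leaf (-82648556)
    .nil) .nil) .nil) .nil)) (.node 0 (.node 0 (.node 0 (.node 0 (.node 0 (.leaf (6600001) .nil)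
    .nil) .nil) .nil) .nil) .nil))) (.node 1 (.node 1 (.node 1 (.node 1 (.leaf (-353730869) .nil)
    (.node 0 (.node 0 (.leaf (57846967) .nil) .nil) .nil)) (.node 0 (.node 0 (.node 0 (.node 0
    (.leaf (-6071239) .nil) .nil) .nil) .nil) .nil)) (.node 0 (.node 0 (.node 0 (.node 0 (.node 0
    (.node 0 (.leaf (1300000) .nil) .nil) .nil) .nil) .nil) .nil) .nil)) (.node 0 (.node 0 (.node 0
    (.node 0 (.node 0 (.node 0 (.node 0 (.node 0 (.leaf (100000) .nil) .nil) .nil) .nil) .nil) .nil)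
    .nil) .nil) .nil)))))))
  tD := .node 6 (.leaf (680065579) .nil) (.node 5 (.node 0 (.leaf (253894362) .nil) .nil) (.node 4
    (.node 1 (.leaf (-3109509175) .nil) (.node 0 (.node 0 (.leaf (90847649) .nil) .nil) .nil))
    (.node 3 (.node 2 (.leaf (2098820978) .nil) (.node 1 (.node 0 (.leaf (406717079) .nil) .nil)
    (.node 0 (.node 0 (.node 0 (.leaf (-37210554) .nil) .nil) .nil) .nil))) (.node 2 (.node 2 (.node
    0 (.leaf (-134983970) .nil) .nil) (.node 1 (.node 1 (.leaf (-947929120) .nil) (.node 0 (.node 0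
    (.leaf (178585487) .nil) .nil) .nil)) (.node 0 (.node 0 (.node 0 (.node 0 (.leaf (-8958454)
    .nil) .nil) .nil) .nil) .nil))) (.node 1 (.node 1 (.node 1 (.node 0 (.leaf (-36577033) .nil)
    .nil) (.node 0 (.node 0 (.node 0 (.leaf (9163299) .nil) .nil) .nil) .nil)) (.node 0 (.node 0
    (.node 0 (.node 0 (.node 0 (.leaf (-545596) .nil) .nil) .nil) .nil) .nil) .nil)) (.node 0 (.node
    0 (.node 0 (.node 0 (.node 0 (.node 0 (.node 0 (.leaf (-600000) .nil) .nil) .nil) .nil) .nil)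
    .nil) .nil) .nil))))))
  o1 := 79401178991
  o2 := 19479894461

theorem c6T2_ok : c6T2.ok = true := by decide +kernel
theorem c6T2_W : c6T2.W = true := by decide +kernel
theorem c6T2_U : c6T2.U = true := by decide +kernel
theorem c6T2_f : c6T2.fin2 (21 : ℕ) (1 : ℕ) = true := by decide +kernel

def c6T3 : Cert where
  s := 6
  b := 14
  den := 700000
  tT := .node 1 (.node 0 (.node 0 (.node 0 (.node 0 (.node 0 (.leaf (700000) .nil) .nil) .nil) .nil)
    .nil) .nil) .nil
  tC := .node 7 (.leaf (143640002) .nil) (.node 6 (.node 0 (.leaf (16740002) .nil) .nil) (.node 5 (.node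
    1 (.leaf (28176001) .nil) (.node 0 (.node 0 (.leaf (3600001) .nil) .nil) .nil)) (.node 4 (.node
    2 (.leaf (99168001) .nil) (.node 1 (.node 0 (.leaf (-21167998) .nil) .nil) (.node 0 (.node 0
    (.node 0 (.leaf (2400002) .nil) .nil) .nil) .nil))) (.node 3 (.node 3 (.leaf (149592001) .nil)
    (.node 2 (.node 0 (.leaf (-37103999) .nil) .nil) (.node 1 (.node 1 (.leaf (-44279998) .nil)
    (.node 0 (.node 0 (.leaf (7800001) .nil) .nil) .nil)) (.node 0 (.node 0 (.node 0 (.node 0 (.leaf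
    (600001) .nil) .nil) .nil) .nil) .nil)))) (.node 2 (.node 2 (.node 1 (.leaf (142200001) .nil)
    (.node 0 (.node 0 (.leaf (-7799998) .nil) .nil) .nil)) (.node 1 (.node 1 (.node 0 (.leaf
    (-43199999) .nil) .nil) (.node 0 (.node 0 (.node 0 (.leaf (4800002) .nil) .nil) .nil) .nil))
    (.node 0 (.node 0 (.node 0 (.node 0 (.node 0 (.leaf (100000) .nil) .nil) .nil) .nil) .nil)
    .nil))) (.node 1 (.node 1 (.node 1 (.node 1 (.leaf (58800002) .nil) (.node 0 (.node 0 (.leaf
    (-5399998) .nil) .nil) .nil)) (.node 0 (.node 0 (.node 0 (.node 0 (.leaf (1100000) .nil) .nil)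
    .nil) .nil) .nil)) (.node 0 (.node 0 (.node 0 (.node 0 (.node 0 (.node 0 (.leaf (100000) .nil)
    .nil) .nil) .nil) .nil) .nil) .nil)) .nil))))))
  tD := .node 6 (.leaf (-143639999) .nil) (.node 5 (.node 0 (.leaf (-10799998) .nil) .nil) (.node 4
    (.node 1 (.leaf (107720002) .nil) (.node 0 (.node 0 (.leaf (-4799998) .nil) .nil) .nil)) (.node
    3 (.node 2 (.leaf (13344001) .nil) (.node 1 (.node 0 (.leaf (-11919999) .nil) .nil) (.node 0
    (.node 0 (.node 0 (.leaf (-599998) .nil) .nil) .nil) .nil))) (.node 2 (.node 2 (.node 0 (.leaf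
    (20400002) .nil) .nil) (.node 1 (.node 1 (.leaf (70800002) .nil) (.node 0 (.node 0 (.leaf
    (-6599998) .nil) .nil) .nil)) .nil)) (.node 1 (.node 1 (.node 1 (.node 0 (.leaf (13200001) .nil)
    .nil) (.node 0 (.node 0 (.node 0 (.leaf (-599998) .nil) .nil) .nil) .nil)) (.node 0 (.node 0
    (.node 0 (.node 0 (.node 0 (.leaf (-600000) .nil) .nil) .nil) .nil) .nil) .nil)) .nil)))))
  o1 := 0
  o2 := 0

theorem c6T3_ok : c6T3.ok = true := by decide +kernel
theorem c6T3_W : c6T3.W = true := by decide +kernel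
theorem c6T3_U : c6T3.U = true := by decide +kernel
theorem c6T3_f : c6T3.fin3 (31 : ℕ) (1 : ℕ) = true := by decide +kernel

def c7T2 : Cert where
  s := 7
  b := 16
  den := 100000
  tT := .node 0 (.node 0 (.node 0 (.node 0 (.node 0 (.node 0 (.node 0 (.node 0 (.leaf (100000) .nil)
    .nil) .nil) .nil) .nil) .nil) .nil) .nil) .nil
  tC := .node 8 (.leaf (3142400900) .nil) (.node 7 (.node 0 (.leaf (91122756) .nil) .nil) (.node 6
    (.node 1 (.leaf (3926413394) .nil) (.node 0 (.node 0 (.leaf (-83252659) .nil) .nil) .nil))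
    (.node 5 (.node 2 (.leaf (-729316832) .nil) (.node 1 (.node 0 (.leaf (1402122634) .nil) .nil)
    (.node 0 (.node 0 (.node 0 (.leaf (-54266023) .nil) .nil) .nil) .nil))) (.node 4 (.node 3 (.leaf
    (-1078197274) .nil) (.node 2 (.node 0 (.leaf (312378530) .nil) .nil) (.node 1 (.node 1 (.leaf
    (213550137) .nil) (.node 0 (.node 0 (.leaf (-27338430) .nil) .nil) .nil)) (.node 0 (.node 0
    (.node 0 (.node 0 (.leaf (6387502) .nil) .nil) .nil) .nil) .nil)))) (.node 3 (.node 3 (.node 0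
    (.leaf (388954603) .nil) .nil) (.node 2 (.node 1 (.leaf (-2598143693) .nil) (.node 0 (.node 0
    (.leaf (114721763) .nil) .nil) .nil)) (.node 1 (.node 1 (.node 0 (.leaf (512662428) .nil) .nil)
    (.node 0 (.node 0 (.node 0 (.leaf (-80793242) .nil) .nil) .nil) .nil)) (.node 0 (.node 0 (.node
    0 (.node 0 (.node 0 (.leaf (4637501) .nil) .nil) .nil) .nil) .nil) .nil)))) (.node 2 (.node 2
    (.node 2 (.leaf (3872194525) .nil) (.node 1 (.node 0 (.leaf (-64973700) .nil) .nil) (.node 0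
    (.node 0 (.node 0 (.leaf (-12423759) .nil) .nil) .nil) .nil))) (.node 1 (.node 1 (.node 1 (.leaf
    (-361455356) .nil) (.node 0 (.node 0 (.leaf (188700922) .nil) .nil) .nil)) (.node 0 (.node 0
    (.node 0 (.node 0 (.leaf (-18611236) .nil) .nil) .nil) .nil) .nil)) (.node 0 (.node 0 (.node 0
    (.node 0 (.node 0 (.node 0 (.leaf (1137502) .nil) .nil) .nil) .nil) .nil) .nil) .nil))) (.node 1
    (.node 1 (.node 1 (.node 1 (.node 0 (.leaf (-28897499) .nil) .nil) (.node 0 (.node 0 (.node 0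
    (.leaf (11557701) .nil) .nil) .nil) .nil)) (.node 0 (.node 0 (.node 0 (.node 0 (.node 0 (.leaf
    (-1050099) .nil) .nil) .nil) .nil) .nil) .nil)) (.node 0 (.node 0 (.node 0 (.node 0 (.node 0
    (.node 0 (.node 0 (.leaf (187500) .nil) .nil) .nil) .nil) .nil) .nil) .nil) .nil)) (.node 0
    (.node 0 (.node 0 (.node 0 (.node 0 (.node 0 (.node 0 (.node 0 (.node 0 (.leaf (12500) .nil)
    .nil) .nil) .nil) .nil) .nil) .nil) .nil) .nil) .nil))))))))
  tD := .node 7 (.leaf (897536247) .nil) (.node 6 (.node 0 (.leaf (-53468546) .nil) .nil) (.node 5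
    (.node 1 (.leaf (-3600142806) .nil) (.node 0 (.node 0 (.leaf (241437172) .nil) .nil) .nil))
    (.node 4 (.node 2 (.leaf (1610675201) .nil) (.node 1 (.node 0 (.leaf (-130882868) .nil) .nil)
    (.node 0 (.node 0 (.node 0 (.leaf (-16449999) .nil) .nil) .nil) .nil))) (.node 3 (.node 3 (.leaf
    (-36585980) .nil) (.node 2 (.node 0 (.leaf (-781124282) .nil) .nil) (.node 1 (.node 1 (.leaf
    (-652455589) .nil) (.node 0 (.node 0 (.leaf (243732277) .nil) .nil) .nil)) (.node 0 (.node 0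
    (.node 0 (.node 0 (.leaf (-10412499) .nil) .nil) .nil) .nil) .nil)))) (.node 2 (.node 2 (.node 1
    (.leaf (4174410211) .nil) (.node 0 (.node 0 (.leaf (-47969916) .nil) .nil) .nil)) (.node 1
    (.node 1 (.node 0 (.leaf (-586939466) .nil) .nil) (.node 0 (.node 0 (.node 0 (.leaf (50162442)
    .nil) .nil) .nil) .nil)) (.node 0 (.node 0 (.node 0 (.node 0 (.node 0 (.leaf (-1574998) .nil)
    .nil) .nil) .nil) .nil) .nil))) (.node 1 (.node 1 (.node 1 (.node 1 (.leaf (194837803) .nil)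
    (.node 0 (.node 0 (.leaf (-45394460) .nil) .nil) .nil)) (.node 0 (.node 0 (.node 0 (.node 0
    (.leaf (2493324) .nil) .nil) .nil) .nil) .nil)) (.node 0 (.node 0 (.node 0 (.node 0 (.node 0
    (.node 0 (.leaf (-87498) .nil) .nil) .nil) .nil) .nil) .nil) .nil)) (.node 0 (.node 0 (.node 0
    (.node 0 (.node 0 (.node 0 (.node 0 (.node 0 (.leaf (-87500) .nil) .nil) .nil) .nil) .nil) .nil)
    .nil) .nil) .nil)))))))
  o1 := 0
  o2 := 0

theorem c7T2_ok : c7T2.ok = true := by decide +kernel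
theorem c7T2_W : c7T2.W = true := by decide +kernel
theorem c7T2_U : c7T2.U = true := by decide +kernel
theorem c7T2_f : c7T2.fin2 (28 : ℕ) (1 : ℕ) = true := by decide +kernel


end Pool.Agent.Lib.MP_a6e91d_co
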