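import Pool.Agent.Lib.MP_a6e91d_co.LP

set_option autoImplicit false
set_option maxRecDepth 100000

namespace Pool.Agent.Lib.MP_a6e91d_co

def c8T2 : Cert where
  s := 8
  b := 18
  den := 900000
  tT := .node 0 (.node 0 (.node 0 (.node 0 (.node 0 (.node 0 (.node 0 (.node 0 (.node 0 (.leaf (900000)
    .nil) .nil) .nil) .nil) .nil) .nil) .nil) .nil) .nil) .nil
  tC := .node 9 (.leaf (144466870886) .nil) (.node 8 (.node 0 (.leaf (27375104192) .nil) .nil) (.node 7
    (.node 1 (.leaf (1387797465045) .nil) (.node 0 (.node 0 (.leaf (-12654241222) .nil) .nil) .nil))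
    (.node 6 (.node 2 (.leaf (1282014316275) .nil) (.node 1 (.node 0 (.leaf (-6806858514) .nil)
    .nil) (.node 0 (.node 0 (.node 0 (.leaf (-498563527) .nil) .nil) .nil) .nil))) (.node 5 (.node 3
    (.leaf (-127207716662) .nil) (.node 2 (.node 0 (.leaf (405264530574) .nil) .nil) (.node 1 (.node
    1 (.leaf (94800446301) .nil) (.node 0 (.node 0 (.leaf (-5982441578) .nil) .nil) .nil)) (.node 0
    (.node 0 (.node 0 (.node 0 (.leaf (99934881) .nil) .nil) .nil) .nil) .nil)))) (.node 4 (.node 4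
    (.leaf (183228036762) .nil) (.node 3 (.node 0 (.leaf (296094235407) .nil) .nil) (.node 2 (.node
    1 (.leaf (428502360170) .nil) (.node 0 (.node 0 (.leaf (-11114140524) .nil) .nil) .nil)) (.node
    1 (.node 1 (.node 0 (.leaf (57511231376) .nil) .nil) (.node 0 (.node 0 (.node 0 (.leaf
    (-4423862583) .nil) .nil) .nil) .nil)) (.node 0 (.node 0 (.node 0 (.node 0 (.node 0 (.leaf
    (162413667) .nil) .nil) .nil) .nil) .nil) .nil))))) (.node 3 (.node 3 (.node 1 (.leaf
    (329556907482) .nil) (.node 0 (.node 0 (.leaf (-5624386069) .nil) .nil) .nil)) (.node 2 (.node 2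
    (.leaf (-389370515206) .nil) (.node 1 (.node 0 (.leaf (137075443350) .nil) .nil) (.node 0 (.node
    0 (.node 0 (.leaf (-4314961757) .nil) .nil) .nil) .nil))) (.node 1 (.node 1 (.node 1 (.leaf
    (-231643670499) .nil) (.node 0 (.node 0 (.leaf (29841541942) .nil) .nil) .nil)) (.node 0 (.node
    0 (.node 0 (.node 0 (.leaf (-1703981157) .nil) .nil) .nil) .nil) .nil)) (.node 0 (.node 0 (.node
    0 (.node 0 (.node 0 (.node 0 (.leaf (60800001) .nil) .nil) .nil) .nil) .nil) .nil) .nil))))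
    (.node 2 (.node 2 (.node 2 (.node 0 (.leaf (75546138136) .nil) .nil) (.node 1 (.node 1 (.leaf
    (140573457939) .nil) (.node 0 (.node 0 (.leaf (17152737808) .nil) .nil) .nil)) (.node 0 (.node 0
    (.node 0 (.node 0 (.leaf (-656662928) .nil) .nil) .nil) .nil) .nil))) (.node 1 (.node 1 (.node 1
    (.node 0 (.leaf (-113912599998) .nil) .nil) (.node 0 (.node 0 (.node 0 (.leaf (7190400001) .nil)
    .nil) .nil) .nil)) (.node 0 (.node 0 (.node 0 (.node 0 (.node 0 (.leaf (-289599998) .nil) .nil)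
    .nil) .nil) .nil) .nil)) (.node 0 (.node 0 (.node 0 (.node 0 (.node 0 (.node 0 (.node 0 (.leaf
    (12000002) .nil) .nil) .nil) .nil) .nil) .nil) .nil) .nil))) (.node 1 (.node 1 (.node 1 (.node 1
    (.node 1 (.leaf (88070400001) .nil) (.node 0 (.node 0 (.leaf (-4611199998) .nil) .nil) .nil))
    (.node 0 (.node 0 (.node 0 (.node 0 (.leaf (228800001) .nil) .nil) .nil) .nil) .nil)) (.node 0
    (.node 0 (.node 0 (.node 0 (.node 0 (.node 0 (.leaf (-11999999) .nil) .nil) .nil) .nil) .nil)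
    .nil) .nil)) (.node 0 (.node 0 (.node 0 (.node 0 (.node 0 (.node 0 (.node 0 (.node 0 (.leaf
    (1700000) .nil) .nil) .nil) .nil) .nil) .nil) .nil) .nil) .nil)) (.node 0 (.node 0 (.node 0
    (.node 0 (.node 0 (.node 0 (.node 0 (.node 0 (.node 0 (.node 0 (.leaf (100000) .nil) .nil) .nil)
    .nil) .nil) .nil) .nil) .nil) .nil) .nil) .nil)))))))))
  tD := .node 8 (.leaf (480302326073) .nil) (.node 7 (.node 0 (.leaf (89836873475) .nil) .nil) (.node 6
    (.node 1 (.leaf (1102717741264) .nil) (.node 0 (.node 0 (.leaf (-14870867266) .nil) .nil) .nil))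
    (.node 5 (.node 2 (.leaf (-2586446724959) .nil) (.node 1 (.node 0 (.leaf (41874037405) .nil)
    .nil) (.node 0 (.node 0 (.node 0 (.leaf (-761308936) .nil) .nil) .nil) .nil))) (.node 4 (.node 3
    (.leaf (1412030005937) .nil) (.node 2 (.node 0 (.leaf (153210698519) .nil) .nil) (.node 1 (.node
    1 (.leaf (-293239041793) .nil) (.node 0 (.node 0 (.leaf (22879656945) .nil) .nil) .nil)) (.node
    0 (.node 0 (.node 0 (.node 0 (.leaf (-528401075) .nil) .nil) .nil) .nil) .nil)))) (.node 3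
    (.node 3 (.node 0 (.leaf (91054659026) .nil) .nil) (.node 2 (.node 1 (.leaf (-567789045182)
    .nil) (.node 0 (.node 0 (.leaf (10943913809) .nil) .nil) .nil)) (.node 1 (.node 1 (.node 0
    (.leaf (-100315775336) .nil) .nil) (.node 0 (.node 0 (.node 0 (.leaf (5851005297) .nil) .nil)
    .nil) .nil)) (.node 0 (.node 0 (.node 0 (.node 0 (.node 0 (.leaf (-138448624) .nil) .nil) .nil)
    .nil) .nil) .nil)))) (.node 2 (.node 2 (.node 2 (.leaf (-195468016204) .nil) (.node 1 (.node 0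
    (.leaf (-51339840417) .nil) .nil) (.node 0 (.node 0 (.node 0 (.leaf (1480509473) .nil) .nil)
    .nil) .nil))) (.node 1 (.node 1 (.node 1 (.leaf (722231892420) .nil) (.node 0 (.node 0 (.leaf
    (-37113781707) .nil) .nil) .nil)) (.node 0 (.node 0 (.node 0 (.node 0 (.leaf (980100625) .nil)
    .nil) .nil) .nil) .nil)) (.node 0 (.node 0 (.node 0 (.node 0 (.node 0 (.node 0 (.leaf
    (-17551373) .nil) .nil) .nil) .nil) .nil) .nil) .nil))) (.node 1 (.node 1 (.node 1 (.node 1
    (.node 0 (.leaf (2538430960) .nil) .nil) (.node 0 (.node 0 (.node 0 (.leaf (-299603440) .nil)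
    .nil) .nil) .nil)) (.node 0 (.node 0 (.node 0 (.node 0 (.node 0 (.leaf (18280764) .nil) .nil)
    .nil) .nil) .nil) .nil)) (.node 0 (.node 0 (.node 0 (.node 0 (.node 0 (.node 0 (.node 0 (.leaf
    (-706077) .nil) .nil) .nil) .nil) .nil) .nil) .nil) .nil)) (.node 0 (.node 0 (.node 0 (.node 0
    (.node 0 (.node 0 (.node 0 (.node 0 (.node 0 (.leaf (-800000) .nil) .nil) .nil) .nil) .nil)
    .nil) .nil) .nil) .nil) .nil))))))))
  o1 := 0
  o2 := 0

theorem c8T2_ok : c8T2.ok = true := by decide +kernel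
theorem c8T2_W : c8T2.W = true := by decide +kernel
theorem c8T2_U : c8T2.U = true := by decide +kernel
theorem c8T2_f : c8T2.fin2 (36 : ℕ) (1 : ℕ) = true := by decide +kernel

def c8T3 : Cert where
  s := 8
  b := 18
  den := 900000
  tT := .node 1 (.node 0 (.node 0 (.node 0 (.node 0 (.node 0 (.node 0 (.node 0 (.leaf (900000) .nil)
    .nil) .nil) .nil) .nil) .nil) .nil) .nil) .nil
  tC := .node 9 (.leaf (9983678339) .nil) (.node 8 (.node 0 (.leaf (-332735666) .nil) .nil) (.node 7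
    (.node 1 (.leaf (24518315435) .nil) (.node 0 (.node 0 (.leaf (-531199998) .nil) .nil) .nil))
    (.node 6 (.node 2 (.leaf (32374088299) .nil) (.node 1 (.node 0 (.leaf (-255507387) .nil) .nil)
    (.node 0 (.node 0 (.node 0 (.leaf (-6399998) .nil) .nil) .nil) .nil))) (.node 5 (.node 3 (.leaf
    (34867115435) .nil) (.node 2 (.node 0 (.leaf (2752084568) .nil) .nil) (.node 1 (.node 1 (.leaf
    (24576669592) .nil) (.node 0 (.node 0 (.leaf (-980810569) .nil) .nil) .nil)) (.node 0 (.node 0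
    (.node 0 (.node 0 (.leaf (17600002) .nil) .nil) .nil) .nil) .nil)))) (.node 4 (.node 4 (.leaf
    (13903968289) .nil) (.node 3 (.node 0 (.leaf (1088000002) .nil) .nil) (.node 2 (.node 1 (.leaf
    (21845775312) .nil) (.node 0 (.node 0 (.leaf (-886399998) .nil) .nil) .nil)) (.node 1 (.node 1
    (.node 0 (.leaf (684376241) .nil) .nil) (.node 0 (.node 0 (.node 0 (.leaf (-9599999) .nil) .nil)
    .nil) .nil)) (.node 0 (.node 0 (.node 0 (.node 0 (.node 0 (.leaf (4800002) .nil) .nil) .nil)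
    .nil) .nil) .nil))))) (.node 3 (.node 3 (.node 1 (.leaf (9084744528) .nil) (.node 0 (.node 0
    (.leaf (-503999999) .nil) .nil) .nil)) (.node 2 (.node 2 (.leaf (21146438443) .nil) (.node 1
    (.node 0 (.leaf (5527097932) .nil) .nil) (.node 0 (.node 0 (.node 0 (.leaf (-246399998) .nil)
    .nil) .nil) .nil))) (.node 1 (.node 1 (.node 1 (.leaf (5123174172) .nil) (.node 0 (.node 0
    (.leaf (-708531594) .nil) .nil) .nil)) (.node 0 (.node 0 (.node 0 (.node 0 (.leaf (36000001)
    .nil) .nil) .nil) .nil) .nil)) (.node 0 (.node 0 (.node 0 (.node 0 (.node 0 (.node 0 (.leaf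
    (800002) .nil) .nil) .nil) .nil) .nil) .nil) .nil)))) (.node 2 (.node 2 (.node 2 (.node 0 (.leaf
    (872540446) .nil) .nil) (.node 1 (.node 1 (.leaf (3150656532) .nil) (.node 0 (.node 0 (.leaf
    (190529180) .nil) .nil) .nil)) (.node 0 (.node 0 (.node 0 (.node 0 (.leaf (-15199999) .nil)
    .nil) .nil) .nil) .nil))) (.node 1 (.node 1 (.node 1 (.node 0 (.leaf (1755508620) .nil) .nil)
    (.node 0 (.node 0 (.node 0 (.leaf (-165565490) .nil) .nil) .nil) .nil)) (.node 0 (.node 0 (.node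
    0 (.node 0 (.node 0 (.leaf (9600001) .nil) .nil) .nil) .nil) .nil) .nil)) (.node 0 (.node 0
    (.node 0 (.node 0 (.node 0 (.node 0 (.node 0 (.leaf (100000) .nil) .nil) .nil) .nil) .nil) .nil)
    .nil) .nil))) (.node 1 (.node 1 (.node 1 (.node 1 (.node 1 (.leaf (-351466051) .nil) (.node 0
    (.node 0 (.leaf (112708862) .nil) .nil) .nil)) (.node 0 (.node 0 (.node 0 (.node 0 (.leaf
    (-9680781) .nil) .nil) .nil) .nil) .nil)) (.node 0 (.node 0 (.node 0 (.node 0 (.node 0 (.node 0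
    (.leaf (1500000) .nil) .nil) .nil) .nil) .nil) .nil) .nil)) (.node 0 (.node 0 (.node 0 (.node 0
    (.node 0 (.node 0 (.node 0 (.node 0 (.leaf (100000) .nil) .nil) .nil) .nil) .nil) .nil) .nil)
    .nil) .nil)) .nil))))))))
  tD := .node 8 (.leaf (-2637314659) .nil) (.node 7 (.node 0 (.leaf (2656000001) .nil) .nil) (.node 6
    (.node 1 (.leaf (-4356059565) .nil) (.node 0 (.node 0 (.leaf (25600002) .nil) .nil) .nil))
    (.node 5 (.node 2 (.leaf (-11009344663) .nil) (.node 1 (.node 0 (.leaf (3191754527) .nil) .nil)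
    (.node 0 (.node 0 (.node 0 (.leaf (-52799999) .nil) .nil) .nil) .nil))) (.node 4 (.node 3 (.leaf
    (-8471954107) .nil) (.node 2 (.node 0 (.leaf (2815311442) .nil) .nil) (.node 1 (.node 1 (.leaf
    (-10394336309) .nil) (.node 0 (.node 0 (.leaf (236663416) .nil) .nil) .nil)) (.node 0 (.node 0
    (.node 0 (.node 0 (.leaf (-9599999) .nil) .nil) .nil) .nil) .nil)))) (.node 3 (.node 3 (.node 0
    (.leaf (1660991592) .nil) .nil) (.node 2 (.node 1 (.leaf (-15815998755) .nil) (.node 0 (.node 0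
    (.leaf (906311677) .nil) .nil) .nil)) (.node 1 (.node 1 (.node 0 (.leaf (1713235789) .nil) .nil)
    (.node 0 (.node 0 (.node 0 (.leaf (-79951752) .nil) .nil) .nil) .nil)) (.node 0 (.node 0 (.node
    0 (.node 0 (.node 0 (.leaf (-799999) .nil) .nil) .nil) .nil) .nil) .nil)))) (.node 2 (.node 2
    (.node 2 (.leaf (4311493218) .nil) (.node 1 (.node 0 (.leaf (-1758211097) .nil) .nil) (.node 0
    (.node 0 (.node 0 (.leaf (40217112) .nil) .nil) .nil) .nil))) (.node 1 (.node 1 (.node 1 (.leaf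
    (-1919193720) .nil) (.node 0 (.node 0 (.leaf (384517169) .nil) .nil) .nil)) (.node 0 (.node 0
    (.node 0 (.node 0 (.leaf (-13648245) .nil) .nil) .nil) .nil) .nil)) .nil)) (.node 1 (.node 1
    (.node 1 (.node 1 (.node 0 (.leaf (-134262531) .nil) .nil) (.node 0 (.node 0 (.node 0 (.leaf
    (19556781) .nil) .nil) .nil) .nil)) (.node 0 (.node 0 (.node 0 (.node 0 (.node 0 (.leaf
    (-796983) .nil) .nil) .nil) .nil) .nil) .nil)) (.node 0 (.node 0 (.node 0 (.node 0 (.node 0
    (.node 0 (.node 0 (.leaf (-800000) .nil) .nil) .nil) .nil) .nil) .nil) .nil) .nil)) .nil)))))))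
  o1 := 0
  o2 := 0

theorem c8T3_ok : c8T3.ok = true := by decide +kernel
theorem c8T3_W : c8T3.W = true := by decide +kernel
theorem c8T3_U : c8T3.U = true := by decide +kernel
theorem c8T3_f : c8T3.fin3 (40 : ℕ) (1 : ℕ) = true := by decide +kernel


end Pool.Agent.Lib.MP_a6e91d_co
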