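import Pool.Agent.Lib.MP_a6e91d_co.LP

set_option autoImplicit false
set_option maxRecDepth 100000

namespace Pool.Agent.Lib.MP_a6e91d_co

def c9T2 : Cert where
  s := 9
  b := 20
  den := 100000
  tT := .node 0 (.node 0 (.node 0 (.node 0 (.node 0 (.node 0 (.node 0 (.node 0 (.node 0 (.node 0 (.leaf
    (100000) .nil) .nil) .nil) .nil) .nil) .nil) .nil) .nil) .nil) .nil) .nil
  tC := .node 10 (.leaf (661326728578) .nil) (.node 9 (.node 0 (.leaf (15968199321) .nil) .nil) (.node 8
    (.node 1 (.leaf (1175653079080) .nil) (.node 0 (.node 0 (.leaf (-5554997432) .nil) .nil) .nil))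
    (.node 7 (.node 2 (.leaf (35868218270) .nil) (.node 1 (.node 0 (.leaf (33667467612) .nil) .nil)
    (.node 0 (.node 0 (.node 0 (.leaf (-1350409378) .nil) .nil) .nil) .nil))) (.node 6 (.node 3
    (.leaf (830752772450) .nil) (.node 2 (.node 0 (.leaf (447807920750) .nil) .nil) (.node 1 (.node
    1 (.leaf (-562014662740) .nil) (.node 0 (.node 0 (.leaf (30831589081) .nil) .nil) .nil)) (.node
    0 (.node 0 (.node 0 (.node 0 (.leaf (-584595415) .nil) .nil) .nil) .nil) .nil)))) (.node 5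
    (.node 4 (.leaf (3254315215465) .nil) (.node 3 (.node 0 (.leaf (134417960698) .nil) .nil) (.node
    2 (.node 1 (.leaf (-1358201746476) .nil) (.node 0 (.node 0 (.leaf (92086631698) .nil) .nil)
    .nil)) (.node 1 (.node 1 (.node 0 (.leaf (-20788995777) .nil) .nil) (.node 0 (.node 0 (.node 0
    (.leaf (612633261) .nil) .nil) .nil) .nil)) (.node 0 (.node 0 (.node 0 (.node 0 (.node 0 (.leaf
    (8235195) .nil) .nil) .nil) .nil) .nil) .nil))))) (.node 4 (.node 4 (.node 0 (.leaf
    (165825438986) .nil) .nil) (.node 3 (.node 1 (.leaf (-1538847235271) .nil) (.node 0 (.node 0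
    (.leaf (28287879800) .nil) .nil) .nil)) (.node 2 (.node 2 (.leaf (69532260908) .nil) (.node 1
    (.node 0 (.leaf (-9428265434) .nil) .nil) (.node 0 (.node 0 (.node 0 (.leaf (-1594474868) .nil)
    .nil) .nil) .nil))) (.node 1 (.node 1 (.node 1 (.leaf (431392727129) .nil) (.node 0 (.node 0
    (.leaf (3134273535) .nil) .nil) .nil)) (.node 0 (.node 0 (.node 0 (.node 0 (.leaf (-979423814)
    .nil) .nil) .nil) .nil) .nil)) (.node 0 (.node 0 (.node 0 (.node 0 (.node 0 (.node 0 (.leaf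
    (33210001) .nil) .nil) .nil) .nil) .nil) .nil) .nil))))) (.node 3 (.node 3 (.node 2 (.leaf
    (160112803266) .nil) (.node 1 (.node 0 (.leaf (22344357316) .nil) .nil) (.node 0 (.node 0 (.node
    0 (.leaf (-689341761) .nil) .nil) .nil) .nil))) (.node 2 (.node 2 (.node 0 (.leaf (6239514158)
    .nil) .nil) (.node 1 (.node 1 (.leaf (508567552369) .nil) (.node 0 (.node 0 (.leaf (31216613634)
    .nil) .nil) .nil)) (.node 0 (.node 0 (.node 0 (.node 0 (.leaf (-1165468245) .nil) .nil) .nil)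
    .nil) .nil))) (.node 1 (.node 1 (.node 1 (.node 0 (.leaf (-116534574851) .nil) .nil) (.node 0
    (.node 0 (.node 0 (.leaf (8200161933) .nil) .nil) .nil) .nil)) (.node 0 (.node 0 (.node 0 (.node
    0 (.node 0 (.leaf (-324683006) .nil) .nil) .nil) .nil) .nil) .nil)) (.node 0 (.node 0 (.node 0
    (.node 0 (.node 0 (.node 0 (.node 0 (.leaf (9270001) .nil) .nil) .nil) .nil) .nil) .nil) .nil)
    .nil)))) (.node 2 (.node 2 (.node 2 (.node 1 (.leaf (155972966791) .nil) (.node 0 (.node 0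
    (.leaf (13462200001) .nil) .nil) .nil)) (.node 1 (.node 1 (.node 0 (.leaf (-200334401800) .nil)
    .nil) (.node 0 (.node 0 (.node 0 (.leaf (9736200001) .nil) .nil) .nil) .nil)) (.node 0 (.node 0
    (.node 0 (.node 0 (.node 0 (.leaf (-172259999) .nil) .nil) .nil) .nil) .nil) .nil))) (.node 1
    (.node 1 (.node 1 (.node 1 (.leaf (400930403320) .nil) (.node 0 (.node 0 (.leaf (-29276442597)
    .nil) .nil) .nil)) (.node 0 (.node 0 (.node 0 (.node 0 (.leaf (1273590002) .nil) .nil) .nil)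
    .nil) .nil)) (.node 0 (.node 0 (.node 0 (.node 0 (.node 0 (.node 0 (.leaf (-43019999) .nil)
    .nil) .nil) .nil) .nil) .nil) .nil)) (.node 0 (.node 0 (.node 0 (.node 0 (.node 0 (.node 0
    (.node 0 (.node 0 (.leaf (1530001) .nil) .nil) .nil) .nil) .nil) .nil) .nil) .nil) .nil)))
    (.node 1 (.node 1 (.node 1 (.node 1 (.node 1 (.node 0 (.leaf (10448359324) .nil) .nil) (.node 0
    (.node 0 (.node 0 (.leaf (-720898982) .nil) .nil) .nil) .nil)) (.node 0 (.node 0 (.node 0 (.node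
    0 (.node 0 (.leaf (33750002) .nil) .nil) .nil) .nil) .nil) .nil)) (.node 0 (.node 0 (.node 0
    (.node 0 (.node 0 (.node 0 (.node 0 (.leaf (-1529999) .nil) .nil) .nil) .nil) .nil) .nil) .nil)
    .nil)) (.node 0 (.node 0 (.node 0 (.node 0 (.node 0 (.node 0 (.node 0 (.node 0 (.node 0 (.leaf
    (190000) .nil) .nil) .nil) .nil) .nil) .nil) .nil) .nil) .nil) .nil)) (.node 0 (.node 0 (.node 0
    (.node 0 (.node 0 (.node 0 (.node 0 (.node 0 (.node 0 (.node 0 (.node 0 (.leaf (10000) .nil)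
    .nil) .nil) .nil) .nil) .nil) .nil) .nil) .nil) .nil) .nil) .nil))))))))))
  tD := .node 9 (.leaf (1236747192112) .nil) (.node 8 (.node 0 (.leaf (174631693746) .nil) .nil) (.node
    7 (.node 1 (.leaf (90767764867) .nil) (.node 0 (.node 0 (.leaf (634682864) .nil) .nil) .nil))
    (.node 6 (.node 2 (.leaf (436813230959) .nil) (.node 1 (.node 0 (.leaf (-6176260260) .nil) .nil)
    (.node 0 (.node 0 (.node 0 (.leaf (542975492) .nil) .nil) .nil) .nil))) (.node 5 (.node 3 (.leaf
    (1119978817291) .nil) (.node 2 (.node 0 (.leaf (-126506975517) .nil) .nil) (.node 1 (.node 1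
    (.leaf (-564957094108) .nil) (.node 0 (.node 0 (.leaf (19058696654) .nil) .nil) .nil)) (.node 0
    (.node 0 (.node 0 (.node 0 (.leaf (-215056741) .nil) .nil) .nil) .nil) .nil)))) (.node 4 (.node
    4 (.leaf (238047159682) .nil) (.node 3 (.node 0 (.leaf (151712274214) .nil) .nil) (.node 2
    (.node 1 (.leaf (-482958309531) .nil) (.node 0 (.node 0 (.leaf (17952278338) .nil) .nil) .nil))
    (.node 1 (.node 1 (.node 0 (.leaf (-9000331600) .nil) .nil) (.node 0 (.node 0 (.node 0 (.leaf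
    (3798378497) .nil) .nil) .nil) .nil)) (.node 0 (.node 0 (.node 0 (.node 0 (.node 0 (.leaf
    (-103139998) .nil) .nil) .nil) .nil) .nil) .nil))))) (.node 3 (.node 3 (.node 1 (.leaf
    (-389911974222) .nil) (.node 0 (.node 0 (.leaf (6780172143) .nil) .nil) .nil)) (.node 2 (.node 2
    (.leaf (-77478113849) .nil) (.node 1 (.node 0 (.leaf (-96816848735) .nil) .nil) (.node 0 (.node
    0 (.node 0 (.leaf (3746567150) .nil) .nil) .nil) .nil))) (.node 1 (.node 1 (.node 1 (.leaf
    (537308247006) .nil) (.node 0 (.node 0 (.leaf (-37709927092) .nil) .nil) .nil)) (.node 0 (.node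
    0 (.node 0 (.node 0 (.leaf (1186047073) .nil) .nil) .nil) .nil) .nil)) (.node 0 (.node 0 (.node
    0 (.node 0 (.node 0 (.node 0 (.leaf (-21509999) .nil) .nil) .nil) .nil) .nil) .nil) .nil))))
    (.node 2 (.node 2 (.node 2 (.node 0 (.leaf (-86929062758) .nil) .nil) (.node 1 (.node 1 (.leaf
    (1133260382552) .nil) (.node 0 (.node 0 (.leaf (-48133658341) .nil) .nil) .nil)) (.node 0 (.node
    0 (.node 0 (.node 0 (.leaf (650700002) .nil) .nil) .nil) .nil) .nil))) (.node 1 (.node 1 (.node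
    1 (.node 0 (.leaf (120805544545) .nil) .nil) (.node 0 (.node 0 (.node 0 (.leaf (-5436055270)
    .nil) .nil) .nil) .nil)) (.node 0 (.node 0 (.node 0 (.node 0 (.node 0 (.leaf (130680002) .nil)
    .nil) .nil) .nil) .nil) .nil)) (.node 0 (.node 0 (.node 0 (.node 0 (.node 0 (.node 0 (.node 0
    (.leaf (-2159998) .nil) .nil) .nil) .nil) .nil) .nil) .nil) .nil))) (.node 1 (.node 1 (.node 1
    (.node 1 (.node 1 (.leaf (-56636010652) .nil) (.node 0 (.node 0 (.leaf (3757084941) .nil) .nil)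
    .nil)) (.node 0 (.node 0 (.node 0 (.node 0 (.leaf (-133649999) .nil) .nil) .nil) .nil) .nil))
    (.node 0 (.node 0 (.node 0 (.node 0 (.node 0 (.node 0 (.leaf (3690001) .nil) .nil) .nil) .nil)
    .nil) .nil) .nil)) (.node 0 (.node 0 (.node 0 (.node 0 (.node 0 (.node 0 (.node 0 (.node 0
    (.leaf (-89999) .nil) .nil) .nil) .nil) .nil) .nil) .nil) .nil) .nil)) (.node 0 (.node 0 (.node
    0 (.node 0 (.node 0 (.node 0 (.node 0 (.node 0 (.node 0 (.node 0 (.leaf (-90000) .nil) .nil)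
    .nil) .nil) .nil) .nil) .nil) .nil) .nil) .nil) .nil)))))))))
  o1 := 0
  o2 := 0

theorem c9T2_ok : c9T2.ok = true := by decide +kernel
theorem c9T2_W : c9T2.W = true := by decide +kernel
theorem c9T2_U : c9T2.U = true := by decide +kernel
theorem c9T2_f : c9T2.fin2 (45 : ℕ) (1 : ℕ) = true := by decide +kernel


end Pool.Agent.Lib.MP_a6e91d_co
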