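import Pool.Agent.Lib.MP_a6e91d_co.LP

set_option autoImplicit false
set_option maxRecDepth 100000

namespace Pool.Agent.Lib.MP_a6e91d_co

def c10T3 : Cert where
  s := 10
  b := 22
  den := 1100000
  tT := .node 1 (.node 0 (.node 0 (.node 0 (.node 0 (.node 0 (.node 0 (.node 0 (.node 0 (.node 0 (.leaf
    (1100000) .nil) .nil) .nil) .nil) .nil) .nil) .nil) .nil) .nil) .nil) .nil
  tC := .node 11 (.leaf (21811827771992) .nil) (.node 10 (.node 0 (.leaf (337143951746) .nil) .nil)
    (.node 9 (.node 1 (.leaf (2701056414496) .nil) (.node 0 (.node 0 (.leaf (-60919999999) .nil)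
    .nil) .nil)) (.node 8 (.node 2 (.leaf (12731378388208) .nil) (.node 1 (.node 0 (.leaf
    (474742499872) .nil) .nil) (.node 0 (.node 0 (.node 0 (.leaf (-13599999998) .nil) .nil) .nil)
    .nil))) (.node 7 (.node 3 (.leaf (10261906434897) .nil) (.node 2 (.node 0 (.leaf (1120646593180)
    .nil) .nil) (.node 1 (.node 1 (.leaf (2352699975885) .nil) (.node 0 (.node 0 (.leaf
    (-19402541238) .nil) .nil) .nil)) (.node 0 (.node 0 (.node 0 (.node 0 (.leaf (-979999998) .nil)
    .nil) .nil) .nil) .nil)))) (.node 6 (.node 4 (.leaf (12282284375732) .nil) (.node 3 (.node 0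
    (.leaf (497942846556) .nil) .nil) (.node 2 (.node 1 (.leaf (961228122864) .nil) (.node 0 (.node
    0 (.leaf (102496032926) .nil) .nil) .nil)) (.node 1 (.node 1 (.node 0 (.leaf (495202752785)
    .nil) .nil) (.node 0 (.node 0 (.node 0 (.leaf (-13539736512) .nil) .nil) .nil) .nil)) (.node 0
    (.node 0 (.node 0 (.node 0 (.node 0 (.leaf (116000001) .nil) .nil) .nil) .nil) .nil) .nil)))))
    (.node 5 (.node 5 (.leaf (27142603572622) .nil) (.node 4 (.node 0 (.leaf (246151534422) .nil)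
    .nil) (.node 3 (.node 1 (.leaf (11905277889669) .nil) (.node 0 (.node 0 (.leaf (-67084425482)
    .nil) .nil) .nil)) (.node 2 (.node 2 (.leaf (-416830803583) .nil) (.node 1 (.node 0 (.leaf
    (1877613551483) .nil) .nil) (.node 0 (.node 0 (.node 0 (.leaf (-13554512434) .nil) .nil) .nil)
    .nil))) (.node 1 (.node 1 (.node 1 (.leaf (-2473528443375) .nil) (.node 0 (.node 0 (.leaf
    (136764559883) .nil) .nil) .nil)) (.node 0 (.node 0 (.node 0 (.node 0 (.leaf (-1863912783) .nil)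
    .nil) .nil) .nil) .nil)) (.node 0 (.node 0 (.node 0 (.node 0 (.node 0 (.node 0 (.leaf (46000002)
    .nil) .nil) .nil) .nil) .nil) .nil) .nil)))))) (.node 4 (.node 4 (.node 1 (.leaf (9319135196431)
    .nil) (.node 0 (.node 0 (.leaf (-57307040319) .nil) .nil) .nil)) (.node 3 (.node 2 (.leaf
    (2388876619646) .nil) (.node 1 (.node 0 (.leaf (-224119345748) .nil) .nil) (.node 0 (.node 0
    (.node 0 (.leaf (3347978465) .nil) .nil) .nil) .nil))) (.node 2 (.node 2 (.node 0 (.leaf
    (442178907131) .nil) .nil) (.node 1 (.node 1 (.leaf (-3079464854923) .nil) (.node 0 (.node 0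
    (.leaf (107543653209) .nil) .nil) .nil)) (.node 0 (.node 0 (.node 0 (.node 0 (.leaf
    (-3051835971) .nil) .nil) .nil) .nil) .nil))) (.node 1 (.node 1 (.node 1 (.node 0 (.leaf
    (194285510206) .nil) .nil) (.node 0 (.node 0 (.node 0 (.leaf (-10663897958) .nil) .nil) .nil)
    .nil)) (.node 0 (.node 0 (.node 0 (.node 0 (.node 0 (.leaf (238000002) .nil) .nil) .nil) .nil)
    .nil) .nil)) (.node 0 (.node 0 (.node 0 (.node 0 (.node 0 (.node 0 (.node 0 (.leaf (8000001)
    .nil) .nil) .nil) .nil) .nil) .nil) .nil) .nil))))) (.node 3 (.node 3 (.node 3 (.leaf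
    (1539576760473) .nil) (.node 2 (.node 0 (.leaf (557650316571) .nil) .nil) (.node 1 (.node 1
    (.leaf (1522308610190) .nil) (.node 0 (.node 0 (.leaf (9200072082) .nil) .nil) .nil)) (.node 0
    (.node 0 (.node 0 (.node 0 (.leaf (-1384691299) .nil) .nil) .nil) .nil) .nil)))) (.node 2 (.node
    2 (.node 1 (.leaf (-1177593420820) .nil) (.node 0 (.node 0 (.leaf (201830865201) .nil) .nil)
    .nil)) (.node 1 (.node 1 (.node 0 (.leaf (204200347656) .nil) .nil) (.node 0 (.node 0 (.node 0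
    (.leaf (8715244832) .nil) .nil) .nil) .nil)) (.node 0 (.node 0 (.node 0 (.node 0 (.node 0 (.leaf
    (-573999999) .nil) .nil) .nil) .nil) .nil) .nil))) (.node 1 (.node 1 (.node 1 (.node 1 (.leaf
    (-1103656224488) .nil) (.node 0 (.node 0 (.leaf (86111326532) .nil) .nil) .nil)) (.node 0 (.node
    0 (.node 0 (.node 0 (.leaf (-3496810203) .nil) .nil) .nil) .nil) .nil)) (.node 0 (.node 0 (.node
    0 (.node 0 (.node 0 (.node 0 (.leaf (93000002) .nil) .nil) .nil) .nil) .nil) .nil) .nil)) (.node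
    0 (.node 0 (.node 0 (.node 0 (.node 0 (.node 0 (.node 0 (.node 0 (.leaf (1000002) .nil) .nil)
    .nil) .nil) .nil) .nil) .nil) .nil) .nil)))) (.node 2 (.node 2 (.node 2 (.node 2 (.leaf
    (-334621158312) .nil) (.node 1 (.node 0 (.leaf (-199615732521) .nil) .nil) (.node 0 (.node 0
    (.node 0 (.leaf (7124534956) .nil) .nil) .nil) .nil))) (.node 1 (.node 1 (.node 1 (.leaf
    (961199562312) .nil) (.node 0 (.node 0 (.leaf (38324954409) .nil) .nil) .nil)) (.node 0 (.node 0
    (.node 0 (.node 0 (.leaf (-510853494) .nil) .nil) .nil) .nil) .nil)) (.node 0 (.node 0 (.node 0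
    (.node 0 (.node 0 (.node 0 (.leaf (-24999998) .nil) .nil) .nil) .nil) .nil) .nil) .nil))) (.node
    1 (.node 1 (.node 1 (.node 1 (.node 0 (.leaf (-307475999999) .nil) .nil) (.node 0 (.node 0
    (.node 0 (.leaf (14360000001) .nil) .nil) .nil) .nil)) (.node 0 (.node 0 (.node 0 (.node 0
    (.node 0 (.leaf (-465999999) .nil) .nil) .nil) .nil) .nil) .nil)) (.node 0 (.node 0 (.node 0
    (.node 0 (.node 0 (.node 0 (.node 0 (.leaf (16000002) .nil) .nil) .nil) .nil) .nil) .nil) .nil)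
    .nil)) (.node 0 (.node 0 (.node 0 (.node 0 (.node 0 (.node 0 (.node 0 (.node 0 (.node 0 (.leaf
    (100000) .nil) .nil) .nil) .nil) .nil) .nil) .nil) .nil) .nil) .nil))) (.node 1 (.node 1 (.node
    1 (.node 1 (.node 1 (.node 1 (.leaf (238524000001) .nil) (.node 0 (.node 0 (.leaf (-9749999998)
    .nil) .nil) .nil)) (.node 0 (.node 0 (.node 0 (.node 0 (.leaf (390000002) .nil) .nil) .nil)
    .nil) .nil)) (.node 0 (.node 0 (.node 0 (.node 0 (.node 0 (.node 0 (.leaf (-16999998) .nil)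
    .nil) .nil) .nil) .nil) .nil) .nil)) (.node 0 (.node 0 (.node 0 (.node 0 (.node 0 (.node 0
    (.node 0 (.node 0 (.leaf (1900000) .nil) .nil) .nil) .nil) .nil) .nil) .nil) .nil) .nil)) (.node
    0 (.node 0 (.node 0 (.node 0 (.node 0 (.node 0 (.node 0 (.node 0 (.node 0 (.node 0 (.leaf
    (100000) .nil) .nil) .nil) .nil) .nil) .nil) .nil) .nil) .nil) .nil) .nil)) .nil))))))))))
  tD := .node 10 (.leaf (13563136385646) .nil) (.node 9 (.node 0 (.leaf (431395377950) .nil) .nil)
    (.node 8 (.node 1 (.leaf (-1385349259532) .nil) (.node 0 (.node 0 (.leaf (82461804862) .nil)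
    .nil) .nil)) (.node 7 (.node 2 (.leaf (-5535035815783) .nil) (.node 1 (.node 0 (.leaf
    (-153521111422) .nil) .nil) (.node 0 (.node 0 (.node 0 (.leaf (5007725609) .nil) .nil) .nil)
    .nil))) (.node 6 (.node 3 (.leaf (-738367675273) .nil) (.node 2 (.node 0 (.leaf (-554411412303)
    .nil) .nil) (.node 1 (.node 1 (.leaf (-1431164776010) .nil) (.node 0 (.node 0 (.leaf
    (57484904958) .nil) .nil) .nil)) (.node 0 (.node 0 (.node 0 (.node 0 (.leaf (-571725606) .nil)
    .nil) .nil) .nil) .nil)))) (.node 5 (.node 4 (.leaf (3508113928450) .nil) (.node 3 (.node 0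
    (.leaf (519534342958) .nil) .nil) (.node 2 (.node 1 (.leaf (-7714522316329) .nil) (.node 0
    (.node 0 (.leaf (147902036031) .nil) .nil) .nil)) (.node 1 (.node 1 (.node 0 (.leaf
    (-329845752107) .nil) .nil) (.node 0 (.node 0 (.node 0 (.leaf (4323268402) .nil) .nil) .nil)
    .nil)) (.node 0 (.node 0 (.node 0 (.node 0 (.node 0 (.leaf (-127227438) .nil) .nil) .nil) .nil)
    .nil) .nil))))) (.node 4 (.node 4 (.node 0 (.leaf (333214668715) .nil) .nil) (.node 3 (.node 1
    (.leaf (-2503228360077) .nil) (.node 0 (.node 0 (.leaf (-16790624523) .nil) .nil) .nil)) (.node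
    2 (.node 2 (.leaf (-639443602021) .nil) (.node 1 (.node 0 (.leaf (345604615506) .nil) .nil)
    (.node 0 (.node 0 (.node 0 (.leaf (5634658793) .nil) .nil) .nil) .nil))) (.node 1 (.node 1
    (.node 1 (.leaf (251064540191) .nil) (.node 0 (.node 0 (.leaf (6946765424) .nil) .nil) .nil))
    (.node 0 (.node 0 (.node 0 (.node 0 (.leaf (-362029905) .nil) .nil) .nil) .nil) .nil)) (.node 0
    (.node 0 (.node 0 (.node 0 (.node 0 (.node 0 (.leaf (-15999999) .nil) .nil) .nil) .nil) .nil)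
    .nil) .nil))))) (.node 3 (.node 3 (.node 2 (.leaf (13153153667976) .nil) (.node 1 (.node 0
    (.leaf (345795660678) .nil) .nil) (.node 0 (.node 0 (.node 0 (.leaf (2752508847) .nil) .nil)
    .nil) .nil))) (.node 2 (.node 2 (.node 0 (.leaf (-1451106029082) .nil) .nil) (.node 1 (.node 1
    (.leaf (-2827949855537) .nil) (.node 0 (.node 0 (.leaf (-36929895541) .nil) .nil) .nil)) (.node
    0 (.node 0 (.node 0 (.node 0 (.leaf (2008000001) .nil) .nil) .nil) .nil) .nil))) (.node 1 (.node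
    1 (.node 1 (.node 0 (.leaf (-285587609294) .nil) .nil) (.node 0 (.node 0 (.node 0 (.leaf
    (12566102042) .nil) .nil) .nil) .nil)) (.node 0 (.node 0 (.node 0 (.node 0 (.node 0 (.leaf
    (-215999998) .nil) .nil) .nil) .nil) .nil) .nil)) (.node 0 (.node 0 (.node 0 (.node 0 (.node 0
    (.node 0 (.node 0 (.leaf (-999998) .nil) .nil) .nil) .nil) .nil) .nil) .nil) .nil)))) (.node 2
    (.node 2 (.node 2 (.node 1 (.leaf (1623437038990) .nil) (.node 0 (.node 0 (.leaf (-21106640099)
    .nil) .nil) .nil)) (.node 1 (.node 1 (.node 0 (.leaf (-218395054659) .nil) .nil) (.node 0 (.node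
    0 (.node 0 (.leaf (453543618) .nil) .nil) .nil) .nil)) (.node 0 (.node 0 (.node 0 (.node 0
    (.node 0 (.leaf (66000001) .nil) .nil) .nil) .nil) .nil) .nil))) (.node 1 (.node 1 (.node 1
    (.node 1 (.leaf (1553923320585) .nil) (.node 0 (.node 0 (.leaf (-65782171603) .nil) .nil) .nil))
    (.node 0 (.node 0 (.node 0 (.node 0 (.leaf (1450000002) .nil) .nil) .nil) .nil) .nil)) (.node 0
    (.node 0 (.node 0 (.node 0 (.node 0 (.node 0 (.leaf (-22999998) .nil) .nil) .nil) .nil) .nil)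
    .nil) .nil)) .nil)) (.node 1 (.node 1 (.node 1 (.node 1 (.node 1 (.node 0 (.leaf (30780177825)
    .nil) .nil) (.node 0 (.node 0 (.node 0 (.leaf (-1386201480) .nil) .nil) .nil) .nil)) (.node 0
    (.node 0 (.node 0 (.node 0 (.node 0 (.leaf (42000001) .nil) .nil) .nil) .nil) .nil) .nil))
    (.node 0 (.node 0 (.node 0 (.node 0 (.node 0 (.node 0 (.node 0 (.leaf (-999999) .nil) .nil)
    .nil) .nil) .nil) .nil) .nil) .nil)) (.node 0 (.node 0 (.node 0 (.node 0 (.node 0 (.node 0
    (.node 0 (.node 0 (.node 0 (.leaf (-1000000) .nil) .nil) .nil) .nil) .nil) .nil) .nil) .nil)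
    .nil) .nil)) .nil)))))))))
  o1 := 0
  o2 := 0

theorem c10T3_ok : c10T3.ok = true := by decide +kernel
theorem c10T3_W : c10T3.W = true := by decide +kernel
theorem c10T3_U : c10T3.U = true := by decide +kernel
theorem c10T3_f : c10T3.fin3 (60 : ℕ) (1 : ℕ) = true := by decide +kernel


end Pool.Agent.Lib.MP_a6e91d_co
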