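import Pool.Agent.Lib.MP_a6e91d_co.Basic

set_option autoImplicit false

namespace Pool.Agent.Lib.MP_a6e91d_co
open Finset

variable {m : ℕ}

/-- size of a sphere -/
noncomputable def S (m n : ℕ) : ℕ := (sph m n).card

theorem sum_up_dir {M : Type*} [AddCommMonoid M] (n : ℕ) (f : V m → Fin m → M) :
    ∑ x ∈ sph m n, ∑ d ∈ univ.filter (fun d => IsUp x d), f (x + dir d) d.1 =
      ∑ y ∈ sph m (n + 1), ∑ i ∈ univ.filter (fun i => y i ≠ 0), f y i := by
  rw [sum_sigma', sum_sigma']
  refine sum_bij' (fun p _ => ⟨p.1 + dir p.2, p.2.1⟩)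
    (fun p _ => ⟨p.1 - dir (p.2, decide (0 < p.1 p.2)), (p.2, decide (0 < p.1 p.2))⟩) ?_ ?_ ?_ ?_ ?_
  · rintro ⟨x, d⟩ h
    simp only [mem_sigma, mem_sph, mem_filter, mem_univ, true_and] at h ⊢
    refine ⟨by rw [h.2.nrm_eq, h.1], ?_⟩
    have := h.2
    unfold IsUp at this
    simp only [dir, Pi.add_apply, Pi.single_eq_same]
    omega
  · rintro ⟨y, i⟩ h
    simp only [mem_sigma, mem_sph, mem_filter, mem_univ, true_and] at h ⊢
    have hup : IsUp (y - dir (i, decide (0 < y i))) (i, decide (0 < y i)) := by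
      have := h.2
      simp only [IsUp, dir, sg, Pi.sub_apply, Pi.single_eq_same, decide_eq_true_eq]
      split_ifs <;> omega
    refine ⟨?_, hup⟩
    have := hup.nrm_eq
    rw [sub_add_cancel] at this
    omega
  · rintro ⟨x, i, b⟩ h
    simp only [mem_sigma, mem_sph, mem_filter, mem_univ, true_and] at h
    have h2 := h.2
    have : decide (0 < (x + dir (i, b)) i) = b := by
      simp only [IsUp, sg] at h2
      simp only [dir, sg, Pi.add_apply, Pi.single_eq_same]
      cases b
      · simp only [Bool.false_eq_true, if_false, decide_eq_false_iff_not] at h2 ⊢; omega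
      · simp only [if_true, decide_eq_true_eq] at h2 ⊢; omega
    simp only [this, add_sub_cancel_right]
  · rintro ⟨y, i⟩ _; simp
  · rintro ⟨x, d⟩ _; rfl

theorem sup_add_dir {x : V m} {d : Fin m × Bool} (h : IsUp x d) :
    sup (x + dir d) = sup x + if x d.1 = 0 then 1 else 0 := by
  unfold sup
  rw [card_filter, card_filter, ← add_sum_erase _ _ (mem_univ d.1),
    ← add_sum_erase _ (fun i => if x i ≠ 0 then 1 else 0) (mem_univ d.1)]
  have : ∑ j ∈ univ.erase d.1, (if (x + dir d) j ≠ 0 then 1 else 0) =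
      ∑ j ∈ univ.erase d.1, (if x j ≠ 0 then 1 else 0) := by
    refine sum_congr rfl fun j hj => ?_
    simp [dir, Pi.single_eq_of_ne (ne_of_mem_erase hj)]
  rw [this]
  unfold IsUp at h
  simp only [dir, Pi.add_apply, Pi.single_eq_same]
  split_ifs <;> omega

theorem sum_isUp_zero {M : Type*} [AddCommMonoid M] (x : V m) (a b : M) :
    ∑ d ∈ univ.filter (fun d => IsUp x d), (if x d.1 = 0 then a else b) =
      (2 * (m - sup x)) • a + sup x • b := by
  have h1 : (univ.filter fun d : Fin m × Bool => IsUp x d ∧ ¬ x d.1 = 0).card = sup x := by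
    unfold sup
    rw [card_filter, card_filter, Fintype.sum_prod_type]
    refine sum_congr rfl fun i _ => ?_
    simp only [Fintype.sum_bool, IsUp, sg, if_true, Bool.false_eq_true, if_false]
    split_ifs <;> omega
  have h2 := card_isUp x
  have h3 := card_filter_add_card_filter_not (s := univ.filter fun d : Fin m × Bool => IsUp x d)
    (fun d => x d.1 = 0)
  rw [filter_filter, filter_filter, h1] at h3
  have h4 := sup_le x
  rw [sum_ite, sum_const, sum_const, filter_filter, filter_filter, h1]
  congr 2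
  omega

/-- number of compositions -/
def cmp : ℕ → ℕ → ℕ
  | 0, 0 => 1
  | 0, _ + 1 => 0
  | _ + 1, 0 => 0
  | n + 1, l + 1 => n.choose l

noncomputable def N (m n l : ℕ) : ℕ := ((sph m n).filter fun x => sup x = l).card

theorem N_rec (n l : ℕ) :
    (l + 1) * N m (n + 1) (l + 1) = (l + 1) * N m n (l + 1) + 2 * (m - l) * N m n l := by
  have h := sum_up_dir (m := m) n (fun y _ => if sup y = l + 1 then 1 else 0)
  have h1 : ∀ y ∈ sph m (n + 1), ∑ i ∈ univ.filter (fun i => y i ≠ 0),
      (if sup y = l + 1 then 1 else 0) = (l + 1) * if sup y = l + 1 then 1 else 0 := by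
    intro y _
    rw [sum_const, smul_eq_mul]
    split_ifs with h
    · exact congrArg (· * 1) h
    · simp
  have h2 : ∀ x ∈ sph m n, ∑ d ∈ univ.filter (fun d => IsUp x d),
      (if sup (x + dir d) = l + 1 then 1 else 0) =
      ((l + 1) * if sup x = l + 1 then 1 else 0) + 2 * (m - l) * if sup x = l then 1 else 0 := by
    intro x _
    have : ∀ d ∈ univ.filter (fun d => IsUp x d), (if sup (x + dir d) = l + 1 then 1 else 0) =
        if x d.1 = 0 then (if sup x = l then 1 else 0) else (if sup x = l + 1 then 1 else 0) := by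
      intro d hd
      rw [sup_add_dir (mem_filter.1 hd).2]
      split_ifs <;> omega
    rw [sum_congr rfl this, sum_isUp_zero]
    simp only [smul_eq_mul]
    split_ifs with h1 h2 h2
    · omega
    · rw [h1]; omega
    · rw [h2]; omega
    · omega
  rw [sum_congr rfl h1, sum_congr rfl h2, sum_add_distrib, ← mul_sum, ← mul_sum, ← mul_sum] at h
  unfold N
  simp only [card_filter]
  exact h.symm

theorem sph_zero : sph m 0 = {0} := by
  ext x; simp [nrm_eq_zero]

theorem sup_zero : sup (0 : V m) = 0 := by simp [sup]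

theorem sup_eq_zero {x : V m} (h : sup x = 0) : x = 0 := by
  unfold sup at h
  rw [card_eq_zero, filter_eq_empty_iff] at h
  funext i
  simpa using h (mem_univ i)

theorem N_eq (n l : ℕ) : N m n l = 2 ^ l * m.choose l * cmp n l := by
  induction n generalizing l with
  | zero =>
    unfold N
    rw [sph_zero, filter_singleton, sup_zero]
    cases l <;> simp [cmp]
  | succ n ih =>
    cases l with
    | zero =>
      unfold N
      simp only [cmp, mul_zero, card_eq_zero, filter_eq_empty_iff, mem_sph]
      intro x hx h0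
      rw [sup_eq_zero h0, nrm_zero] at hx
      omega
    | succ l =>
      have h := N_rec (m := m) n l
      rw [ih, ih] at h
      apply Nat.eq_of_mul_eq_mul_left (Nat.succ_pos l)
      rw [Nat.succ_eq_add_one, h]
      have e := Nat.choose_succ_right_eq m l
      have e2 : cmp (n + 1) (l + 1) = cmp n (l + 1) + cmp n l := by
        cases n with
        | zero => cases l <;> simp [cmp]
        | succ n =>
          cases l with
          | zero => simp [cmp]
          | succ l => simp [cmp, Nat.choose_succ_succ, add_comm]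
      rw [e2, pow_succ]
      calc (l + 1) * (2 ^ l * 2 * m.choose (l + 1) * cmp n (l + 1)) +
            2 * (m - l) * (2 ^ l * m.choose l * cmp n l)
          = (l + 1) * (2 ^ l * 2 * m.choose (l + 1) * cmp n (l + 1)) +
            2 ^ l * 2 * (m.choose l * (m - l)) * cmp n l := by ring
        _ = _ := by rw [← e]; ring

theorem sum_sup_fiber {M : Type*} [AddCommMonoid M] (n : ℕ) (f : ℕ → M) :
    ∑ x ∈ sph m n, f (sup x) = ∑ l ∈ range (m + 1), N m n l • f l := by
  rw [← sum_fiberwise_of_maps_to (s := sph m n) (t := range (m + 1)) (g := sup)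
    (fun x _ => mem_range.2 (Nat.lt_succ_of_le (sup_le x)))]
  refine sum_congr rfl fun l _ => ?_
  rw [sum_congr rfl fun x hx => congrArg f (mem_filter.1 hx).2, sum_const, N]

theorem S_eq_sum (n : ℕ) : S m n = ∑ l ∈ range (m + 1), N m n l := by
  have := sum_sup_fiber (m := m) n (fun _ => (1 : ℕ))
  simpa [S] using this

theorem cmp_mul (n l : ℕ) : (n + 1 - l) * cmp (n + 1) l = n * cmp n l := by
  cases l with
  | zero => cases n <;> simp [cmp]
  | succ l =>
    cases n with
    | zero => cases l <;> simp [cmp]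
    | succ n =>
      simp only [cmp]
      have := Nat.choose_mul_succ_eq n l
      rw [show n + 1 + 1 - (l + 1) = n + 1 - l by omega, mul_comm, ← this, mul_comm]

/-- first moment of the excess -/
theorem sum_exc_mul (n : ℕ) (f : ℕ → ℕ) :
    ∑ y ∈ sph m (n + 1), exc y * f (sup y) = n * ∑ x ∈ sph m n, f (sup x) := by
  have h1 : ∀ y ∈ sph m (n + 1), exc y * f (sup y) = (fun l => (n + 1 - l) * f l) (sup y) := by
    intro y hy
    have := sup_add_exc y
    rw [mem_sph] at hy
    simp only
    congr 1; omega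
  rw [sum_congr rfl h1, sum_sup_fiber (n + 1) (fun l => (n + 1 - l) * f l), sum_sup_fiber, mul_sum]
  refine sum_congr rfl fun l _ => ?_
  simp only [N_eq, smul_eq_mul]
  calc 2 ^ l * m.choose l * cmp (n + 1) l * ((n + 1 - l) * f l)
      = 2 ^ l * m.choose l * ((n + 1 - l) * cmp (n + 1) l) * f l := by ring
    _ = _ := by rw [cmp_mul]; ring

theorem sum_exc (n : ℕ) : ∑ y ∈ sph m (n + 1), exc y = n * S m n := by
  simpa [S] using sum_exc_mul (m := m) n (fun _ => 1)

theorem sum_exc_sq (n : ℕ) :
    ∑ y ∈ sph m (n + 2), exc y * exc y = (n + 1) * (n * S m n) + (n + 1) * S m (n + 1) := by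
  have h := sum_exc_mul (m := m) (n + 1) (fun l => n + 2 - l)
  have h1 : ∀ y ∈ sph m (n + 2), exc y * exc y = exc y * (n + 2 - sup y) := by
    intro y hy
    have := sup_add_exc y
    rw [mem_sph] at hy
    congr 1; omega
  have h2 : ∀ x ∈ sph m (n + 1), n + 2 - sup x = exc x + 1 := by
    intro y hy
    have := sup_add_exc y
    rw [mem_sph] at hy
    omega
  rw [sum_congr rfl h1, h, sum_congr rfl h2, sum_add_distrib, sum_exc]
  simp [S, mul_add]

theorem sum_sup_add (n : ℕ) : ∑ y ∈ sph m (n + 1), sup y + n * S m n = (n + 1) * S m (n + 1) := by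
  rw [← sum_exc, ← sum_add_distrib, sum_congr rfl fun y hy => (sup_add_exc y).trans (mem_sph.1 hy)]
  simp [S, mul_comm]

theorem sum_sup_succ (n : ℕ) :
    ∑ y ∈ sph m (n + 1), sup y + ∑ x ∈ sph m n, sup x = 2 * m * S m n := by
  have h := sum_up_dir (m := m) n (fun _ _ => (1 : ℕ))
  simp only [sum_const, smul_eq_mul, mul_one] at h
  have h' : ∑ y ∈ sph m (n + 1), sup y = ∑ x ∈ sph m n, (univ.filter fun d => IsUp x d).card := h.symm
  rw [h', ← sum_add_distrib, sum_congr rfl fun x _ => card_isUp x]
  simp [S, mul_comm]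

theorem S_zero : S m 0 = 1 := by simp [S, sph_zero]

theorem S_one : S m 1 = 2 * m := by
  have h1 := sum_sup_add (m := m) 0
  have h2 := sum_sup_succ (m := m) 0
  rw [sph_zero, sum_singleton, sup_zero, S_zero] at h2
  simp only [zero_mul, zero_add, one_mul, add_zero, mul_one] at h1 h2
  omega

theorem S_rec (n : ℕ) : (n + 2) * S m (n + 2) = 2 * m * S m (n + 1) + n * S m n := by
  have h1 := sum_sup_add (m := m) (n + 1)
  have h2 := sum_sup_succ (m := m) (n + 1)
  have h3 := sum_sup_add (m := m) n
  have : (n + 1 + 1) * S m (n + 1 + 1) = (n + 2) * S m (n + 2) := rfl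
  omega

theorem S_ratio (n : ℕ) : 2 * m * S m n ≤ (n + 1) * S m (n + 1) := by
  cases n with
  | zero => simp [S_zero, S_one]
  | succ n => rw [show n + 1 + 1 = n + 2 from rfl, S_rec]; omega

theorem S_pos (hm : 1 ≤ m) (n : ℕ) : 0 < S m n := by
  induction n with
  | zero => simp [S_zero]
  | succ n ih =>
    have := S_ratio (m := m) n
    by_contra h
    have h0 : S m (n + 1) = 0 := by omega
    rw [h0] at this
    have : 0 < 2 * m * S m n := by positivity
    omega

/-- the ball -/
noncomputable def ball (m s : ℕ) : Finset (V m) := (range (s + 1)).biUnion fun n => sph m n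

theorem mem_ball {s : ℕ} {x : V m} : x ∈ ball m s ↔ nrm x ≤ s := by
  simp [ball]

theorem sum_ball {M : Type*} [AddCommMonoid M] (s : ℕ) (f : V m → M) :
    ∑ x ∈ ball m s, f x = ∑ n ∈ range (s + 1), ∑ x ∈ sph m n, f x := by
  unfold ball
  refine sum_biUnion fun a _ b _ hab => ?_
  simp only [Function.onFun]
  rw [disjoint_left]
  intro x ha hb
  rw [mem_sph] at ha hb
  exact hab (ha.symm.trans hb)

theorem sum_cmp (s l : ℕ) : ∑ n ∈ range (s + 1), cmp n l = s.choose l := by
  induction s with
  | zero => cases l <;> simp [cmp]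
  | succ s ih =>
    rw [sum_range_succ, ih]
    cases l with
    | zero => simp [cmp]
    | succ l => simp [cmp, Nat.choose_succ_succ, add_comm]

theorem card_ball_eq_sum (s : ℕ) : (ball m s).card = ∑ n ∈ range (s + 1), S m n := by
  have := sum_ball (m := m) s (fun _ => (1 : ℕ))
  simpa [S] using this

theorem card_ball (s : ℕ) :
    (ball m s).card = ∑ i ∈ range (m + 1), m.choose i * s.choose i * 2 ^ i := by
  rw [card_ball_eq_sum, sum_congr rfl fun n _ => S_eq_sum n, sum_comm]
  refine sum_congr rfl fun l _ => ?_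
  simp only [N_eq]
  rw [← mul_sum, sum_cmp]; ring

theorem card_ball_odd (s : ℕ) : (ball m s).card % 2 = 1 := by
  rw [card_ball, sum_range_succ', Nat.add_mod, Finset.sum_nat_mod]
  have : ∀ i ∈ range m, m.choose (i + 1) * s.choose (i + 1) * 2 ^ (i + 1) % 2 = 0 := by
    intro i _
    rw [pow_succ, ← mul_assoc]; omega
  rw [sum_congr rfl this]; simp

namespace Tiling
variable {s : ℕ} {G : Type} [AddCommGroup G] (T : Tiling m s G)

theorem sum_ball_eq [Fintype G] {M : Type*} [AddCommMonoid M] (h : G → M) :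
    ∑ x ∈ ball m s, h (T.φ x) = ∑ g, h g := by
  refine sum_bij (fun x _ => T.φ x) (fun _ _ => mem_univ _) ?_ ?_ (fun _ _ => rfl)
  · intro x hx y hy e
    exact T.uniq x y (mem_ball.1 hx) (mem_ball.1 hy) e
  · intro g _
    obtain ⟨x, hx, e⟩ := T.ex g
    exact ⟨x, mem_ball.2 hx, e⟩

include T in
theorem card_eq [Fintype G] : Fintype.card G = (ball m s).card := by
  have := T.sum_ball_eq (fun _ => (1 : ℕ))
  simpa using this.symm

end Tiling

end Pool.Agent.Lib.MP_a6e91d_co
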