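import Pool.Agent.Lib.MP_a6e91d_co.Count

set_option autoImplicit false

namespace Pool.Agent.Lib.MP_a6e91d_co
open Finset Polynomial

structure Good (D : ℕ) (q : ℤ → ℤ) : Prop where
  sym : ∀ k : ℤ, q (D - k) = q k
  uni : ∀ i j : ℤ, i ≤ j → i + j ≤ D → q i ≤ q j
  flat : ∀ j : ℤ, 2 * j + 1 ≤ D → (j + 1) * q (j + 1) ≤ (D - j) * q j

theorem uni_of_step {D : ℕ} {q : ℤ → ℤ} (hs : ∀ k, q (D - k) = q k)
    (h : ∀ j : ℤ, 2 * j + 1 ≤ D → q j ≤ q (j + 1)) : ∀ i j : ℤ, i ≤ j → i + j ≤ D → q i ≤ q j := by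
  have key : ∀ i j : ℤ, i ≤ j → 2 * j ≤ D + 1 → q i ≤ q j := by
    intro i j hij
    induction j, hij using Int.leInduction with
    | base => intro _; exact le_rfl
    | succ j hij ih => intro hj; exact (ih (by omega)).trans (h j (by omega))
  intro i j hij hD
  by_cases hj : 2 * j ≤ D + 1
  · exact key i j hij hj
  · rw [← hs j]; exact key i _ (by omega) (by omega)

theorem window_nonneg {D : ℤ} {Δ : ℤ → ℤ} (hs : ∀ k, Δ (D - 1 - k) = -Δ k)
    (h : ∀ j, 2 * j + 1 ≤ D → 0 ≤ Δ j) (n : ℕ) :
    ∀ lo : ℤ, 2 * lo + n ≤ D → 0 ≤ ∑ t ∈ range n, Δ (lo + t) := by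
  induction n using Nat.strong_induction_on with
  | _ n ih =>
    intro lo hlo
    rcases n with _ | n
    · simp
    push_cast at hlo
    rw [sum_range_succ']
    have e : ∀ k : ℕ, ∑ t ∈ range k, Δ (lo + ((t + 1 : ℕ) : ℤ)) = ∑ t ∈ range k, Δ (lo + 1 + t) :=
      fun k => sum_congr rfl fun t _ => by congr 1; push_cast; ring
    have h0 := h lo (by omega)
    simp only [Nat.cast_zero, add_zero]
    by_cases hc : 2 * lo + (n + 1) < D
    · have := ih n (by omega) (lo + 1) (by omega)
      rw [e]; omega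
    · rcases n with _ | n
      · simpa using h0
      · rw [sum_range_succ, e]
        have h1 := ih n (by omega) (lo + 1) (by push_cast at hlo; omega)
        have h2 := hs lo
        have : D - 1 - lo = lo + ((n + 1 : ℕ) : ℤ) := by push_cast at hlo hc ⊢; omega
        rw [this] at h2
        omega

theorem Good.step {D : ℕ} {q : ℤ → ℤ} (h : Good D q) (a : ℕ) :
    Good (D + a) (fun n => ∑ t ∈ range (a + 1), q (n - t)) := by
  have hsym : ∀ k : ℤ, ∑ t ∈ range (a + 1), q (((D + a : ℕ) : ℤ) - k - t) =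
      ∑ t ∈ range (a + 1), q (k - t) := by
    intro k
    rw [← sum_range_reflect]
    refine sum_congr rfl fun t ht => ?_
    rw [mem_range] at ht
    rw [← h.sym (k - t)]
    congr 1
    rw [show a + 1 - 1 - t = a - t from rfl, Nat.cast_sub (by omega)]
    push_cast; ring
  refine ⟨hsym, uni_of_step (q := fun n => ∑ t ∈ range (a + 1), q (n - t)) hsym fun j hj => ?_, fun j hj => ?_⟩
  · rw [sum_range_succ, sum_range_succ']
    have e : ∑ t ∈ range a, q (j + 1 - ((t + 1 : ℕ) : ℤ)) = ∑ t ∈ range a, q (j - t) :=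
      sum_congr rfl fun t _ => by congr 1; push_cast; ring
    rw [e]
    have := h.uni (j - a) (j + 1) (by omega) (by push_cast at hj; omega)
    simpa using this
  · push_cast at hj ⊢
    set Δ : ℤ → ℤ := fun k => (D - k) * q k - (k + 1) * q (k + 1) with hΔ
    have h1 : 0 ≤ ∑ t ∈ range (a + 1), Δ (j - t) := by
      have := window_nonneg (D := D) (Δ := Δ) (fun k => by
        have e1 := h.sym k
        have e2 := h.sym (k + 1)
        simp only [hΔ]
        rw [show (D : ℤ) - 1 - k + 1 = D - k by ring, e1, show (D : ℤ) - 1 - k = D - (k + 1) by ring,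
          e2]
        ring) (fun k hk => sub_nonneg.2 (h.flat k hk)) (a + 1) (j - a) (by push_cast; omega)
      rw [← sum_range_reflect] at this
      refine this.trans_eq (sum_congr rfl fun t ht => ?_)
      rw [mem_range] at ht
      congr 1
      rw [show a + 1 - 1 - t = a - t from rfl, Nat.cast_sub (by omega)]
      ring
    have h2 : 0 ≤ ∑ t ∈ range a, ((a : ℤ) - 1 - 2 * t) * (q (j - t) - q (j + 1 - a + t)) := by
      refine sum_nonneg fun t _ => ?_
      by_cases hc : 2 * (t : ℤ) ≤ a - 1
      · exact mul_nonneg (by omega) (sub_nonneg.2 (h.uni _ _ (by omega) (by omega)))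
      · exact mul_nonneg_of_nonpos_of_nonpos (by omega)
          (sub_nonpos.2 (h.uni _ _ (by omega) (by omega)))
    have h3 : ∑ t ∈ range a, ((a : ℤ) - 1 - 2 * t) * q (j + 1 - a + t) =
        -∑ t ∈ range a, ((a : ℤ) - 1 - 2 * t) * q (j - t) := by
      rw [← sum_range_reflect, ← sum_neg_distrib]
      refine sum_congr rfl fun t ht => ?_
      rw [mem_range] at ht
      rw [show a - 1 - t = a - (t + 1) by omega, Nat.cast_sub (by omega)]
      push_cast
      rw [show j + 1 - a + (a - (t + 1)) = j - t by ring]; ring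
    have h4 : ∑ t ∈ range (a + 1), ((a : ℤ) - t) * q (j - t) =
        ∑ t ∈ range a, ((a : ℤ) - t) * q (j - t) := by rw [sum_range_succ]; simp
    have h5 : ∑ t ∈ range (a + 1), (t : ℤ) * q (j + 1 - t) =
        ∑ t ∈ range a, ((t : ℤ) + 1) * q (j - t) := by
      rw [sum_range_succ']
      simp only [Nat.cast_zero, zero_mul, add_zero]
      refine sum_congr rfl fun t _ => ?_
      push_cast
      rw [show j + 1 - (t + 1) = j - t by ring]
    have h6 : ∑ t ∈ range a, ((a : ℤ) - t) * q (j - t) - ∑ t ∈ range a, ((t : ℤ) + 1) * q (j - t) =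
        ∑ t ∈ range a, ((a : ℤ) - 1 - 2 * t) * q (j - t) := by
      rw [← sum_sub_distrib]
      exact sum_congr rfl fun t _ => by ring
    have h7 : (D + a - j) * ∑ t ∈ range (a + 1), q (j - t) -
        (j + 1) * ∑ t ∈ range (a + 1), q (j + 1 - t) =
        ∑ t ∈ range (a + 1), Δ (j - t) + (∑ t ∈ range (a + 1), ((a : ℤ) - t) * q (j - t) -
          ∑ t ∈ range (a + 1), (t : ℤ) * q (j + 1 - t)) := by
      rw [mul_sum, mul_sum, ← sum_sub_distrib, ← sum_sub_distrib, ← sum_add_distrib]
      refine sum_congr rfl fun t _ => ?_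
      simp only [hΔ]
      rw [show j - t + 1 = j + 1 - t by ring]; ring
    simp only [mul_sub, sum_sub_distrib] at h2
    rw [h3] at h2
    rw [h4, h5, h6] at h7
    omega

def qf (p : ℤ[X]) (k : ℤ) : ℤ := if k < 0 then 0 else p.coeff k.toNat

theorem qf_nat (p : ℤ[X]) (k : ℕ) : qf p k = p.coeff k := by simp [qf]

theorem good_prod {ι : Type*} [DecidableEq ι] (s : Finset ι) (a : ι → ℕ) :
    Good (∑ i ∈ s, a i) (qf (∏ i ∈ s, ∑ t ∈ range (a i + 1), X ^ t)) := by
  induction s using Finset.induction_on with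
  | empty =>
    have e : ∀ k, qf 1 k = if k = 0 then 1 else 0 := by
      intro k
      simp only [qf, coeff_one]
      split_ifs <;> omega
    simp only [sum_empty, prod_empty]
    refine ⟨fun k => ?_, fun i j h1 h2 => ?_, fun j h => ?_⟩ <;> simp only [e, Nat.cast_zero] at * <;>
      split_ifs <;> omega
  | insert i s hi ih =>
    rw [sum_insert hi, prod_insert hi, add_comm]
    have := ih.step (a i)
    refine (congrArg (Good _) (funext fun n => ?_)).mp this
    rw [sum_mul]
    unfold qf
    split_ifs with h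
    · exact sum_eq_zero fun t _ => if_pos (by omega)
    · rw [finsetSum_coeff]
      refine sum_congr rfl fun t _ => ?_
      rw [coeff_X_pow_mul']
      split_ifs with h1 h2 h2
      · omega
      · rfl
      · congr 1; omega
      · omega

variable {m : ℕ}

def box (a : Fin m → ℕ) (n : ℕ) : ℕ :=
  ((Fintype.piFinset fun i => range (a i + 1)).filter fun z => ∑ i, z i = n).card

theorem box_eq (a : Fin m → ℕ) (n : ℕ) :
    (box a n : ℤ) = qf (∏ i, ∑ t ∈ range (a i + 1), X ^ t) n := by
  rw [qf_nat, prod_univ_sum, finsetSum_coeff, box, card_filter]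
  push_cast
  refine sum_congr rfl fun z _ => ?_
  rw [prod_pow_eq_pow_sum, coeff_X_pow]
  simp only [eq_comm]

theorem box_symm (a : Fin m → ℕ) {i j : ℕ} (h : i + j = ∑ l, a l) : box a i = box a j := by
  have := (good_prod univ a).sym j
  rw [← h, show ((i + j : ℕ) : ℤ) - j = i by push_cast; ring, ← box_eq, ← box_eq] at this
  exact_mod_cast this

theorem box_flat (a : Fin m → ℕ) {j r : ℕ} (h : j + r = ∑ l, a l) (h2 : j + 1 ≤ r) :
    (j + 1) * box a (j + 1) ≤ r * box a j := by
  have := (good_prod univ a).flat j (by rw [← h]; omega)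
  rw [← h, show ((j + r : ℕ) : ℤ) - j = r by push_cast; ring, ← box_eq,
    show (j : ℤ) + 1 = (j + 1 : ℕ) by push_cast; ring, ← box_eq] at this
  exact_mod_cast this

/-- number of points of norm `n` below `w` with prescribed lower bounds on both parts -/
noncomputable def cnt (w : V m) (κ κ' : Fin m → ℕ) (n : ℕ) : ℕ :=
  ((sph m n).filter fun y => Le y w ∧ (∀ l, κ l ≤ (y l).natAbs) ∧
    ∀ l, κ' l ≤ (w l - y l).natAbs).card

theorem cnt_eq_zero {w : V m} {κ κ' : Fin m → ℕ} (h : ¬ ∀ l, κ l + κ' l ≤ (w l).natAbs) (n : ℕ) :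
    cnt w κ κ' n = 0 := by
  rw [cnt, card_eq_zero, filter_eq_empty_iff]
  rintro y _ ⟨h1, h2, h3⟩
  refine h fun l => ?_
  have := h1 l; have := h2 l; have := h3 l
  omega

theorem cnt_eq {w : V m} {κ κ' : Fin m → ℕ} (h : ∀ l, κ l + κ' l ≤ (w l).natAbs) (j : ℕ) :
    cnt w κ κ' (∑ l, κ l + j) = box (fun l => (w l).natAbs - (κ l + κ' l)) j := by
  unfold cnt box
  refine card_bij' (fun y _ l => (y l).natAbs - κ l) (fun z _ l => (w l).sign * (κ l + z l : ℕ))
    ?_ ?_ ?_ ?_
  · intro y hy
    simp only [mem_filter, mem_sph, Fintype.mem_piFinset, mem_range] at hy ⊢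
    obtain ⟨h0, h1, h2, h3⟩ := hy
    refine ⟨fun l => ?_, ?_⟩
    · have := h1 l; have := h2 l; have := h3 l
      omega
    · have : ∑ l, (κ l + ((y l).natAbs - κ l)) = nrm y :=
        sum_congr rfl fun l _ => by have := h2 l; omega
      rw [sum_add_distrib] at this
      omega
  · intro z hz
    simp only [mem_filter, mem_sph, Fintype.mem_piFinset, mem_range] at hz ⊢
    have key : ∀ l, ((w l).sign * ((κ l + z l : ℕ) : ℤ)).natAbs = κ l + z l ∧
        (w l - (w l).sign * ((κ l + z l : ℕ) : ℤ)).natAbs + (κ l + z l) = (w l).natAbs := by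
      intro l
      have := hz.1 l
      have := h l
      rcases lt_trichotomy (w l) 0 with h' | h' | h'
      · rw [Int.sign_eq_neg_one_of_neg h']; omega
      · rw [Int.sign_eq_zero_iff_zero.2 h']; omega
      · rw [Int.sign_eq_one_of_pos h']; omega
    refine ⟨?_, fun l => ?_, fun l => ?_, fun l => ?_⟩
    · unfold nrm
      rw [sum_congr rfl fun l _ => (key l).1, sum_add_distrib, hz.2]
    · have := key l; simp only; omega
    · have := key l; omega
    · have := key l; have := hz.1 l; have := h l; omega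
  · intro y hy
    simp only [mem_filter, mem_sph] at hy
    obtain ⟨h0, h1, h2, h3⟩ := hy
    funext l
    have := h1 l; have := h2 l
    simp only
    rcases lt_trichotomy (w l) 0 with h' | h' | h'
    · rw [Int.sign_eq_neg_one_of_neg h']; omega
    · rw [Int.sign_eq_zero_iff_zero.2 h']; omega
    · rw [Int.sign_eq_one_of_pos h']; omega
  · intro z hz
    simp only [mem_filter, Fintype.mem_piFinset, mem_range] at hz
    funext l
    have := hz.1 l
    have := h l
    simp only
    rcases lt_trichotomy (w l) 0 with h' | h' | h'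
    · rw [Int.sign_eq_neg_one_of_neg h']; omega
    · rw [Int.sign_eq_zero_iff_zero.2 h']; omega
    · rw [Int.sign_eq_one_of_pos h']; omega

end Pool.Agent.Lib.MP_a6e91d_co
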