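import Pool.Agent.Lib.MP_a6e91d_co.Count

set_option autoImplicit false

namespace Pool.Agent.Lib.MP_a6e91d_co
open Finset

variable {m : ℕ}

theorem nrm_sub_dir (x : V m) (d : Fin m × Bool) (k : ℕ) :
    nrm (x - k • dir d) + (x d.1).natAbs = nrm x + (x d.1 - k * sg d.2).natAbs := by
  have := nrm_add_single x d.1 (-(k * sg d.2))
  have e : x - k • dir d = x + Pi.single d.1 (-(k * sg d.2)) := by
    funext i
    by_cases h : i = d.1
    · subst h; simp [dir, sub_eq_add_neg]
    · simp [dir, Pi.single_eq_of_ne h]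
  rw [e, sub_eq_add_neg]; exact this

theorem master {M : Type*} [AddCommMonoid M] (s : ℕ) (d : Fin m × Bool) (h : V m → M) :
    ∑ k ∈ range s, ∑ y ∈ ball m (s - (k + 1)), h (y + (k + 1) • dir d) =
      ∑ x ∈ ball m s, ((sg d.2 * x d.1).toNat + (s - nrm x) / 2) • h x := by
  have h1 : ∀ k ∈ range s, ∑ y ∈ ball m (s - (k + 1)), h (y + (k + 1) • dir d) =
      ∑ x ∈ ball m s, if nrm (x - (k + 1) • dir d) + (k + 1) ≤ s then h x else 0 := by
    intro k hk
    rw [mem_range] at hk
    rw [← sum_filter]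
    refine sum_bij' (fun y _ => y + (k + 1) • dir d) (fun x _ => x - (k + 1) • dir d) ?_ ?_ ?_ ?_ ?_
    · intro y hy
      rw [mem_ball] at hy
      rw [mem_filter, mem_ball, add_sub_cancel_right]
      have a := nrm_sub_dir (y + (k + 1) • dir d) d (k + 1)
      rw [add_sub_cancel_right] at a
      refine ⟨?_, by omega⟩
      have : (sg d.2).natAbs = 1 := by unfold sg; split_ifs <;> rfl
      have b : (((k + 1 : ℕ) : ℤ) * sg d.2).natAbs = k + 1 := by
        rw [Int.natAbs_mul, this, mul_one, Int.natAbs_natCast]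
      omega
    · intro x hx
      rw [mem_filter] at hx
      rw [mem_ball]; omega
    · intro y _; simp
    · intro y _; simp
    · intro y _; rfl
  rw [sum_congr rfl h1, sum_comm]
  refine sum_congr rfl fun x hx => ?_
  rw [mem_ball] at hx
  rw [← sum_filter, sum_const]
  congr 1
  rw [← card_range ((sg d.2 * x d.1).toNat + (s - nrm x) / 2)]
  congr 1
  ext k
  have a := nrm_sub_dir x d (k + 1)
  have b := natAbs_le_nrm x d.1
  simp only [mem_filter, mem_range]
  unfold sg at a ⊢
  split_ifs at a ⊢ <;> omega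

theorem zsum {M : Type*} [AddCommMonoid M] (s : ℕ) (h : V m → M) :
    ∑ k ∈ range s, ∑ d, ∑ y ∈ ball m (s - (k + 1)), h (y + (k + 1) • dir d) =
      ∑ n ∈ range (s + 1), (n + 2 * m * ((s - n) / 2)) • ∑ x ∈ sph m n, h x := by
  rw [sum_comm, sum_congr rfl fun d _ => master s d h, sum_comm, sum_ball]
  refine sum_congr rfl fun n _ => ?_
  rw [smul_sum]
  refine sum_congr rfl fun x hx => ?_
  rw [mem_sph] at hx
  rw [← sum_smul, sum_add_distrib, hx]
  congr 2
  · rw [← hx, nrm, Fintype.sum_prod_type]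
    refine sum_congr rfl fun i _ => ?_
    simp only [Fintype.sum_bool, sg, if_true, Bool.false_eq_true, if_false]
    omega
  · simp [mul_comm]

theorem tsum' {R : Type*} [CommRing R] (s : ℕ) (ψ : V m →+ R) (h : V m → R) :
    ∑ x ∈ ball m s, ψ x * h x =
      ∑ k ∈ range s, ∑ d, ψ (dir d) * ∑ y ∈ ball m (s - (k + 1)), h (y + (k + 1) • dir d) := by
  rw [sum_comm]
  simp only [← mul_sum]
  simp only [master, mul_sum]
  rw [sum_comm]
  refine sum_congr rfl fun x _ => ?_
  simp only [nsmul_eq_mul, ← mul_assoc]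
  rw [← sum_mul]
  congr 1
  rw [Fintype.sum_prod_type]
  conv_lhs => rw [← univ_sum_single x, map_sum]
  refine sum_congr rfl fun i _ => ?_
  have e1 : (Pi.single i (x i) : V m) = x i • Pi.single i 1 := by
    rw [← Pi.single_smul]; simp
  have e2 : (Pi.single i (-1) : V m) = -Pi.single i 1 := Pi.single_neg i 1
  have e3 : (((x i).toNat : ℤ) : R) - (((-x i).toNat : ℤ) : R) = x i := by
    rw [← Int.cast_sub, Int.toNat_sub_toNat_neg]
  rw [e1, map_zsmul]
  simp only [Fintype.sum_bool, dir, sg, if_true, Bool.false_eq_true, if_false, e2, map_neg,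
    zsmul_eq_mul, one_mul, neg_mul]
  push_cast at e3 ⊢
  linear_combination -ψ (Pi.single i 1) * e3

/-- uniform distribution of the ball under a homomorphism -/
def Unif {H : Type} [AddCommGroup H] [DecidableEq H] (s : ℕ) (ψ : V m →+ H) (r : ℕ) : Prop :=
  ∀ t, ((ball m s).filter fun x => ψ x = t).card = r

theorem Unif.sum {H : Type} [AddCommGroup H] [DecidableEq H] [Fintype H] {s r : ℕ} {ψ : V m →+ H}
    (hU : Unif s ψ r) {M : Type*} [AddCommMonoid M] (h : H → M) :
    ∑ x ∈ ball m s, h (ψ x) = r • ∑ t, h t := by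
  rw [← sum_fiberwise (g := ψ), smul_sum]
  refine sum_congr rfl fun t _ => ?_
  rw [sum_congr rfl fun x hx => congrArg h (mem_filter.1 hx).2, sum_const, hU]

theorem Tiling.unif {s : ℕ} {G H : Type} [AddCommGroup G] [Fintype G] [AddCommGroup H]
    [DecidableEq H] [Fintype H] (T : Tiling m s G) (f : G →+ H) (hf : Function.Surjective f) :
    Unif s (f.comp T.φ) ((ball m s).card / Fintype.card H) := by
  have h1 : ∀ t, ((ball m s).filter fun x => f.comp T.φ x = t).card =
      (univ.filter fun g => f g = 0).card := by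
    intro t
    rw [card_filter]
    refine (T.sum_ball_eq fun g => if f g = t then 1 else 0).trans ?_
    rw [← card_filter]
    exact AddMonoidHom.card_fiber_eq_of_mem_range f (hf t) (hf 0)
  have h2 := card_eq_sum_card_fiberwise (s := ball m s) (t := univ) (f := f.comp T.φ)
    fun _ _ => mem_coe.2 (mem_univ _)
  rw [sum_congr rfl fun t _ => h1 t, sum_const, card_univ, smul_eq_mul] at h2
  intro t
  rw [h1, h2, Nat.mul_div_cancel_left _ Fintype.card_pos]

def Sc (m : ℕ) : ℕ → ℕ
  | 0 => 1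
  | 1 => 2 * m
  | n + 2 => (2 * m * Sc m (n + 1) + n * Sc m n) / (n + 2)

theorem S_eq_Sc (n : ℕ) : S m n = Sc m n := by
  induction n using Nat.twoStepInduction with
  | zero => exact S_zero
  | one => exact S_one
  | more n ih1 ih2 => rw [Sc, ← ih1, ← ih2, ← S_rec, Nat.mul_div_cancel_left _ (by omega)]

def Bc (m : ℕ) : ℕ → ℕ
  | 0 => 1
  | n + 1 => Bc m n + Sc m (n + 1)

theorem card_ball_Bc (s : ℕ) : (ball m s).card = Bc m s := by
  rw [card_ball_eq_sum]
  induction s with
  | zero => simp [Bc, S_zero]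
  | succ s ih => rw [sum_range_succ, ih, S_eq_Sc, Bc]

def cK (m s j : ℕ) : ℕ := ((List.range s).map fun k => (k + 1) ^ j * Bc m (s - (k + 1))).sum

/-- power sums of the images of the unit directions -/
def pw {R : Type*} [CommRing R] (ψ : V m →+ R) (r : ℕ) : R := ∑ d, ψ (dir d) ^ r

theorem pw_eq {R : Type*} [CommRing R] (ψ : V m →+ R) (r : ℕ) :
    pw ψ r = ∑ i, (ψ (Pi.single i 1) ^ r + (-ψ (Pi.single i 1)) ^ r) := by
  rw [pw, Fintype.sum_prod_type]
  refine sum_congr rfl fun i _ => ?_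
  have e2 : (Pi.single i (-1) : V m) = -Pi.single i 1 := Pi.single_neg i 1
  simp [dir, sg, e2]

theorem kim_step {R : Type*} [CommRing R] (s : ℕ) (ψ : V m →+ R) (j : ℕ)
    (h : ∀ r, 1 ≤ r → r ≤ j → pw ψ r = 0) :
    ∑ x ∈ ball m s, ψ x ^ (j + 1) = pw ψ (j + 1) * cK m s j := by
  have := tsum' s ψ fun x => ψ x ^ j
  simp only [← pow_succ'] at this
  rw [this, cK, ← List.sum_toFinset _ List.nodup_range, List.toFinset_range]
  push_cast
  rw [mul_sum]
  refine sum_congr rfl fun k _ => ?_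
  simp only [mul_sum]
  rw [sum_comm, ← card_ball_Bc, ← mul_assoc, mul_comm _ ((ball m (s - (k + 1))).card : R),
    ← nsmul_eq_mul, ← sum_const]
  refine sum_congr rfl fun y _ => ?_
  simp only [map_add, map_nsmul, add_comm (ψ y)]
  simp only [add_pow _ (ψ y), mul_sum, nsmul_eq_mul]
  rw [sum_comm, sum_range_succ, sum_eq_zero, zero_add, pw, sum_mul]
  · refine sum_congr rfl fun d _ => ?_
    simp only [Nat.sub_self, pow_zero, Nat.choose_self, mul_pow]
    push_cast; ring
  · intro r hr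
    have := h (r + 1) (by omega) (mem_range.1 hr)
    rw [pw] at this
    rw [← mul_zero ((k + 1 : ℕ) ^ r * ψ y ^ (j - r) * j.choose r : R), ← this, mul_sum]
    exact sum_congr rfl fun d _ => by rw [mul_pow]; ring

theorem kim_zero {p s r : ℕ} [Fact p.Prime] {ψ : V m →+ ZMod p} (hU : Unif s ψ r) (J : ℕ)
    (hJ : J < p - 1) (hc : ∀ j, 2 * j + 2 ≤ J → cK m s (2 * j + 1) % p ≠ 0) (i : ℕ) (h1 : 1 ≤ i)
    (h2 : i ≤ J) : pw ψ i = 0 := by
  induction i using Nat.strong_induction_on with
  | _ i ih =>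
    rcases Nat.even_or_odd' i with ⟨j, rfl | rfl⟩
    · obtain ⟨j, rfl⟩ : ∃ k, j = k + 1 := ⟨j - 1, by omega⟩
      have a := kim_step s ψ (2 * j + 1) fun r a b => ih r (by omega) a (by omega)
      rw [hU.sum fun t => t ^ (2 * j + 1 + 1),
        FiniteField.sum_pow_lt_card_sub_one _ _ (by rw [ZMod.card]; omega), smul_zero] at a
      refine (mul_eq_zero.1 a.symm).resolve_right fun h => hc j (by omega) ?_
      exact Nat.mod_eq_zero_of_dvd ((ZMod.natCast_eq_zero_iff _ _).1 h)
    · rw [pw_eq]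
      exact sum_eq_zero fun i _ => by rw [Odd.neg_pow ⟨j, rfl⟩, add_neg_cancel]

theorem eq_zero_of_pow_sum {p : ℕ} [Fact p.Prime] (hm : m < p) (b : Fin m → ZMod p)
    (h : ∀ j, 1 ≤ j → j ≤ m → ∑ i, b i ^ j = 0) (i0 : Fin m) : b i0 = 0 := by
  by_contra h0
  let g : Polynomial (ZMod p) := ∏ i ∈ univ.filter (fun i => b i ≠ b i0), (.X - .C (b i))
  have hg : g.natDegree < m := by
    rw [Polynomial.natDegree_prod_of_monic _ _ fun i _ => Polynomial.monic_X_sub_C _]
    simp only [Polynomial.natDegree_X_sub_C, sum_const, smul_eq_mul, mul_one]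
    refine (card_lt_card (filter_ssubset.2 ⟨i0, mem_univ _, by simp⟩)).trans_eq (by simp)
  have h1 : ∑ i, b i * g.eval (b i) = 0 := by
    simp only [Polynomial.eval_eq_sum_range' hg, mul_sum]
    rw [sum_comm]
    refine sum_eq_zero fun j hj => ?_
    rw [← mul_zero (g.coeff j), ← h (j + 1) (by omega) (mem_range.1 hj), mul_sum]
    exact sum_congr rfl fun i _ => by ring
  have h2 : ∀ i ∈ (univ : Finset (Fin m)), b i * g.eval (b i) =
      if b i = b i0 then b i0 * g.eval (b i0) else 0 := by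
    intro i _
    split_ifs with h
    · rw [h]
    · rw [Polynomial.eval_prod, prod_eq_zero (i := i) (by simpa using h) (by simp), mul_zero]
  rw [sum_congr rfl h2, ← sum_filter, sum_const, nsmul_eq_mul] at h1
  rcases mul_eq_zero.1 h1 with h | h
  · have a := Nat.le_of_dvd (card_pos.2 ⟨i0, by simp⟩) ((ZMod.natCast_eq_zero_iff _ _).1 h)
    have b := a.trans (card_filter_le _ _)
    simp only [card_univ, Fintype.card_fin] at b
    omega
  · rcases mul_eq_zero.1 h with h | h
    · exact h0 h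
    · rw [Polynomial.eval_prod, prod_eq_zero_iff] at h
      obtain ⟨i, hi, e⟩ := h
      simp only [Polynomial.eval_sub, Polynomial.eval_X, Polynomial.eval_C, sub_eq_zero] at e
      exact (mem_filter.1 hi).2 e.symm

theorem hom_eq_zero {H : Type} [AddCommGroup H] {ψ : V m →+ H} (h : ∀ i, ψ (Pi.single i 1) = 0)
    (x : V m) : ψ x = 0 := by
  rw [← univ_sum_single x, map_sum]
  refine sum_eq_zero fun i _ => ?_
  have e1 : (Pi.single i (x i) : V m) = x i • Pi.single i 1 := by
    rw [← Pi.single_smul]; simp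
  rw [e1, map_zsmul, h, smul_zero]

def kimOK (s m p : ℕ) : Bool :=
  Nat.blt (2 * m + 1) p && Nat.beq (Bc m s % p) 0 &&
    (List.range m).all fun j => Nat.blt 0 (cK m s (2 * j + 1) % p)

theorem exists_surj {G : Type} [AddCommGroup G] [Fintype G] {p : ℕ} (hp : p.Prime)
    (h : p ∣ Fintype.card G) : ∃ f : G →+ ZMod p, Function.Surjective f := by
  classical
  obtain ⟨ι, _, q, hq, e, ⟨f⟩⟩ := AddCommGroup.equiv_directSum_zmod_of_finite G
  let g := f.trans (DirectSum.addEquivProd fun i => ZMod (q i ^ e i))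
  rw [← Nat.card_eq_fintype_card, Nat.card_congr g.toEquiv, Nat.card_pi] at h
  simp only [Nat.card_zmod] at h
  obtain ⟨i, -, hi⟩ := (Prime.dvd_finsetProd_iff hp.prime _).1 h
  exact ⟨(ZMod.castHom hi (ZMod p)).toAddMonoidHom.comp
    ((Pi.evalAddMonoidHom (fun i => ZMod (q i ^ e i)) i).comp g.toAddMonoidHom),
    (ZMod.castHom_surjective hi).comp ((Function.surjective_eval i).comp g.surjective)⟩

theorem Tiling.unif_zmod {s q : ℕ} {G : Type} [AddCommGroup G] [Fintype G] (T : Tiling m s G)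
    [NeZero q] (hq : q ∣ Bc m s) (f : G →+ ZMod q) (hf : Function.Surjective f) :
    Unif s (f.comp T.φ) (Bc m s / q) ∧ 0 < Bc m s / q := by
  have ho := card_ball_odd (m := m) s
  have := T.unif f hf
  rw [card_ball_Bc] at ho this
  rw [ZMod.card] at this
  exact ⟨this, Nat.div_pos (Nat.le_of_dvd (by omega) hq) (NeZero.pos q)⟩

theorem Tiling.kim {s : ℕ} {G : Type} [AddCommGroup G] [Fintype G] (T : Tiling m s G) (p : ℕ)
    (hp : p.Prime) (h : kimOK s m p = true) : False := by
  have : Fact p.Prime := ⟨hp⟩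
  simp only [kimOK, Bool.and_eq_true, Nat.blt_eq, Nat.beq_eq, List.all_eq_true, List.mem_range] at h
  have hd := Nat.dvd_of_mod_eq_zero h.1.2
  obtain ⟨f, hf⟩ := exists_surj (G := G) hp (by rwa [T.card_eq, card_ball_Bc])
  obtain ⟨hU, hr⟩ := T.unif_zmod hd f hf
  set ψ := f.comp T.φ
  have h1 := kim_zero hU (2 * m) (by omega) fun j hj => (h.2 j (by omega)).ne'
  have h2 := eq_zero_of_pow_sum (p := p) (by omega) (fun i => ψ (Pi.single i 1) ^ 2) fun j a b => by
    have := h1 (2 * j) (by omega) (by omega)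
    rw [pw_eq] at this
    simp only [pow_mul, neg_sq, ← two_mul, ← mul_sum] at this
    refine (mul_eq_zero.1 this).resolve_left fun h2 => ?_
    have := Nat.le_of_dvd (by omega) ((ZMod.natCast_eq_zero_iff 2 p).1 h2)
    omega
  have h3 := hom_eq_zero (ψ := ψ) fun i => pow_eq_zero_iff (two_ne_zero) |>.1 (h2 i)
  rw [← hU 1, card_pos] at hr
  obtain ⟨x, hx⟩ := hr
  exact zero_ne_one ((h3 x).symm.trans (mem_filter.1 hx).2)

end Pool.Agent.Lib.MP_a6e91d_co
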