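import Pool.Agent.Lib.MP_a6e91d_co.Part

set_option autoImplicit false

namespace Pool.Agent.Lib.MP_a6e91d_co
open Finset

variable {m : ℕ}

theorem Fm_succ' (j : ℕ) : Fm m (j + 1) = 2 * (m - j) * Fm m j := by
  rcases le_or_gt j m with h | h
  · exact Fm_succ h
  · unfold Fm
    rw [Nat.descFactorial_eq_zero_iff_lt.2 h, Nat.descFactorial_eq_zero_iff_lt.2 (by omega)]
    simp

def FmP (m0 st : ℤ) : ℕ → Poly
  | 0 => [1]
  | j + 1 => forceP (FmP m0 st j) fun q => pmul [2 * (m0 - j), 2 * st] q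

theorem ev_FmP {m0 st t : ℤ} (h : (m : ℤ) = m0 + st * t) (j : ℕ) : ev t (FmP m0 st j) = Fm m j := by
  induction j with
  | zero => simp [FmP, ev, Fm]
  | succ j ih =>
    simp only [FmP, forceP_eq, ev_pmul, ih, Fm_succ', ev, h]; ring

def Trie.poly (m0 st : ℤ) : Trie → ℕ → Poly
  | .nil, _ => []
  | .leaf c sib, r => padd [c] (sib.poly m0 st r)
  | .node _ ch sib, r => forceP (ch.poly m0 st (r + 1)) fun q =>
      padd (pmul [2 * (m0 - r), 2 * st] q) (sib.poly m0 st r)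

theorem Trie.ev_poly {m0 st t : ℤ} (h : (m : ℤ) = m0 + st * t) (tr : Trie) (r : ℕ) :
    Fm m r * ev t (tr.poly m0 st r) = (tr.paths.map fun p => p.2 * Fm m (r + p.1.length)).sum := by
  induction tr generalizing r with
  | nil => simp [Trie.poly, Trie.paths, ev]
  | leaf c sib ih => simp [Trie.poly, Trie.paths, ev, ev_padd, mul_add, ih, mul_comm]
  | node k ch sib ih1 ih2 =>
    simp only [Trie.poly, Trie.paths, forceP_eq, ev_padd, ev_pmul, List.map_append, List.sum_append,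
      List.map_map, Function.comp_def, List.length_cons, mul_add, ih2, ev]
    congr 1
    have := ih1 (r + 1)
    simp only [show ∀ a, r + 1 + a = r + (a + 1) from fun a => by ring] at this
    rw [← this, Fm_succ', h]; ring

def Trie.ok (tr : Trie) (n : ℕ) : Bool := tr.paths.all fun p => okL p.1 && Nat.beq p.1.sum n

theorem Trie.ok_okL {tr : Trie} {n : ℕ} (h : tr.ok n = true) :
    tr.paths.all (fun p => okL p.1) = true := by
  simp only [Trie.ok, List.all_eq_true, Bool.and_eq_true] at h ⊢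
  exact fun p hp => (h p hp).1

theorem Trie.ok_mem {tr : Trie} {n : ℕ} (h : tr.ok n = true) {p : List ℕ × ℤ} (hp : p ∈ tr.paths) :
    (∀ k ∈ p.1, 1 ≤ k) ∧ p.1.sum = n := by
  simp only [Trie.ok, List.all_eq_true, Bool.and_eq_true, Nat.beq_eq] at h
  exact ⟨(okL_sound (h p hp).1).2, (h p hp).2⟩

def chkW (tT tC : Trie) (o2 : ℤ) (A : List ℕ) : Bool :=
  forceZ (oddL A) fun o => decide (o = 0) ||
    decide (tT.eval A 0 ≤ tC.eval A 0 + bif decide (o = 2) then 2 * o2 else 0)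

def chkU (tC tD : Trie) (o1 : ℤ) (A : List ℕ) : Bool :=
  decide (0 ≤ tC.eval A 0 + tD.eval A 0 + bif decide (oddL A = 1) then o1 else 0)

def chkY (tT : Trie) (den : ℤ) (A : List ℕ) : Bool := decide (den ≤ tT.eval A 0)

def rhsP (m0 st : ℤ) (tC tD : Trie) (o1 o2 : ℤ) : Poly :=
  padd (padd (tC.poly m0 st 0) (tD.poly m0 st 0))
    (padd (psc o1 (FmP m0 st 1)) (psc o2 (FmP m0 st 2)))

theorem ev_negP {t : ℤ} (ht : 0 ≤ t) {p : Poly} (h : negP p = true) : ev t p < 0 := by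
  rcases p with _ | ⟨a, p⟩
  · simp [negP] at h
  · simp only [negP, Bool.and_eq_true, decide_eq_true_eq] at h
    have := mul_nonneg ht (ev_pnonneg ht h.2)
    rw [ev_psc] at this
    simp only [ev]
    linarith [h.1]

/-- factorial multiples of the sphere sizes -/
def QP (m0 st : ℤ) : ℕ → Poly
  | 0 => [1]
  | 1 => [2 * m0, 2 * st]
  | n + 2 => forceP (QP m0 st (n + 1)) fun q =>
      padd (pmul [2 * m0, 2 * st] q) (psc (n * (n + 1)) (QP m0 st n))

theorem ev_QP {m0 st t : ℤ} (h : (m : ℤ) = m0 + st * t) (n : ℕ) :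
    ev t (QP m0 st n) = (n.factorial : ℤ) * S m n := by
  induction n using Nat.twoStepInduction with
  | zero => simp [QP, ev, S_zero]
  | one => simp only [QP, ev, S_one]; push_cast; rw [h]; ring
  | more n ih1 ih2 =>
    have := S_rec (m := m) n
    zify at this
    simp only [QP, forceP_eq, ev_padd, ev_pmul, ev_psc, ih1, ih2, ev, Nat.factorial_succ]
    push_cast
    rw [h] at this
    linear_combination (-((n : ℤ) + 1) * n.factorial) * this

namespace Tiling
variable {s : ℕ} {G : Type} [AddCommGroup G] [DecidableEq G] (T : Tiling m s G)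

theorem sum_pl_Pe (n : ℕ) (l : List (List ℕ × ℤ)) :
    ∑ u ∈ T.L n, pl l (ab u) = (l.map fun p => p.2 * T.Pe n p.1).sum := by
  simpa [Pe] using sum_pl (T.L n) (fun _ => 1) l

theorem lp_main [Finite G] (hs : 1 ≤ s) (h2 : ∀ g : G, g + g = 0 → g = 0) (tT tC tD : Trie)
    (o1 o2 : ℤ) (b : ℕ) (hb : 2 * s + 2 ≤ b ∨ m ≤ b) (okT : tT.ok (s + 1) = true)
    (okC : tC.ok (s + 2) = true) (okD : tD.ok (s + 1) = true)
    (hW : allP (chkW tT tC o2) (2 * s + 2) b (2 * s + 2) [] = true)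
    (hU : allP (chkU tC tD o1) (2 * s + 1) b (2 * s + 1) [] = true)
    {m0 st t : ℤ} (h : (m : ℤ) = m0 + st * t) :
    (tT.paths.map fun p => p.2 * T.Pe (2 * s + 2) p.1).sum ≤ ev t (rhsP m0 st tC tD o1 o2) := by
  have h1 : ∑ w ∈ T.L (2 * s + 2), pl tT.paths (ab w) ≤ ∑ w ∈ T.L (2 * s + 2),
      (pl tC.paths (ab w) + 2 * o2 * if odc w = 2 then 1 else 0) := by
    refine sum_le_sum fun w hw => ?_
    obtain ⟨l, hl, e1, e2⟩ := exists_list _ hW (T.mem_L.1 hw).1 hb
    have := T.odc_ne_zero hs h2 hw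
    simp only [chkW, forceZ_eq, e2, Bool.or_eq_true, decide_eq_true_eq, Bool.cond_decide,
      eval_eq_pl _ (Trie.ok_okL okT) e1, eval_eq_pl _ (Trie.ok_okL okC) e1] at hl
    split_ifs at hl ⊢ <;> omega
  have h3 : ∑ u ∈ T.L (2 * s + 1), (0 : ℤ) ≤ ∑ u ∈ T.L (2 * s + 1),
      (pl tC.paths (ab u) + pl tD.paths (ab u) + o1 * if odc u = 1 then 1 else 0) := by
    refine sum_le_sum fun w hw => ?_
    obtain ⟨l, hl, e1, e2⟩ := exists_list _ hU (T.mem_L.1 hw).1 (by omega)
    simp only [chkU, e2, decide_eq_true_eq, Bool.cond_decide,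
      eval_eq_pl _ (Trie.ok_okL okD) e1, eval_eq_pl _ (Trie.ok_okL okC) e1] at hl
    split_ifs at hl ⊢ <;> omega
  have c1 := T.card_odc h2 (j := 1) le_rfl (by omega)
  have c2 := T.card_odc h2 (j := 2) (by omega) le_rfl
  simp only [sum_add_distrib, ← mul_sum, sum_boole, c1, c2, T.sum_pl_Pe, sum_const_zero] at h1 h3
  have e1 : (N m 1 1 : ℤ) = Fm m 1 := by simp [N_eq, cmp, Fm]
  have e2 : 2 * (N m 2 2 : ℤ) = Fm m 2 := by
    rw [Fm, Nat.descFactorial_eq_factorial_mul_choose, N_eq]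
    simp [cmp, Nat.factorial]; ring
  have a1 := Trie.ev_poly h tC 0
  have a2 := Trie.ev_poly h tD 0
  have f0 : Fm m 0 = 1 := by simp [Fm]
  simp only [f0, one_mul, zero_add] at a1 a2
  have b1 : (tC.paths.map fun p => p.2 * Fm m p.1.length).sum =
      (tC.paths.map fun p => p.2 * T.Pe (2 * s + 1) p.1).sum +
      (tC.paths.map fun p => p.2 * T.Pe (2 * s + 2) p.1).sum := by
    rw [← List.sum_map_add]
    congr 1
    refine List.map_congr_left fun p hp => ?_
    rw [← T.Pe_two (Trie.ok_mem okC hp).1 (Trie.ok_mem okC hp).2, mul_add]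
  have b2 : (tD.paths.map fun p => p.2 * Fm m p.1.length).sum =
      (tD.paths.map fun p => p.2 * T.Pe (2 * s + 1) p.1).sum := by
    congr 1
    refine List.map_congr_left fun p hp => ?_
    rw [← T.Pe_one (Trie.ok_mem okD hp).1 (Trie.ok_mem okD hp).2]
  simp only [rhsP, ev_padd, ev_psc, ev_FmP h, a1, a2, b1, b2, ← e1, ← e2]
  linarith

end Tiling

/-- a certificate -/
structure Cert where
  s : ℕ
  b : ℕ
  den : ℤ
  tT : Trie
  tC : Trie
  tD : Trie
  o1 : ℤ
  o2 : ℤ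

namespace Cert
variable (c : Cert)

def ok : Bool := Nat.ble 1 c.s && c.tT.ok (c.s + 1) && c.tC.ok (c.s + 2) && c.tD.ok (c.s + 1) &&
  decide (0 < c.den)
def W : Bool := allP (chkW c.tT c.tC c.o2) (2 * c.s + 2) c.b (2 * c.s + 2) []
def U : Bool := allP (chkU c.tC c.tD c.o1) (2 * c.s + 1) c.b (2 * c.s + 1) []
def Y : Bool := allP (chkY c.tT c.den) (c.s + 1) c.b (c.s + 1) []

def fin2 (m0 st : ℤ) : Bool :=
  decide (c.tT.paths = [(List.replicate (c.s + 1) 1, c.den)]) &&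
  negP (padd (psc (c.s + 1) (rhsP m0 st c.tC c.tD c.o1 c.o2))
    (psc (-c.den) (pmul [2 * m0 - c.s - 1, 2 * st] (FmP m0 st (c.s + 1)))))

def fin3 (m0 st : ℤ) : Bool :=
  decide (c.tT.paths = [(2 :: List.replicate (c.s - 1) 1, c.den)]) &&
  negP (padd (psc (c.s + 1) (rhsP m0 st c.tC c.tD c.o1 c.o2))
    (psc (-c.den) (pmul [2 * m0 - c.s, 2 * st] (FmP m0 st c.s))))

def fin1 (m0 st k0 k1 : ℤ) : Bool :=
  negP (padd (psc (c.s + 1).factorial (rhsP m0 st c.tC c.tD c.o1 c.o2))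
    (psc (-c.den) (padd (pmul [2 * k0, 2 * k1] (QP m0 st (c.s + 1)))
      (psc (-(c.s + 1)) (pmul [k0, k1] (pmul [k0 + 1, k1] (QP m0 st c.s)))))))

variable {G : Type} [AddCommGroup G] [DecidableEq G] [Finite G] (T : Tiling m c.s G)
  (h2 : ∀ g : G, g + g = 0 → g = 0) (hb : 2 * c.s + 2 ≤ c.b ∨ m ≤ c.b)
  (hok : c.ok = true) (hW : c.W = true) (hU : c.U = true)
include T h2 hb hok hW hU

theorem kill2 {m0 st t : ℕ} (h : m = m0 + st * t) (hd : c.s + 1 ∣ 2 * m)
    (hf : c.fin2 m0 st = true) : False := by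
  simp only [ok, Bool.and_eq_true, Nat.ble_eq, decide_eq_true_eq] at hok
  simp only [fin2, Bool.and_eq_true, decide_eq_true_eq] at hf
  have h' : (m : ℤ) = m0 + st * t := by exact_mod_cast h
  have a := T.lp_main hok.1.1.1.1 h2 _ _ _ _ _ _ hb hok.1.1.1.2 hok.1.1.2 hok.1.2 hW hU h'
  have b := ev_negP (Int.natCast_nonneg t) hf.2
  have d := mul_le_mul_of_nonneg_left (T.T2_lower hd) hok.2.le
  simp only [hf.1, List.map_cons, List.map_nil, List.sum_cons, List.sum_nil, add_zero] at a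
  simp only [ev_padd, ev_psc, ev_pmul, ev_FmP h', ev] at b
  have a' := mul_le_mul_of_nonneg_left a (show (0 : ℤ) ≤ c.s + 1 by positivity)
  rw [h'] at d
  linarith

theorem kill3 {m0 st t : ℕ} (h : m = m0 + st * t) (hd : c.s + 1 ∣ 2 * m + 1)
    (hf : c.fin3 m0 st = true) : False := by
  simp only [ok, Bool.and_eq_true, Nat.ble_eq, decide_eq_true_eq] at hok
  simp only [fin3, Bool.and_eq_true, decide_eq_true_eq] at hf
  have h' : (m : ℤ) = m0 + st * t := by exact_mod_cast h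
  have a := T.lp_main hok.1.1.1.1 h2 _ _ _ _ _ _ hb hok.1.1.1.2 hok.1.1.2 hok.1.2 hW hU h'
  have b := ev_negP (Int.natCast_nonneg t) hf.2
  have d := mul_le_mul_of_nonneg_left (T.T3_lower (n := c.s - 1) (by omega) hd) hok.2.le
  simp only [hf.1, List.map_cons, List.map_nil, List.sum_cons, List.sum_nil, add_zero] at a
  simp only [ev_padd, ev_psc, ev_pmul, ev_FmP h', ev] at b
  have a' := mul_le_mul_of_nonneg_left a (show (0 : ℤ) ≤ c.s + 1 by positivity)
  rw [h'] at d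
  linarith

theorem kill1 (hY : c.Y = true) {m0 st t : ℕ} (k0 k1 : ℤ) (h : m = m0 + st * t)
    (hf : c.fin1 m0 st k0 k1 = true) : False := by
  simp only [ok, Bool.and_eq_true, Nat.ble_eq, decide_eq_true_eq] at hok
  have h' : (m : ℤ) = m0 + st * t := by exact_mod_cast h
  have a := T.lp_main hok.1.1.1.1 h2 _ _ _ _ _ _ hb hok.1.1.1.2 hok.1.1.2 hok.1.2 hW hU h'
  have b := ev_negP (Int.natCast_nonneg t) hf
  simp only [ev_padd, ev_psc, ev_pmul, ev_QP h', ev, Nat.factorial_succ] at b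
  have d : c.den * ∑ y ∈ sph m (c.s + 1), (T.Kt y : ℤ) ≤
      (c.tT.paths.map fun p => p.2 * T.Pe (2 * c.s + 2) p.1).sum := by
    rw [List.map_congr_left fun p hp => congrArg (p.2 * ·)
      (T.Pe_Kt (Trie.ok_mem hok.1.1.1.2 hp).1 (Trie.ok_mem hok.1.1.1.2 hp).2), ← sum_pl, mul_sum]
    refine sum_le_sum fun y hy => ?_
    obtain ⟨l, hl, e1, _⟩ := exists_list _ hY (mem_sph.1 hy) (by omega)
    simp only [chkY, decide_eq_true_eq, eval_eq_pl _ (Trie.ok_okL hok.1.1.1.2) e1] at hl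
    rw [mul_comm]
    exact mul_le_mul_of_nonneg_left hl (Int.natCast_nonneg _)
  have e1 := T.sum_K
  have e2 := T.sum_K_sq
  rw [sum_add_distrib] at e2
  simp only [sum_const, smul_eq_mul, mul_one] at e2
  zify at e1 e2
  set k : ℤ := k0 + t * k1 with hk
  have f : 0 ≤ ∑ x ∈ sph m c.s, ((T.K x : ℤ) * T.K x - (2 * k + 1) * T.K x + k * (k + 1)) := by
    refine sum_nonneg fun x _ => ?_
    have : (0 : ℤ) ≤ ((T.K x : ℤ) - k) * (T.K x - k - 1) := by
      by_cases h : (T.K x : ℤ) - k ≤ 0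
      · exact mul_nonneg_of_nonpos_of_nonpos h (by omega)
      · exact mul_nonneg (by omega) (by omega)
    linarith
  rw [sum_add_distrib, sum_sub_distrib, ← mul_sum, e1, e2, sum_const, nsmul_eq_mul] at f
  have a' := mul_le_mul_of_nonneg_left (d.trans a)
    (show (0 : ℤ) ≤ (c.s + 1) * c.s.factorial by positivity)
  have f' := mul_nonneg (mul_nonneg hok.2.le
    (show (0 : ℤ) ≤ (c.s + 1) * c.s.factorial by positivity)) f
  unfold S at b
  push_cast at b
  have k' : k0 = k - t * k1 := by rw [hk]; ring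
  clear_value k
  subst k'
  linarith

end Cert

end Pool.Agent.Lib.MP_a6e91d_co
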