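import Mathlib

set_option autoImplicit false

namespace Pool.Agent.Lib.MP_a6e91d_co

theorem final_T1 (s M c a0 a1 a2 a3 q : ℚ) (hs : 7 ≤ s) (hM : s * (s + 1) ≤ M)
    (hc : (c = 1 ∧ s * s + 2 * s - 1 ≤ M) ∨ (2 ≤ c ∧ c ≤ s - 1)) (hq : q = (s - 2) / M)
    (p1 : 0 < a1) (p2 : 0 ≤ a2) (r0 : M * a1 ≤ s * a0) (r1 : M * a2 ≤ (s - 1) * a1)
    (r2 : M * a3 ≤ (s - 2) * a2) (G2 G3 : ℚ)
    (hG2 : G2 = s * (s - 1) * a0 - (s - 1) * (2 * s - 3) * a1 + (s - 2) * (s - 2) * a2)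
    (hG3 : G3 = (s - 1) * (s - 2) * a1 - (s - 2) * (2 * s - 5) * a2 + (s - 3) * (s - 3) * a3)
    (h : 0 ≤ ((s - 1) * ((s - 2) * a2) + (s - 1) * a1) + (s * ((s - 1) * a1) + s * a0) +
      (s / (s - 1) * (G2 + G3) + 2 * s / (s - 2) * G3 + s * (s - 1) * a2 *
        (5 + 10 * q + (2 * (s - 4) + 11) * q ^ 2 + (3 * (s - 4) ^ 2 + 22 * (s - 4) + 15) * q ^ 3)) -
      (2 * c + s + 1) * (s * a0 + (s - 1) * a1) + c * (c + s + 1) * a0) : False := by
  have hM0 : 0 < M := by nlinarith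
  have h1 : 0 < s - 1 := by linarith
  have h2 : 0 < s - 2 := by linarith
  have h3 : 0 < s := by linarith
  set τ := 5 + 10 * q + (2 * (s - 4) + 11) * q ^ 2 + (3 * (s - 4) ^ 2 + 22 * (s - 4) + 15) * q ^ 3
    with hτ
  set m2 := s * (s - 2) ^ 2 / (s - 1) - 2 * s * (2 * s - 5) - s * (s - 2) * (2 * s - 5) / (s - 1) +
    (s - 1) * (s - 2) with hm2
  set m3 := (2 * s / (s - 2) + s / (s - 1)) * (s - 3) ^ 2 with hm3
  have e : ((s - 1) * ((s - 2) * a2) + (s - 1) * a1) + (s * ((s - 1) * a1) + s * a0) +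
      (s / (s - 1) * (G2 + G3) + 2 * s / (s - 2) * G3 + s * (s - 1) * a2 * τ) -
      (2 * c + s + 1) * (s * a0 + (s - 1) * a1) + c * (c + s + 1) * a0 =
      -(c * (s - 1 - c)) * a0 + (s - 1) * (s - 2 * c) * a1 + (m2 + s * (s - 1) * τ) * a2 +
        m3 * a3 := by
    rw [hG2, hG3, hm2, hm3]
    field_simp
    ring
  rw [e] at h
  have hm3' : 0 ≤ m3 := by positivity
  have h4 : a3 ≤ q * a2 := by
    rw [hq, div_mul_eq_mul_div, le_div_iff₀ hM0]; linarith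
  have hq0 : 0 ≤ q := by rw [hq]; positivity
  set q0 := (s - 2) / (s * (s + 1)) with hq0d
  have hq1 : q ≤ q0 := by rw [hq, hq0d]; gcongr
  have h5 : 0 ≤ s - 4 := by linarith
  have hΓ : m2 + s * (s - 1) * τ + m3 * q ≤ 3 * s ^ 2 := by
    have a : m2 + s * (s - 1) * τ + m3 * q ≤ m2 + s * (s - 1) *
        (5 + 10 * q0 + (2 * (s - 4) + 11) * q0 ^ 2 +
          (3 * (s - 4) ^ 2 + 22 * (s - 4) + 15) * q0 ^ 3) + m3 * q0 := by
      rw [hτ]; gcongr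
    refine a.trans (sub_nonneg.1 ?_)
    obtain ⟨x, rfl⟩ : ∃ x, s = x + 7 := ⟨s - 7, by ring⟩
    have hx : 0 ≤ x := by linarith
    have b : 3 * (x + 7) ^ 2 - (m2 + (x + 7) * (x + 7 - 1) *
        (5 + 10 * q0 + (2 * (x + 7 - 4) + 11) * q0 ^ 2 +
          (3 * (x + 7 - 4) ^ 2 + 22 * (x + 7 - 4) + 15) * q0 ^ 3) + m3 * q0) =
        (4474064 + 12248428 * x + 11172420 * x ^ 2 + 5291169 * x ^ 3 + 1512410 * x ^ 4 +
          277024 * x ^ 5 + 32920 * x ^ 6 + 2465 * x ^ 7 + 106 * x ^ 8 + 2 * x ^ 9) /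
          ((x + 7 - 1) * ((x + 7) * (x + 7 + 1)) ^ 3) := by
      rw [hm2, hm3, hq0d]
      field_simp
      ring
    rw [b]
    positivity
  have h6 : (m2 + s * (s - 1) * τ) * a2 + m3 * a3 ≤ 3 * s ^ 2 * a2 := by
    have := mul_le_mul_of_nonneg_left h4 hm3'
    have := mul_le_mul_of_nonneg_right hΓ p2
    linarith
  have hc0 : 0 ≤ c * (s - 1 - c) := by
    rcases hc with ⟨rfl, _⟩ | ⟨a, b⟩
    · linarith
    · exact mul_nonneg (by linarith) (by linarith)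
  have h7 : 0 ≤ (-(c * (s - 1 - c)) * M * M + s * (s - 1) * (s - 2 * c) * M +
      3 * s ^ 3 * (s - 1)) * a1 := by
    have t0 : 0 ≤ s * M * (-(c * (s - 1 - c)) * a0 + (s - 1) * (s - 2 * c) * a1 + 3 * s ^ 2 * a2) :=
      mul_nonneg (by positivity) (by linarith)
    have t1 := mul_le_mul_of_nonneg_left r0 (mul_nonneg hc0 hM0.le)
    have t2 := mul_le_mul_of_nonneg_left r1 (by positivity : 0 ≤ 3 * s ^ 3)
    linarith
  have h8 := nonneg_of_mul_nonneg_left h7 p1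
  rcases hc with ⟨rfl, hM1⟩ | ⟨a, b⟩
  · have t1 : (s - 2) * ((s * s + 2 * s - 1) * (3 * s - 1)) ≤ (s - 2) * (M * (M - s * (s - 1))) := by
      refine mul_le_mul_of_nonneg_left (mul_le_mul hM1 (by linarith) (by linarith) hM0.le) h2.le
    obtain ⟨x, rfl⟩ : ∃ x, s = x + 7 := ⟨s - 7, by ring⟩
    have hx : 0 ≤ x := by linarith
    have : 0 ≤ x ^ 2 := by positivity
    have : 0 ≤ x ^ 3 := by positivity
    linarith
  · have t1 : (s - 1) * (s - 2) ≤ c * (s - 1 - c) * (s + 1) - (s - 1) * (s - 2 * c) := by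
      have : 0 ≤ (s - 1 - c) * (c * (s + 1) - 2 * (s - 1)) :=
        mul_nonneg (by linarith) (by nlinarith)
      linarith
    have t2 : s * ((s - 1) * (s - 2)) ≤ c * (s - 1 - c) * M - s * (s - 1) * (s - 2 * c) := by
      have := mul_le_mul_of_nonneg_left hM hc0
      have := mul_le_mul_of_nonneg_left t1 h3.le
      linarith
    have t3 := mul_le_mul hM t2 (by positivity) hM0.le
    have t4 : 0 < s ^ 2 * (s - 1) * (s * s - 4 * s - 2) := by
      have : 0 < s * s - 4 * s - 2 := by nlinarith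
      positivity
    linarith

end Pool.Agent.Lib.MP_a6e91d_co
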