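import Pool.Agent.Lib.MP_a6e91d_co.ReflSound

set_option autoImplicit false

namespace Pool.Agent.Lib.MP_a6e91d_co

theorem check0_true : check0 = true := by decide +kernel
theorem check1_true : check1 = true := by decide +kernel

namespace Tiling
variable {m s : ℕ} {G : Type} [AddCommGroup G] [DecidableEq G]

theorem T2_big (T : Tiling m s G) (hs : 10 ≤ s) (hm : s * (s + 1) ≤ 2 * m) (hd : s + 1 ∣ 2 * m) :
    False := by
  obtain ⟨x, rfl⟩ : ∃ x, s = x + 10 := ⟨s - 10, by omega⟩
  have hc := check0_true
  unfold check0 at hc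
  split at hc
  · simp at hc
  rename_i F hF
  have hxm : x + 12 ≤ m := by nlinarith
  have h1 := T.model.run_sound _ _ _ _ _ _ hF
  have h2 := T.model.checkF_sound [110, 21, 1] 10 [11, 1] F (fun j => Fm_nonneg _)
    (Fm_pos (by omega)) (fun j hj => ?_) hc
  · rw [Model.valT_insAll] at h1
    simp only [Model.valL, Model.val, Model.valT, Model.valF, model, List.map_cons, List.map_nil,
      List.sum_cons, List.sum_nil, ev, if_true, Nat.zero_le, OfNat.ofNat_ne_zero, if_false,
      List.append_nil, Nat.sub_zero] at h1 h2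
    have h3 := T.Pe_ident_ones (2 * (x + 10) + 2) (x + 10) []
    have h4 := T.T2_lower hd
    simp only [List.append_nil, picks, List.map_nil, List.sum_nil] at h3
    have h5 := Fm_succ (m := m) (j := x + 11) (by omega)
    simp only [add_assoc, Nat.reduceAdd] at h1 h2 h3 h4 h5
    push_cast at h3 h4 h5
    linarith
  · have e := Fm_succ (m := m) (j := x + j) (by omega)
    have e2 := Fm_nonneg (m := m) (x + j)
    simp only [model, ev, ← add_assoc, e]
    zify at hm hj
    have hx : (0 : ℤ) ≤ x := by positivity
    refine ⟨by nlinarith, mul_le_mul_of_nonneg_right ?_ e2⟩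
    push_cast
    linarith

theorem T3_big (T : Tiling m s G) (hs : 12 ≤ s) (hm : s * (s + 2) ≤ 2 * m)
    (hd : s + 1 ∣ 2 * m + 1) : False := by
  obtain ⟨x, rfl⟩ : ∃ x, s = x + 12 := ⟨s - 12, by omega⟩
  have hc := check1_true
  unfold check1 at hc
  split at hc
  · simp at hc
  rename_i F hF
  have hxm : x + 14 ≤ m := by nlinarith
  have h1 := T.model.run_sound _ _ _ _ _ _ hF
  have h2 := T.model.checkF_sound [168, 26, 1] 11 [12, 1] F (fun j => Fm_nonneg _)
    (Fm_pos (by omega)) (fun j hj => ?_) hc
  · rw [Model.valT_insAll] at h1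
    simp only [Model.valL, Model.val, Model.valT, Model.valF, model, List.map_cons, List.map_nil,
      List.sum_cons, List.sum_nil, ev, if_true, Nat.zero_le, OfNat.ofNat_ne_zero, if_false,
      List.append_nil, Nat.sub_zero] at h1 h2
    have h3 := T.Pe_ident_ones (2 * (x + 12) + 2) (x + 10) [2]
    have h4 := T.T3_lower (n := x + 11) rfl hd
    rw [T.Pe_perm _ (List.perm_append_singleton 2 _).symm] at h4
    simp only [List.append_nil, picks, List.map_nil, List.sum_nil, List.map_cons,
      List.sum_cons] at h3
    have h5 := Fm_succ (m := m) (j := x + 12) (by omega)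
    simp only [add_assoc, Nat.reduceAdd] at h1 h2 h3 h4 h5
    push_cast at h3 h4 h5
    linarith
  · have e := Fm_succ (m := m) (j := x + j) (by omega)
    have e2 := Fm_nonneg (m := m) (x + j)
    simp only [model, ev, ← add_assoc, e]
    zify at hm hj
    have hx : (0 : ℤ) ≤ x := by positivity
    refine ⟨by nlinarith, mul_le_mul_of_nonneg_right ?_ e2⟩
    push_cast
    linarith

end Tiling

end Pool.Agent.Lib.MP_a6e91d_co
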