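import Pool.Agent.Lib.MP_a6e91d_co.Small
import Pool.Agent.Lib.MP_a6e91d_co.T1
import Pool.Agent.Lib.MP_a6e91d_co.T23
import Pool.Agent.Lib.MP_a6e91d_co.C1
import Pool.Agent.Lib.MP_a6e91d_co.C2
import Pool.Agent.Lib.MP_a6e91d_co.C3
import Pool.Agent.Lib.MP_a6e91d_co.C4

set_option autoImplicit false

namespace Pool.Agent.Lib.MP_a6e91d_co
open Finset

namespace Tiling
variable {m : ℕ} {G : Type} [AddCommGroup G] [Fintype G] [DecidableEq G]

omit [DecidableEq G] in
theorem no_two_torsion {s : ℕ} (T : Tiling m s G) (g : G) (h : g + g = 0) : g = 0 := by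
  have ho := card_ball_odd (m := m) s
  rw [← T.card_eq] at ho
  rw [← AddMonoid.addOrderOf_eq_one_iff]
  refine Nat.eq_one_of_dvd_coprimes (show Nat.Coprime 2 (Fintype.card G) from ?_)
    (addOrderOf_dvd_of_nsmul_eq_zero (by rwa [two_nsmul])) addOrderOf_dvd_card
  rw [Nat.Prime.coprime_iff_not_dvd Nat.prime_two]; omega

theorem large3 (T : Tiling m 3 G) (hm : 12 ≤ 2 * m) :
    False := by
  have h2 := T.no_two_torsion
  have : (m % 2 = 0 ∧ 14 ≤ m) ∨
      (m % 2 = 1 ∧ 9 ≤ m) ∨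
      (m = 6) ∨
      (m = 7) ∨
      (m = 10) ∨
      (m = 8) ∨
      (m = 12) := by omega
  rcases this with h | h | rfl | rfl | rfl | rfl | rfl
  · exact c3T2.kill2 T h2 (.inl le_rfl) c3T2_ok c3T2_W c3T2_U (m0 := 14) (st := 1)
        (t := m - 14) (by omega) (by change 4 ∣ _; omega) c3T2_f
  · exact c3T1.kill1 T h2 (.inl le_rfl) c3T1_ok c3T1_W c3T1_U c3T1_Y _ _
      (t := (m - 9) / 2) (by omega) c3T1_f9
  · exact T.kim 29 (by norm_num) (by decide +kernel)
  · exact T.kim 23 (by norm_num) (by decide +kernel)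
  · exact T.kim 223 (by norm_num) (by decide +kernel)
  · exact three_eight T
  · exact T.three_mod_three (by decide +kernel) (3 : ZMod 13)
      (by decide) (by decide +kernel)

theorem large4 (T : Tiling m 4 G) (hm : 20 ≤ 2 * m) :
    False := by
  have h2 := T.no_two_torsion
  have : (m % 5 = 0 ∧ 20 ≤ m) ∨
      (m % 5 = 2 ∧ 57 ≤ m) ∨
      (m % 5 = 1) ∨
      (m % 5 = 3) ∨
      (m % 5 = 4) ∨
      (m = 10) ∨
      (m = 15) ∨
      (m = 12) ∨
      (m = 17) ∨
      (m = 22) ∨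
      (m = 27) ∨
      (m = 32) ∨
      (m = 37) ∨
      (m = 42) ∨
      (m = 47) ∨
      (m = 52) := by omega
  rcases this with h | h | h | h | h | rfl | rfl | rfl | rfl | rfl | rfl | rfl | rfl | rfl | rfl | rfl
  · exact c4T2.kill2 T h2 (.inl le_rfl) c4T2_ok c4T2_W c4T2_U (m0 := 20) (st := 1)
        (t := m - 20) (by omega) (by change 5 ∣ _; omega) c4T2_f
  · exact c4T3.kill3 T h2 (.inl le_rfl) c4T3_ok c4T3_W c4T3_U (m0 := 57) (st := 1)
        (t := m - 57) (by omega) (by change 5 ∣ _; omega) c4T3_f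
  · exact c4T1.kill1 T h2 (.inl le_rfl) c4T1_ok c4T1_W c4T1_U c4T1_Y _ _
      (t := (m - 11) / 5) (by omega) c4T1_f11
  · exact c4T1.kill1 T h2 (.inl le_rfl) c4T1_ok c4T1_W c4T1_U c4T1_Y _ _
      (t := (m - 13) / 5) (by omega) c4T1_f13
  · exact c4T1.kill1 T h2 (.inl le_rfl) c4T1_ok c4T1_W c4T1_U c4T1_Y _ _
      (t := (m - 14) / 5) (by omega) c4T1_f14
  · exact T.kim 929 (by norm_num) (by decide +kernel)
  · exact T.kim 39041 (by norm_num) (by decide +kernel)
  · exact T.kim 43 (by norm_num) (by decide +kernel)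
  · exact T.kim 63241 (by norm_num) (by decide +kernel)
  · exact T.kim 57347 (by norm_num) (by decide +kernel)
  · exact T.kim 383041 (by norm_num) (by decide +kernel)
  · exact T.kim 6067 (by norm_num) (by decide +kernel)
  · exact T.kim 146849 (by norm_num) (by decide +kernel)
  · exact T.kim 2179241 (by norm_num) (by decide +kernel)
  · exact T.kim 3399041 (by norm_num) (by decide +kernel)
  · exact T.kim 563449 (by norm_num) (by decide +kernel)

theorem large5 (T : Tiling m 5 G) (hm : 30 ≤ 2 * m) :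
    False := by
  have h2 := T.no_two_torsion
  have : (m % 3 = 0 ∧ 21 ≤ m) ∨
      (m % 3 = 1) ∨
      (m % 3 = 2) ∨
      (m = 15) ∨
      (m = 18) := by omega
  rcases this with h | h | h | rfl | rfl
  · exact c5T2.kill2 T h2 (.inl le_rfl) c5T2_ok c5T2_W c5T2_U (m0 := 21) (st := 1)
        (t := m - 21) (by omega) (by change 6 ∣ _; omega) c5T2_f
  · exact c5T1.kill1 T h2 (.inl le_rfl) c5T1_ok c5T1_W c5T1_U c5T1_Y _ _
      (t := (m - 16) / 3) (by omega) c5T1_f16
  · exact c5T1.kill1 T h2 (.inl le_rfl) c5T1_ok c5T1_W c5T1_U c5T1_Y _ _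
      (t := (m - 17) / 3) (by omega) c5T1_f17
  · exact T.kim 7937 (by norm_num) (by decide +kernel)
  · exact T.kim 1451 (by norm_num) (by decide +kernel)

theorem large6 (T : Tiling m 6 G) (hm : 42 ≤ 2 * m) :
    False := by
  have h2 := T.no_two_torsion
  have : (m % 7 = 0) ∨
      (m % 7 = 3 ∧ 31 ≤ m) ∨
      (m % 7 = 1) ∨
      (m % 7 = 2) ∨
      (m % 7 = 4) ∨
      (m % 7 = 5) ∨
      (m % 7 = 6) ∨
      (m = 24) := by omega
  rcases this with h | h | h | h | h | h | h | rfl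
  · exact c6T2.kill2 T h2 (.inl le_rfl) c6T2_ok c6T2_W c6T2_U (m0 := 21) (st := 1)
        (t := m - 21) (by omega) (by change 7 ∣ _; omega) c6T2_f
  · exact c6T3.kill3 T h2 (.inl le_rfl) c6T3_ok c6T3_W c6T3_U (m0 := 31) (st := 1)
        (t := m - 31) (by omega) (by change 7 ∣ _; omega) c6T3_f
  · exact c6T1.kill1 T h2 (.inl le_rfl) c6T1_ok c6T1_W c6T1_U c6T1_Y _ _
      (t := (m - 22) / 7) (by omega) c6T1_f22
  · exact c6T1.kill1 T h2 (.inl le_rfl) c6T1_ok c6T1_W c6T1_U c6T1_Y _ _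
      (t := (m - 23) / 7) (by omega) c6T1_f23
  · exact c6T1.kill1 T h2 (.inl le_rfl) c6T1_ok c6T1_W c6T1_U c6T1_Y _ _
      (t := (m - 25) / 7) (by omega) c6T1_f25
  · exact c6T1.kill1 T h2 (.inl le_rfl) c6T1_ok c6T1_W c6T1_U c6T1_Y _ _
      (t := (m - 26) / 7) (by omega) c6T1_f26
  · exact c6T1.kill1 T h2 (.inl le_rfl) c6T1_ok c6T1_W c6T1_U c6T1_Y _ _
      (t := (m - 27) / 7) (by omega) c6T1_f27
  · exact T.kim 241 (by norm_num) (by decide +kernel)

theorem large_big {s : ℕ} (T : Tiling m s G) (hs : 7 ≤ s)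
    (hm : s * (s + 1) ≤ 2 * m) : False := by
  have h2 := T.no_two_torsion
  obtain ⟨c, hc, hd⟩ : ∃ c, c ≤ s ∧ s + 1 ∣ 2 * m + 1 + c := by
    refine ⟨s - 2 * m % (s + 1), by omega, 2 * m / (s + 1) + 1, ?_⟩
    have a := Nat.div_add_mod (2 * m) (s + 1)
    have b := Nat.mod_lt (2 * m) (show 0 < s + 1 by omega)
    rw [mul_add]; omega
  rcases Nat.eq_zero_or_pos c with rfl | h1
  · rw [add_zero] at hd
    have h3 : s * (s + 2) ≤ 2 * m := by
      obtain ⟨k, hk⟩ := hd
      have : s + 1 ≤ k := by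
        by_contra h
        have := Nat.mul_le_mul_left (s + 1) (show k ≤ s by omega)
        rw [mul_comm (s + 1) s] at this
        omega
      have := Nat.mul_le_mul_left (s + 1) this
      nlinarith
    by_cases h12 : 12 ≤ s
    · exact T.T3_big h12 h3 hd
    have : s = 8 ∨ s = 10 := by
      have : s = 7 ∨ s = 8 ∨ s = 9 ∨ s = 10 ∨ s = 11 := by omega
      rcases this with rfl | rfl | rfl | rfl | rfl <;> omega
    rcases this with rfl | rfl
    · exact c8T3.kill3 T h2 (.inl le_rfl) c8T3_ok c8T3_W c8T3_U (m0 := 40) (st := 1)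
        (t := m - 40) (by omega) (by change 9 ∣ _; omega) c8T3_f
    · exact c10T3.kill3 T h2 (.inl le_rfl) c10T3_ok c10T3_W c10T3_U (m0 := 60) (st := 1)
        (t := m - 60) (by omega) (by change 11 ∣ _; omega) c10T3_f
  rcases hc.eq_or_lt with rfl | h3
  · have hd' : c + 1 ∣ 2 * m := by
      rw [add_assoc, add_comm 1] at hd
      exact (Nat.dvd_add_left (dvd_refl _)).1 hd
    by_cases h10 : 10 ≤ c
    · exact T.T2_big h10 hm hd'
    have : c = 7 ∨ c = 8 ∨ c = 9 := by omega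
    rcases this with rfl | rfl | rfl
    · exact c7T2.kill2 T h2 (.inl le_rfl) c7T2_ok c7T2_W c7T2_U (m0 := 28) (st := 1)
        (t := m - 28) (by omega) (by change 8 ∣ _; omega) c7T2_f
    · exact c8T2.kill2 T h2 (.inl le_rfl) c8T2_ok c8T2_W c8T2_U (m0 := 36) (st := 1)
        (t := m - 36) (by omega) (by change 9 ∣ _; omega) c8T2_f
    · exact c9T2.kill2 T h2 (.inl le_rfl) c9T2_ok c9T2_W c9T2_U (m0 := 45) (st := 1)
        (t := m - 45) (by omega) (by change 10 ∣ _; omega) c9T2_f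
  · exact T.T1_big hs hm h1 h3 hd

/-- no tiling for radius at least three -/
theorem three_le {s : ℕ} (T : Tiling m s G) (hs : 3 ≤ s)
    (hm : 3 ≤ m) : False := by
  by_cases h : 2 * m + 2 ≤ s * (s + 1)
  · exact T.small_range hs hm h
  have h' : s * (s + 1) ≤ 2 * m := by
    obtain ⟨k, hk⟩ := Nat.even_mul_succ_self s
    omega
  by_cases h7 : 7 ≤ s
  · exact T.large_big h7 h'
  have : s = 3 ∨ s = 4 ∨ s = 5 ∨ s = 6 := by omega
  rcases this with rfl | rfl | rfl | rfl
  exacts [T.large3 h', T.large4 h', T.large5 h', T.large6 h']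

theorem two_zero (T : Tiling m 2 G) (hm : 3 ≤ m)
    (h : m % 3 = 0) : False := by
  have h2 := T.no_two_torsion
  exact c2T2.kill2 T h2 (.inl le_rfl) c2T2_ok c2T2_W c2T2_U (m0 := 3) (st := 1)
        (t := m - 3) (by omega) (by change 3 ∣ _; omega) c2T2_f

end Tiling

end Pool.Agent.Lib.MP_a6e91d_co
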