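import Pool.Agent.Lib.MP_a6e91d_co.TwoA

set_option autoImplicit false

namespace Pool.Agent.Lib.MP_a6e91d_co
open Finset

theorem quad3 (W : ℤ) : -2 ≤ W * (W - 3) ∧ (W * (W - 3) ≤ -2 → W = 1 ∨ W = 2) ∧
    (W * (W - 3) ≤ 0 → 0 ≤ W ∧ W ≤ 3) ∧ (W ≤ 0 ∨ 3 ≤ W → 0 ≤ W * (W - 3)) := by
  refine ⟨?_, fun h => ?_, fun h => ⟨?_, ?_⟩, fun h => ?_⟩
  · rcases le_or_gt W 1 with h | h <;> nlinarith
  · by_contra h'
    rcases (show W ≤ 0 ∨ 3 ≤ W by omega) with h | h <;> nlinarith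
  · nlinarith
  · nlinarith
  · rcases h with h | h <;> nlinarith

theorem quad5 (Y : ℤ) : -6 ≤ Y * (Y - 5) ∧ (Y ≤ 1 ∨ 4 ≤ Y → -4 ≤ Y * (Y - 5)) ∧
    (Y ≤ 0 ∨ 5 ≤ Y → 0 ≤ Y * (Y - 5)) := by
  refine ⟨?_, fun h => ?_, fun h => ?_⟩
  · rcases le_or_gt Y 2 with h | h <;> nlinarith
  · rcases h with h | h <;> nlinarith
  · rcases h with h | h <;> nlinarith

variable {G : Type} [AddCommGroup G] [Fintype G] [DecidableEq G]

namespace Two
variable {m : ℕ} (A : Two G m)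
include A

theorem stf (k : ℕ) : ∑ g, tf A.D k g = 2 * m + 1 := by rw [sum_tf, A.hD]; push_cast; rfl
theorem spf (k : ℕ) : ∑ g, pf A.D k g = (2 * m + 1) ^ 2 := by rw [sum_pf, A.hD]; push_cast; rfl
omit [DecidableEq G] in
theorem sone (c : ℤ) : ∑ _g : G, c = (2 * m ^ 2 + 2 * m + 1) * c := by
  rw [sum_const, card_univ, A.hG, nsmul_eq_mul]; push_cast; rfl

theorem dl_cases (g : G) : dl g = 0 ∨ (dl g = 1 ∧ ∀ k, 1 ≤ tf A.D k g) := by
  unfold dl
  split_ifs with h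
  · exact .inr ⟨rfl, fun k => h ▸ A.one_le_tf_zero k⟩
  · exact .inl rfl

theorem case_two (hm : 3 ≤ m) (h : m % 3 = 2) : False := by
  have i4 : Inj G 4 := A.inj2.mul A.inj2
  have h1 : ∀ g ∈ (univ : Finset G), 2 - tf A.D 4 g + tf A.D 2 g - dl g ≤ pf A.D 3 g := by
    intro g _
    obtain ⟨ρ, hρ⟩ := A.cong3 g
    have a := pf_nonneg A.D 3 g
    have b : tf A.D 2 g ≠ 0 → 1 ≤ pf A.D 3 g := fun h => by
      obtain ⟨x, hx, rfl⟩ := exists_of_tf h
      refine le_trans ?_ (single_le_sum (f := fun y => tf A.D 1 (2 • x - 3 • y))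
        (fun _ _ => tf_nonneg _ _ _) hx)
      have := one_le_tf 1 (A.neg x hx)
      rwa [show 2 • x - 3 • x = 1 • -x by abel]
    obtain ⟨j, hj⟩ : ∃ j : ℤ, (m : ℤ) = 3 * j + 2 := ⟨m / 3, by omega⟩
    rw [hj] at hρ
    rcases A.dl_cases g with c | ⟨c, c'⟩
    · rcases tf_cases A.D A.inj2 g with d | d <;> rcases tf_cases A.D i4 g with e | e <;>
        rw [c, d, e] at hρ ⊢ <;> rw [d] at b <;> ring_nf at hρ <;> omega
    · have := c' 2
      have := c' 4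
      rcases tf_cases A.D A.inj2 g with d | d <;> rcases tf_cases A.D i4 g with e | e <;>
        rw [c, d, e] at hρ ⊢ <;> ring_nf at hρ <;> omega
  have h2 := (sum_eq_sum_iff_of_le h1).1 (by
    simp only [sum_sub_distrib, sum_add_distrib, A.stf, A.spf, A.sone, sum_dl]; ring)
  have h3 : ∑ g, pf A.D 3 g ^ 2 ≤ ∑ g, (4 + 5 * tf A.D 2 g - 3 * tf A.D 4 g - 5 * dl g) := by
    refine sum_le_sum fun g hg => ?_
    rw [← h2 g hg]
    rcases A.dl_cases g with c | ⟨c, c'⟩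
    · rcases tf_cases A.D A.inj2 g with d | d <;> rcases tf_cases A.D i4 g with e | e <;>
        rw [c, d, e] <;> norm_num
    · have := c' 2
      have := c' 4
      rcases tf_cases A.D A.inj2 g with d | d <;> rcases tf_cases A.D i4 g with e | e <;>
        first | omega | (rw [c, d, e]; norm_num)
  have h4 := pf_nonneg A.D 3 0
  simp only [sum_sub_distrib, sum_add_distrib, ← mul_sum, A.stf, A.sone, sum_dl,
    A.sum_pf_sq A.inj3] at h3
  have : (5 : ℤ) ≤ m := by omega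
  nlinarith

theorem classify (h : m % 3 = 1) (g : G) :
    (tf A.D 1 g = 0 ∧ tf A.D 3 g = 0 ∧ (pf A.D 2 g = 0 ∨ pf A.D 2 g = 3)) ∨
    (tf A.D 1 g = 1 ∧ tf A.D 3 g = 0 ∧ pf A.D 2 g = 2) ∨
    (tf A.D 1 g = 0 ∧ tf A.D 3 g = 1 ∧ pf A.D 2 g = 2) ∨
    (tf A.D 1 g = 1 ∧ tf A.D 3 g = 1 ∧ pf A.D 2 g = 1) := by
  have h0 : ∀ g, (pf A.D 2 g + tf A.D 1 g + tf A.D 3 g) % 3 = 0 := by
    intro g
    obtain ⟨ρ, hρ⟩ := A.cong2 g
    obtain ⟨j, hj⟩ : ∃ j : ℤ, (m : ℤ) = 3 * j + 1 := ⟨m / 3, by omega⟩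
    rw [hj] at hρ
    rcases tf_cases A.D inj1 g with d | d <;> rw [d] at hρ ⊢ <;> omega
  let F : G → ℤ := fun g =>
    pf A.D 2 g * (pf A.D 2 g - 3) + 2 * tf A.D 1 g + 2 * tf A.D 3 g - 2 * dl g
  have h1 : ∀ g ∈ (univ : Finset G), 0 ≤ F g := by
    intro g _
    have a := h0 g
    have b := quad3 (pf A.D 2 g)
    have c := tf_cases A.D inj1 g
    have d := tf_cases A.D A.inj3 g
    simp only [F]
    rcases A.dl_cases g with e | ⟨e, e'⟩
    · omega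
    · have := e' 1
      have := e' 3
      omega
  have h2 : ∑ g, F g = pf A.D 2 0 - 1 := by
    simp only [F, mul_sub, ← pow_two, sum_sub_distrib, sum_add_distrib, ← mul_sum, ← sum_mul, A.stf,
      A.spf, sum_dl, A.sum_pf_sq A.inj2]
    ring
  have h3 : pf A.D 2 0 = 1 := by
    have a := (single_le_sum h1 (mem_univ 0)).trans_eq h2
    have b := h0 0
    have c := pf_nonneg A.D 2 0
    simp only [F, A.tf_zero inj1, A.tf_zero A.inj3, dl, if_true] at a b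
    by_contra h
    have : 4 ≤ pf A.D 2 0 := by omega
    nlinarith
  rw [h3, sub_self] at h2
  have h4 := (sum_eq_zero_iff_of_nonneg h1).1 h2 g (mem_univ g)
  have a := h0 g
  have b := quad3 (pf A.D 2 g)
  have c := tf_cases A.D inj1 g
  have d := tf_cases A.D A.inj3 g
  simp only [F] at h4
  rcases A.dl_cases g with e | ⟨e, e'⟩
  · omega
  · have := e' 1
    have := e' 3
    omega

theorem cong5' (r a b c : ℤ) (hr : (m : ℤ) % 5 = r)
    (h : (2 * (2 * r + 1) ^ 3 - a) % 5 = 0 ∧ (4 * r + b) % 5 = 0 ∧ (4 * r ^ 2 + 2 * r - c) % 5 = 0)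
    (g : G) : (pf A.D 4 g + tf A.D 5 g - (a + b * pf A.D 2 g + c * tf A.D 1 g)) % 5 = 0 := by
  obtain ⟨ρ, hρ⟩ := A.cong5 g
  obtain ⟨j, hj⟩ : ∃ j : ℤ, (m : ℤ) = 5 * j + r := ⟨m / 5, by omega⟩
  obtain ⟨x, hx⟩ := Int.dvd_of_emod_eq_zero h.1
  obtain ⟨y, hy⟩ := Int.dvd_of_emod_eq_zero h.2.1
  obtain ⟨z, hz⟩ := Int.dvd_of_emod_eq_zero h.2.2
  rw [hj] at hρ
  refine Int.emod_eq_zero_of_dvd ⟨x + 4 * j * (3 * (2 * r + 1) ^ 2 + 30 * j * (2 * r + 1) +
    100 * j ^ 2) - (y + 4 * j) * pf A.D 2 g + (z + 2 * j + 8 * j * r + 20 * j ^ 2) * tf A.D 1 g - ρ,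
    ?_⟩
  linear_combination hρ + hx - pf A.D 2 g * hy + tf A.D 1 g * hz

theorem pf_zero_le (k : ℕ) : pf A.D k 0 ≤ 2 * m + 1 := by
  have := card_nsmul_le_sum (s := A.D) (f := fun y => -tf A.D 1 (0 - k • y)) (n := -1)
    fun y _ => by have := tf_cases A.D inj1 (0 - k • y); omega
  rw [sum_neg_distrib, A.hD, nsmul_eq_mul] at this
  push_cast at this
  unfold pf
  linarith

theorem sumQ : ∑ g, pf A.D 4 g * (pf A.D 4 g - 5) ≤ -8 * m ^ 2 - 14 * m - 4 := by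
  have := A.pf_zero_le 4
  have i4 : Inj G 4 := A.inj2.mul A.inj2
  simp only [mul_sub, ← pow_two, sum_sub_distrib, ← sum_mul, A.spf, A.sum_pf_sq i4]
  linarith

theorem case_one1 (hm : 3 ≤ m) (h : m % 3 = 1) (h5 : m % 5 = 1) : False := by
  have h1 : ∑ g, (12 - 2 * pf A.D 2 g - 3 * tf A.D 5 g - 2 * tf A.D 1 g - 5 * tf A.D 3 g) ≤
      ∑ g, 3 * pf A.D 4 g := sum_le_sum fun g _ => by
    have a := A.cong5' 1 4 1 1 (by omega) (by norm_num) g
    have b := A.classify h g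
    have c := pf_nonneg A.D 4 g
    have d := tf_nonneg A.D 5 g
    omega
  simp only [sum_sub_distrib, ← mul_sum, A.stf, A.spf, A.sone] at h1
  have : (16 : ℤ) ≤ m := by omega
  nlinarith

theorem case_one2 (h : m % 3 = 1) (h5 : m % 5 = 2) : False := by
  have h1 : ∑ g, (-4 * pf A.D 2 g - 18 * tf A.D 5 g - 7 * tf A.D 1 g - 7 * tf A.D 3 g) ≤
      ∑ g, 3 * (pf A.D 4 g * (pf A.D 4 g - 5)) := sum_le_sum fun g _ => by
    have a := A.cong5' 2 0 2 0 (by omega) (by norm_num) g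
    have b := A.classify h g
    have c := quad5 (pf A.D 4 g)
    have d := tf_nonneg A.D 5 g
    omega
  have h2 := A.sumQ
  simp only [sum_sub_distrib, ← mul_sum, A.stf, A.spf] at h1
  have : (7 : ℤ) ≤ m := by omega
  nlinarith

theorem case_one3 (h : m % 3 = 1) (h5 : m % 5 = 3) : False := by
  have h1 : ∑ g, (-12 + 4 * pf A.D 2 g - 18 * tf A.D 5 g - 14 * tf A.D 1 g - 14 * tf A.D 3 g) ≤
      ∑ g, 3 * (pf A.D 4 g * (pf A.D 4 g - 5)) := sum_le_sum fun g _ => by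
    have a := A.cong5' 3 1 3 2 (by omega) (by norm_num) g
    have b := A.classify h g
    have c := quad5 (pf A.D 4 g)
    have d := tf_nonneg A.D 5 g
    omega
  have h2 := A.sumQ
  simp only [sum_sub_distrib, sum_add_distrib, ← mul_sum, A.stf, A.spf, A.sone] at h1
  have : (13 : ℤ) ≤ m := by omega
  nlinarith

theorem case_one4 (h : m % 3 = 1) (h5 : m % 5 = 4) : False := by
  have h1 : ∑ g, (-6 + 2 * pf A.D 2 g - 4 * tf A.D 5 g - 4 * tf A.D 1 g - 2 * tf A.D 3 g) ≤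
      ∑ g, pf A.D 4 g * (pf A.D 4 g - 5) := sum_le_sum fun g _ => by
    have a := A.cong5' 4 3 4 2 (by omega) (by norm_num) g
    have b := A.classify h g
    have c := quad5 (pf A.D 4 g)
    have d := tf_nonneg A.D 5 g
    omega
  have h2 := A.sumQ
  simp only [sum_sub_distrib, sum_add_distrib, ← mul_sum, A.stf, A.spf, A.sone] at h1
  have : (4 : ℤ) ≤ m := by omega
  nlinarith

theorem case_one0 (h : m % 3 = 1) (h5 : m % 5 = 0) : False := by
  have i5 := A.inj5 h5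
  have i4 : Inj G 4 := A.inj2.mul A.inj2
  let z : G → ℤ := fun g => (pf A.D 4 g + tf A.D 5 g) / 5
  have hz : ∀ g, pf A.D 4 g = 2 - tf A.D 5 g + 5 * z g ∧ 0 ≤ z g := by
    intro g
    obtain ⟨ρ, hρ⟩ := A.cong5 g
    obtain ⟨j, hj⟩ : ∃ j : ℤ, (m : ℤ) = 5 * j := ⟨m / 5, by omega⟩
    have a : (5 : ℤ) ∣ pf A.D 4 g + tf A.D 5 g - 2 := ⟨4 * j * (3 + 30 * j + 100 * j ^ 2) -
      4 * j * pf A.D 2 g + (2 * j + 20 * j ^ 2) * tf A.D 1 g - ρ, by
        rw [hj] at hρ; linear_combination hρ⟩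
    have c := pf_nonneg A.D 4 g
    have d := tf_nonneg A.D 5 g
    simp only [z]
    omega
  have hs : ∀ g, z (-g) = z g := fun g => by simp only [z, A.pf_neg, A.tf_neg]
  set Z := ∑ g ∈ univ.erase 0, z g with hZ
  have h1 : ∀ g ∈ univ.erase 0, 2 * z g ≤ Z := by
    intro g hg
    have hg0 := ne_of_mem_erase hg
    have hne : g ≠ -g := fun e => hg0 (A.inj2 g (by rw [two_nsmul]; exact add_eq_zero_iff_eq_neg.2 e))
    have := sum_le_sum_of_subset_of_nonneg (s := {g, -g}) (t := univ.erase 0) (f := z)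
      (by simp [insert_subset_iff, hg0]) fun i _ _ => (hz i).2
    rw [sum_pair hne, hs] at this
    linarith
  have h2 : 5 * (z 0 + Z) = 2 * m := by
    have a := A.spf 4
    rw [sum_congr rfl fun g _ => (hz g).1] at a
    simp only [sum_sub_distrib, sum_add_distrib, ← mul_sum, A.stf, A.sone] at a
    rw [← add_sum_erase _ _ (mem_univ 0)] at a
    linarith
  have h3 : ∑ g ∈ univ.erase 0, 2 * pf A.D 4 g ^ 2 ≤
      ∑ g ∈ univ.erase 0, (8 - 6 * tf A.D 5 g + 40 * z g + 25 * Z * z g) := by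
    refine sum_le_sum fun g hg => ?_
    have a := mul_le_mul_of_nonneg_right (h1 g hg) (hz g).2
    have b := (hz g).2
    rw [(hz g).1]
    rcases tf_cases A.D i5 g with d | d <;> rw [d] <;> nlinarith
  have h4 := A.sum_pf_sq i4
  have h6 := A.stf 5
  have h7 := A.sone 8
  rw [← add_sum_erase _ _ (mem_univ 0)] at h4 h6 h7
  simp only [sum_sub_distrib, sum_add_distrib, ← mul_sum, ← hZ] at h3
  have h8 := hz 0
  rw [A.tf_zero i5] at h8 h6
  have h9 : 0 ≤ Z := sum_nonneg fun g _ => (hz g).2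
  have h10 : (10 : ℤ) ≤ m := by omega
  have h11 : Z = 0 := by
    by_contra hne
    have h12 : 1 ≤ Z := by omega
    have e : (m : ℤ) ^ 2 * 4 = 25 * (z 0 + Z) ^ 2 := by nlinarith
    rw [h8.1] at h4
    nlinarith [mul_nonneg h9 h8.2]
  have h12 : ∀ y ∈ A.D, 4 • y ∈ A.D := by
    intro y hy
    have a : ∑ y ∈ A.D, tf A.D 1 (0 - 4 • y) = ∑ y ∈ A.D, 1 := by
      rw [sum_const, A.hD, nsmul_eq_mul]
      push_cast
      change pf A.D 4 0 = _
      linarith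
    have b := (sum_eq_sum_iff_of_le fun y _ => by
      have := tf_cases A.D inj1 (0 - 4 • y); omega).1 a y hy
    obtain ⟨x, hx, e⟩ := exists_of_tf (b.trans_ne one_ne_zero)
    have := A.neg x hx
    rw [one_smul, zero_sub] at e
    rwa [e, neg_neg] at this
  obtain ⟨b, hb, hb0⟩ := exists_mem_ne (s := A.D) (by rw [A.hD]; omega) 0
  have c1 := h12 b hb
  have c2 := h12 _ c1
  have n1 : 5 • 4 • b ≠ 0 := fun e => hb0 (i4 _ (i5 _ e))
  have n2 : 4 • b ≠ b := fun e => hb0 (A.inj3 b (by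
    rw [← sub_eq_zero.2 e]; abel))
  have d1 := (hz (5 • 4 • b)).1
  have d2 := one_le_tf 5 c1
  have d3 := h1 _ (mem_erase.2 ⟨n1, mem_univ _⟩)
  have d4 := sum_le_sum_of_subset_of_nonneg (s := {4 • b, b}) (t := A.D)
    (f := fun y => tf A.D 1 (5 • 4 • b - 4 • y)) (by simp [insert_subset_iff, hb, c1])
    fun i _ _ => tf_nonneg _ _ _
  rw [sum_pair n2] at d4
  have d5 := one_le_tf 1 c1
  have d6 := one_le_tf 1 c2
  rw [show 5 • 4 • b - 4 • 4 • b = 1 • 4 • b by abel,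
    show 5 • 4 • b - 4 • b = 1 • 4 • 4 • b by abel] at d4
  change _ ≤ pf A.D 4 _ at d4
  omega

theorem mod_three (hm : 3 ≤ m) : m % 3 = 0 := by
  by_contra h
  rcases (show m % 3 = 1 ∨ m % 3 = 2 by omega) with h | h
  · rcases (show m % 5 = 0 ∨ m % 5 = 1 ∨ m % 5 = 2 ∨ m % 5 = 3 ∨ m % 5 = 4 by omega) with
      h5 | h5 | h5 | h5 | h5
    exacts [A.case_one0 h h5, A.case_one1 hm h h5, A.case_one2 h h5, A.case_one3 h h5,
      A.case_one4 h h5]
  · exact A.case_two hm h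

end Two

end Pool.Agent.Lib.MP_a6e91d_co
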