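import Pool.Agent.Lib.MP_a6e91d_co.Large
import Pool.Agent.Lib.MP_a6e91d_co.TwoB
import Pool.Agent.Lib.MP_a6e91d_co.Build

set_option autoImplicit false

namespace Pool.Agent.Lib.MP_a6e91d_co
open Finset

theorem Tiling.elim {m s : ℕ} {G : Type} [AddCommGroup G] [Fintype G] (T : Tiling m s G)
    (hs : 2 ≤ s) (hm : 3 ≤ m) : False := by
  classical
  rcases hs.eq_or_lt with rfl | h
  · obtain ⟨A⟩ := T.two
    exact T.two_zero hm (A.mod_three hm)
  · exact T.three_le h hm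

theorem main {s m n : ℕ} (hs : 2 ≤ s) (hm : 3 ≤ m)
    (hn : n = ∑ i ∈ range (m + 1), Nat.choose m i * Nat.choose s i * 2 ^ i)
    (A : Finset (ZMod n)) (hA : A.card = m)
    (h : ∀ x : ZMod n, ∃ c : ZMod n → ℤ,
      ∑ a ∈ A, |c a| ≤ (s : ℤ) ∧ ∑ a ∈ A, (c a : ZMod n) * a = x) : False := by
  obtain ⟨h1, ⟨T⟩⟩ := tiling_of_set hn A hA h
  have ho := card_ball_odd (m := m) s
  have : NeZero n := ⟨by omega⟩
  exact T.elim hs hm

/-- the statement for an arbitrary finite abelian group -/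
theorem main_group {s m : ℕ} (hs : 2 ≤ s) (hm : 3 ≤ m) {G : Type} [AddCommGroup G] [Fintype G]
    (hn : Fintype.card G = ∑ i ∈ range (m + 1), Nat.choose m i * Nat.choose s i * 2 ^ i)
    (a : Fin m → G) (h : ∀ x : G, ∃ c : Fin m → ℤ, ∑ i, |c i| ≤ (s : ℤ) ∧ ∑ i, c i • a i = x) :
    False := by
  let φ : V m →+ G :=
    { toFun := fun x => ∑ i, x i • a i
      map_zero' := by simp
      map_add' := fun x y => by simp [add_smul, sum_add_distrib] }
  obtain ⟨T⟩ := tiling_of_span (s := s) φ (hn.trans (card_ball s).symm) fun g => by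
    obtain ⟨c, h1, h2⟩ := h g
    refine ⟨c, ?_, h2⟩
    unfold nrm
    zify
    exact h1
  exact T.elim hs hm

end Pool.Agent.Lib.MP_a6e91d_co
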