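import Pool.Agent.Lib.MP_a6e91d_co.Flat

set_option autoImplicit false

namespace Pool.Agent.Lib.MP_a6e91d_co
open Finset

variable {m : ℕ}

def mk2 (i j : Fin m) (k k' : ℕ) : Fin m → ℕ := Pi.single i k + Pi.single j k'

theorem mk2_comm (i j : Fin m) (k k' : ℕ) : mk2 i j k k' = mk2 j i k' k := add_comm _ _

theorem sum_mk2 (i j : Fin m) (k k' : ℕ) : ∑ l, mk2 i j k k' l = k + k' := by
  simp [mk2, sum_add_distrib]

def bx (w : V m) (k k' n : ℕ) : ℕ :=
  ∑ i, ∑ j, if ∀ l, mk2 i j k k' l ≤ (w l).natAbs then box (fun l => (w l).natAbs - mk2 i j k k' l) n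
    else 0

theorem bx_comm (w : V m) (k k' n : ℕ) : bx w k k' n = bx w k' k n := by
  unfold bx
  rw [sum_comm]
  simp only [mk2_comm _ _ k k']

theorem sum_sub_mk2 {w : V m} {i j : Fin m} {k k' : ℕ} (h : ∀ l, mk2 i j k k' l ≤ (w l).natAbs) :
    ∑ l, ((w l).natAbs - mk2 i j k k' l) + (k + k') = nrm w := by
  rw [← sum_mk2 i j k k', ← sum_add_distrib]
  exact sum_congr rfl fun l _ => Nat.sub_add_cancel (h l)

theorem bx_symm (w : V m) {k k' a b : ℕ} (h : a + b + (k + k') = nrm w) :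
    bx w k k' a = bx w k k' b := by
  refine sum_congr rfl fun i _ => sum_congr rfl fun j _ => ?_
  split_ifs with h'
  · have := sum_sub_mk2 h'
    exact box_symm _ (by omega)
  · rfl

theorem bx_flat (w : V m) {k k' a r : ℕ} (h : a + r + (k + k') = nrm w) (h2 : a + 1 ≤ r) :
    (a + 1) * bx w k k' (a + 1) ≤ r * bx w k k' a := by
  unfold bx
  simp only [mul_sum]
  refine sum_le_sum fun i _ => sum_le_sum fun j _ => ?_
  split_ifs with h'
  · have := sum_sub_mk2 h'
    exact box_flat _ (by omega) h2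
  · simp

noncomputable def tg (w : V m) (k k' n : ℕ) : ℕ :=
  ∑ i, ∑ j, ((sph m n).filter fun y => Le y w ∧ k ≤ (y i).natAbs ∧ k' ≤ (w j - y j).natAbs).card

theorem single_le_iff (i : Fin m) (k : ℕ) (a : Fin m → ℕ) :
    (∀ l, (Pi.single i k : Fin m → ℕ) l ≤ a l) ↔ k ≤ a i := by
  refine ⟨fun h => by simpa using h i, fun h l => ?_⟩
  by_cases hl : l = i
  · subst hl; simpa using h
  · simp [Pi.single_eq_of_ne hl]

theorem tg_eq (w : V m) (k k' a : ℕ) : tg w k k' (k + a) = bx w k k' a := by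
  refine sum_congr rfl fun i _ => sum_congr rfl fun j _ => ?_
  have e : ((sph m (k + a)).filter fun y =>
      Le y w ∧ k ≤ (y i).natAbs ∧ k' ≤ (w j - y j).natAbs).card =
      cnt w (Pi.single i k) (Pi.single j k') (∑ l, (Pi.single i k : Fin m → ℕ) l + a) := by
    unfold cnt
    simp only [single_le_iff i k (fun l => (_ : ℤ).natAbs),
      single_le_iff j k' (fun l => (_ : ℤ).natAbs), sum_pi_single', mem_univ, if_true]
  rw [e]
  split_ifs with h
  · exact cnt_eq h a
  · exact cnt_eq_zero h _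

theorem tg_mono (w : V m) {k k' k0 k0' : ℕ} (h : k0 ≤ k) (h' : k0' ≤ k') (n : ℕ) :
    tg w k k' n ≤ tg w k0 k0' n :=
  sum_le_sum fun _ _ => sum_le_sum fun _ _ => card_le_card fun y hy => by
    rw [mem_filter] at hy ⊢
    exact ⟨hy.1, hy.2.1, h.trans hy.2.2.1, h'.trans hy.2.2.2⟩

theorem bx_eq_known (w : V m) (k k' a : ℕ) : bx w k k' a =
    ∑ i, ∑ j, ((sph m (k + k' + a)).filter fun y =>
      Le y w ∧ ∀ l, mk2 i j k k' l ≤ (y l).natAbs).card := by
  refine sum_congr rfl fun i _ => sum_congr rfl fun j _ => ?_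
  have e : ((sph m (k + k' + a)).filter fun y =>
      Le y w ∧ ∀ l, mk2 i j k k' l ≤ (y l).natAbs).card =
      cnt w (mk2 i j k k') 0 (∑ l, mk2 i j k k' l + a) := by
    unfold cnt
    simp [sum_mk2]
  rw [e]
  split_ifs with h
  · simpa using (cnt_eq (κ' := 0) (by simpa using h) a).symm
  · exact (cnt_eq_zero (by simpa using h) _).symm

/-- number of points of norm `n` whose absolute values dominate `κ` -/
noncomputable def dom (κ : Fin m → ℕ) (n : ℕ) : ℕ :=
  ((sph m n).filter fun y => ∀ l, κ l ≤ (y l).natAbs).card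

theorem dom_shift {κ : Fin m → ℕ} {i : Fin m} (h : 1 ≤ κ i) (n : ℕ) :
    dom (κ + Pi.single i 1) (n + 1) = dom κ n := by
  unfold dom
  refine card_bij' (fun y _ => y + Pi.single i (-(y i).sign))
    (fun y _ => y + Pi.single i (y i).sign) ?_ ?_ ?_ ?_
  · intro y hy
    simp only [mem_filter, mem_sph] at hy ⊢
    have h1 := hy.2 i
    have h2 := nrm_add_single y i (-(y i).sign)
    simp only [Pi.add_apply, Pi.single_eq_same] at h1
    have h3 : (y i + -(y i).sign).natAbs + 1 = (y i).natAbs := by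
      rcases lt_trichotomy (y i) 0 with h' | h' | h'
      · rw [Int.sign_eq_neg_one_of_neg h']; omega
      · omega
      · rw [Int.sign_eq_one_of_pos h']; omega
    refine ⟨by omega, fun l => ?_⟩
    by_cases hl : l = i
    · subst hl; simp only [Pi.add_apply, Pi.single_eq_same]; omega
    · simpa [Pi.single_eq_of_ne hl] using hy.2 l
  · intro y hy
    simp only [mem_filter, mem_sph] at hy ⊢
    have h1 := hy.2 i
    have h2 := nrm_add_single y i (y i).sign
    have h3 : (y i + (y i).sign).natAbs = (y i).natAbs + 1 := by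
      rcases lt_trichotomy (y i) 0 with h' | h' | h'
      · rw [Int.sign_eq_neg_one_of_neg h']; omega
      · omega
      · rw [Int.sign_eq_one_of_pos h']; omega
    refine ⟨by omega, fun l => ?_⟩
    by_cases hl : l = i
    · subst hl; simp only [Pi.add_apply, Pi.single_eq_same]; omega
    · simpa [Pi.single_eq_of_ne hl] using hy.2 l
  · intro y hy
    simp only [mem_filter, mem_sph] at hy
    have h1 := hy.2 i
    simp only [Pi.add_apply, Pi.single_eq_same] at h1 ⊢
    have h3 : (y i + -(y i).sign).sign = (y i).sign := by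
      rcases lt_trichotomy (y i) 0 with h' | h' | h'
      · rw [Int.sign_eq_neg_one_of_neg h', Int.sign_eq_neg_one_of_neg (by omega)]
      · omega
      · rw [Int.sign_eq_one_of_pos h', Int.sign_eq_one_of_pos (by omega)]
    rw [h3, add_assoc, ← Pi.single_add]; simp
  · intro y hy
    simp only [mem_filter, mem_sph] at hy
    have h1 := hy.2 i
    simp only [Pi.add_apply, Pi.single_eq_same] at h1 ⊢
    have h3 : (y i + (y i).sign).sign = (y i).sign := by
      rcases lt_trichotomy (y i) 0 with h' | h' | h'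
      · rw [Int.sign_eq_neg_one_of_neg h', Int.sign_eq_neg_one_of_neg (by omega)]
      · omega
      · rw [Int.sign_eq_one_of_pos h', Int.sign_eq_one_of_pos (by omega)]
    rw [h3, add_assoc, ← Pi.single_add]; simp

noncomputable def Gm (m k k' n : ℕ) : ℕ := ∑ i : Fin m, ∑ j : Fin m, dom (mk2 i j k k') n

theorem Gm_comm (k k' n : ℕ) : Gm m k k' n = Gm m k' k n := by
  unfold Gm
  rw [sum_comm]
  simp only [mk2_comm _ _ k k']

theorem Gm_shift (k k' n : ℕ) : Gm m (k + 1 + 1) k' (n + 1) = Gm m (k + 1) k' n := by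
  refine sum_congr rfl fun i _ => sum_congr rfl fun j _ => ?_
  rw [← dom_shift (κ := mk2 i j (k + 1) k') (i := i) (by simp [mk2]; omega)]
  congr 1
  simp only [mk2, Pi.single_add]; abel

theorem Gm_shift' (k k' n : ℕ) : Gm m (k + 1) k' (n + k) = Gm m 1 k' n := by
  induction k with
  | zero => rfl
  | succ k ih => rw [← add_assoc n, Gm_shift, ih]

noncomputable def Gb (m b : ℕ) : ℕ := Gm m 1 1 (b + 2)

theorem Gm_eq {k k' : ℕ} (hk : 1 ≤ k) (hk' : 1 ≤ k') (b : ℕ) : Gm m k k' (k + k' + b) = Gb m b := by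
  obtain ⟨k, rfl⟩ : ∃ j, k = j + 1 := ⟨k - 1, by omega⟩
  obtain ⟨k', rfl⟩ : ∃ j, k' = j + 1 := ⟨k' - 1, by omega⟩
  rw [show k + 1 + (k' + 1) + b = b + 2 + k' + k by ring, Gm_shift', Gm_comm, Gm_shift', Gb]

theorem sum_dom_single (n : ℕ) :
    ∑ i : Fin m, dom (Pi.single i 1) n = ∑ x ∈ sph m n, sup x := by
  unfold dom sup
  simp only [card_filter]
  rw [sum_comm]
  refine sum_congr rfl fun x _ => sum_congr rfl fun i _ => ?_
  simp only [single_le_iff i 1 (fun l => (x l).natAbs)]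
  split_ifs <;> omega

theorem Gb_eq' (b : ℕ) : Gb m b + ∑ y ∈ sph m (b + 2), sup y =
    ∑ y ∈ sph m (b + 2), sup y * sup y + ∑ x ∈ sph m (b + 1), sup x := by
  have h1 : ∀ i : Fin m, dom (mk2 i i 1 1) (b + 2) = dom (Pi.single i 1) (b + 1) := fun i =>
    dom_shift (κ := Pi.single i 1) (i := i) (by simp) (b + 1)
  have h2 : ∑ y ∈ sph m (b + 2), sup y * sup y =
      ∑ i : Fin m, ∑ j : Fin m, ((sph m (b + 2)).filter fun y => y i ≠ 0 ∧ y j ≠ 0).card := by
    simp only [sup, card_filter, sum_mul_sum]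
    rw [sum_comm]
    refine sum_congr rfl fun i _ => ?_
    rw [sum_comm]
    refine sum_congr rfl fun j _ => sum_congr rfl fun y _ => ?_
    by_cases h : y i = 0 <;> by_cases h' : y j = 0 <;> simp [h, h']
  rw [h2, ← sum_dom_single, ← sum_dom_single, Gb, Gm, ← sum_add_distrib, ← sum_add_distrib]
  refine sum_congr rfl fun i _ => ?_
  rw [← add_sum_erase _ _ (mem_univ i), ← add_sum_erase _ (fun j =>
    ((sph m (b + 2)).filter fun y => y i ≠ 0 ∧ y j ≠ 0).card) (mem_univ i), h1]
  have e1 : ((sph m (b + 2)).filter fun y => y i ≠ 0 ∧ y i ≠ 0).card =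
      dom (Pi.single i 1) (b + 2) := by
    unfold dom
    congr 1
    refine filter_congr fun y _ => ?_
    rw [single_le_iff i 1 (fun l => (y l).natAbs)]
    omega
  have e2 : ∑ j ∈ univ.erase i, dom (mk2 i j 1 1) (b + 2) =
      ∑ j ∈ univ.erase i, ((sph m (b + 2)).filter fun y => y i ≠ 0 ∧ y j ≠ 0).card := by
    refine sum_congr rfl fun j hj => ?_
    have hj' := ne_of_mem_erase hj
    unfold dom
    congr 1
    refine filter_congr fun y _ => ⟨fun h => ⟨?_, ?_⟩, fun h l => ?_⟩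
    · have := h i
      simp only [mk2, Pi.add_apply, Pi.single_eq_same] at this; omega
    · have := h j
      simp only [mk2, Pi.add_apply, Pi.single_eq_same] at this; omega
    · simp only [mk2, Pi.add_apply, Pi.single_apply]
      split_ifs with h1 h2 h2
      · exact absurd (h2.symm.trans h1) hj'
      · subst h1; omega
      · subst h2; omega
      · omega
  rw [e1, e2]
  omega

theorem Gb_eq (b : ℕ) : Gb m b + (b + 1) * (2 * b + 1) * S m (b + 1) =
    (b + 2) * (b + 1) * S m (b + 2) + b * b * S m b := by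
  have h0 := Gb_eq' (m := m) b
  have h1 := sum_sup_add (m := m) b
  have h2 := sum_sup_add (m := m) (b + 1)
  have h3 := sum_exc_sq (m := m) b
  have h4 := sum_exc (m := m) (b + 1)
  have h5 : ∑ y ∈ sph m (b + 2), (sup y * sup y + 2 * (b + 2) * exc y) =
      ∑ y ∈ sph m (b + 2), ((b + 2) * (b + 2) + exc y * exc y) := by
    refine sum_congr rfl fun y hy => ?_
    rw [← mem_sph.1 hy, ← sup_add_exc y]; ring
  rw [sum_add_distrib, sum_add_distrib, ← mul_sum, h3, sum_const, smul_eq_mul] at h5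
  rw [show b + 1 + 1 = b + 2 from rfl] at h2 h4
  rw [h4] at h5
  have e : (sph m (b + 2)).card = S m (b + 2) := rfl
  rw [e] at h5
  zify at h0 h1 h2 h5 ⊢
  linear_combination h0 + h5 + h1 - h2

theorem Gb_le {b : ℕ} (hm : b ≤ 2 * m) : Gb m b ≤ (b + 2) * (b + 1) * S m (b + 2) := by
  have h := Gb_eq (m := m) b
  have h1 := S_ratio (m := m) b
  have h3 : b * b * S m b ≤ (b + 1) * (2 * b + 1) * S m (b + 1) := by
    calc b * b * S m b ≤ b * (2 * m) * S m b := by gcongr
      _ = b * (2 * m * S m b) := by ring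
      _ ≤ b * ((b + 1) * S m (b + 1)) := by gcongr
      _ ≤ (2 * b + 1) * ((b + 1) * S m (b + 1)) := by gcongr; omega
      _ = _ := by ring
  omega

namespace Tiling
variable {s : ℕ} {G : Type} [AddCommGroup G] [DecidableEq G] (T : Tiling m s G)

noncomputable def X (n k k' a : ℕ) : ℕ := ∑ w ∈ T.L n, bx w k k' a

theorem X_comm (n k k' a : ℕ) : T.X n k k' a = T.X n k' k a :=
  sum_congr rfl fun w _ => bx_comm w k k' a

theorem X_symm {n k k' a b : ℕ} (h : a + b + (k + k') = n) : T.X n k k' a = T.X n k k' b :=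
  sum_congr rfl fun w hw => bx_symm w (h.trans (T.mem_L.1 hw).1.symm)

theorem X_flat {n k k' a r : ℕ} (h : a + r + (k + k') = n) (h2 : a + 1 ≤ r) :
    (a + 1) * T.X n k k' (a + 1) ≤ r * T.X n k k' a := by
  unfold X
  rw [mul_sum, mul_sum]
  exact sum_le_sum fun w hw => bx_flat w (h.trans (T.mem_L.1 hw).1.symm) h2

theorem X_eq (n k k' a : ℕ) : T.X n k k' a = ∑ i, ∑ j,
    ∑ y ∈ (sph m (k + k' + a)).filter (fun y => ∀ l, mk2 i j k k' l ≤ (y l).natAbs),
      (T.up n y).card := by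
  unfold X
  simp only [bx_eq_known]
  rw [sum_comm]
  refine sum_congr rfl fun i _ => ?_
  rw [sum_comm]
  refine sum_congr rfl fun j _ => ?_
  simp only [up, card_filter, sum_filter]
  rw [sum_comm]
  refine sum_congr rfl fun y _ => ?_
  split_ifs with h <;> simp [h]

theorem X_one {k k' b : ℕ} (hk : 1 ≤ k) (hk' : 1 ≤ k') (h : k + k' + b = s + 1) :
    T.X (2 * s + 1) k k' b = Gb m b := by
  rw [X_eq, ← Gm_eq hk hk']
  refine sum_congr rfl fun i _ => sum_congr rfl fun j _ => ?_
  rw [dom, card_eq_sum_ones]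
  exact sum_congr rfl fun y hy => T.cover1 ((mem_sph.1 (mem_filter.1 hy).1).trans h)

theorem X_two {k k' b : ℕ} (hk : 1 ≤ k) (hk' : 1 ≤ k') (h : k + k' + b = s + 2) :
    T.X (2 * s + 1) k k' b + T.X (2 * s + 2) k k' b = Gb m b := by
  rw [X_eq, X_eq, ← Gm_eq hk hk', ← sum_add_distrib]
  refine sum_congr rfl fun i _ => ?_
  rw [← sum_add_distrib]
  refine sum_congr rfl fun j _ => ?_
  rw [dom, card_eq_sum_ones, ← sum_add_distrib]
  exact sum_congr rfl fun y hy => T.cover2 ((mem_sph.1 (mem_filter.1 hy).1).trans h)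

end Tiling

theorem S_desc (p r : ℕ) (hr : r ≤ p) : (2 * m) ^ r * S m (p - r) ≤ p ^ r * S m p := by
  induction r with
  | zero => simp
  | succ r ih =>
    have h1 := S_ratio (m := m) (p - (r + 1))
    rw [show p - (r + 1) + 1 = p - r by omega] at h1
    calc (2 * m) ^ (r + 1) * S m (p - (r + 1)) = (2 * m) ^ r * (2 * m * S m (p - (r + 1))) := by ring
      _ ≤ (2 * m) ^ r * ((p - r) * S m (p - r)) := by gcongr
      _ ≤ (2 * m) ^ r * (p * S m (p - r)) := by gcongr; omega
      _ = p * ((2 * m) ^ r * S m (p - r)) := by ring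
      _ ≤ p * (p ^ r * S m p) := Nat.mul_le_mul_left _ (ih (by omega))
      _ = _ := by ring

/-- the general tail bound, for a sequence `x` that is flat around `b` -/
theorem tail_bound {p b a : ℕ} (x : ℕ → ℕ)
    (hflat : ∀ j r, j + r = b + (p + 2) → j + 1 ≤ r → (j + 1) * x (j + 1) ≤ r * x j)
    (hb : x b ≤ (b + 2) * (b + 1) * S m (b + 2)) (h1 : b + 1 ≤ a) (h2 : 2 * a ≤ b + (p + 2) + 1)
    (h3 : a ≤ p) (h4 : b + 2 ≤ p) :
    (2 * m) ^ (p - (b + 2)) * x a ≤ (p + 2) * (p + 1) * p ^ (p - (b + 2)) * S m p := by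
  have s1 : x (b + 1) ≤ (p + 2) * (b + 2) * S m (b + 2) := by
    have := hflat b (p + 2) rfl (by omega)
    refine Nat.le_of_mul_le_mul_left (c := b + 1) ?_ (by omega)
    calc _ ≤ (p + 2) * x b := this
      _ ≤ (p + 2) * ((b + 2) * (b + 1) * S m (b + 2)) := Nat.mul_le_mul_left _ hb
      _ = _ := by ring
  have s2 : ∀ e, 2 * (b + 2 + e) ≤ b + (p + 2) + 1 →
      (2 * m) ^ e * x (b + 2 + e) ≤ (p + 2) * (p + 1) * p ^ e * S m (b + 2 + e) := by
    intro e
    induction e with
    | zero =>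
      intro _
      have := hflat (b + 1) (p + 1) (by omega) (by omega)
      simp only [pow_zero, one_mul, mul_one, add_zero]
      refine Nat.le_of_mul_le_mul_left (c := b + 2) ?_ (by omega)
      calc _ ≤ (p + 1) * x (b + 1) := this
        _ ≤ (p + 1) * ((p + 2) * (b + 2) * S m (b + 2)) := Nat.mul_le_mul_left _ s1
        _ = _ := by ring
    | succ e ih =>
      intro he
      have h5 := hflat (b + 2 + e) (p - e) (by omega) (by omega)
      have h6 := S_ratio (m := m) (b + 2 + e)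
      have h7 := ih (by omega)
      refine Nat.le_of_mul_le_mul_left (c := b + 2 + e + 1) ?_ (by omega)
      calc (b + 2 + e + 1) * ((2 * m) ^ (e + 1) * x (b + 2 + (e + 1)))
          = (2 * m) ^ (e + 1) * ((b + 2 + e + 1) * x (b + 2 + e + 1)) := by
            rw [← add_assoc (b + 2)]; ring
        _ ≤ (2 * m) ^ (e + 1) * (p * x (b + 2 + e)) :=
            Nat.mul_le_mul_left _ (h5.trans (Nat.mul_le_mul_right _ (by omega)))
        _ = 2 * m * p * ((2 * m) ^ e * x (b + 2 + e)) := by ring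
        _ ≤ 2 * m * p * ((p + 2) * (p + 1) * p ^ e * S m (b + 2 + e)) := Nat.mul_le_mul_left _ h7
        _ = (p + 2) * (p + 1) * p ^ (e + 1) * (2 * m * S m (b + 2 + e)) := by ring
        _ ≤ (p + 2) * (p + 1) * p ^ (e + 1) * ((b + 2 + e + 1) * S m (b + 2 + e + 1)) :=
            Nat.mul_le_mul_left _ h6
        _ = _ := by rw [← add_assoc (b + 2)]; ring
  by_cases ha : a = b + 1
  · have h5 := S_desc (m := m) p (p - (b + 2)) (by omega)
    rw [show p - (p - (b + 2)) = b + 2 by omega] at h5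
    rw [ha]
    calc _ ≤ (2 * m) ^ (p - (b + 2)) * ((p + 2) * (p + 1) * S m (b + 2)) :=
          Nat.mul_le_mul_left _ (s1.trans (Nat.mul_le_mul_right _ (Nat.mul_le_mul_left _ (by omega))))
      _ = (p + 2) * (p + 1) * ((2 * m) ^ (p - (b + 2)) * S m (b + 2)) := by ring
      _ ≤ (p + 2) * (p + 1) * (p ^ (p - (b + 2)) * S m p) := Nat.mul_le_mul_left _ h5
      _ = _ := by ring
  · obtain ⟨e, rfl⟩ : ∃ e, a = b + 2 + e := ⟨a - (b + 2), by omega⟩
    have h5 := S_desc (m := m) p (p - (b + 2 + e)) (by omega)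
    rw [show p - (p - (b + 2 + e)) = b + 2 + e by omega] at h5
    rw [show p - (b + 2) = (p - (b + 2 + e)) + e by omega, pow_add, pow_add]
    calc _ = (2 * m) ^ (p - (b + 2 + e)) * ((2 * m) ^ e * x (b + 2 + e)) := by ring
      _ ≤ (2 * m) ^ (p - (b + 2 + e)) * ((p + 2) * (p + 1) * p ^ e * S m (b + 2 + e)) :=
          Nat.mul_le_mul_left _ (s2 e h2)
      _ = (p + 2) * (p + 1) * p ^ e * ((2 * m) ^ (p - (b + 2 + e)) * S m (b + 2 + e)) := by ring
      _ ≤ (p + 2) * (p + 1) * p ^ e * (p ^ (p - (b + 2 + e)) * S m p) := Nat.mul_le_mul_left _ h5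
      _ = _ := by ring

end Pool.Agent.Lib.MP_a6e91d_co
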