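import Pool.Agent.Lib.MP_a6e91d_co.Marks

set_option autoImplicit false

namespace Pool.Agent.Lib.MP_a6e91d_co
open Finset

variable {m : ℕ}

def psi (a : Fin m → ℕ) : List (ℕ → ℤ) → Finset (Fin m) → ℤ
  | [], _ => 1
  | f :: L, S => ∑ i ∈ S, f (a i) * psi a L (S.erase i)

def exq (k x : ℕ) : ℤ := if k ≤ x then 1 else 0
def tl (k x : ℕ) : ℤ := ((x + 1 - k : ℕ) : ℤ)

theorem psi_swap (a : Fin m → ℕ) (f g : ℕ → ℤ) (L : List (ℕ → ℤ)) (S : Finset (Fin m)) :
    psi a (f :: g :: L) S = psi a (g :: f :: L) S := by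
  simp only [psi, mul_sum]
  rw [sum_sigma', sum_sigma']
  refine sum_bij' (fun p _ => ⟨p.2, p.1⟩) (fun p _ => ⟨p.2, p.1⟩) ?_ ?_ (fun _ _ => rfl)
    (fun _ _ => rfl) ?_
  · rintro ⟨i, j⟩ h
    simp only [mem_sigma, mem_erase] at h ⊢
    exact ⟨h.2.2, h.2.1.symm, h.1⟩
  · rintro ⟨i, j⟩ h
    simp only [mem_sigma, mem_erase] at h ⊢
    exact ⟨h.2.2, h.2.1.symm, h.1⟩
  · rintro ⟨i, j⟩ _
    simp only
    rw [erase_right_comm]; ring

theorem psi_perm (a : Fin m → ℕ) {L L' : List (ℕ → ℤ)} (h : L.Perm L') (S : Finset (Fin m)) :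
    psi a L S = psi a L' S := by
  induction h generalizing S with
  | nil => rfl
  | cons f _ ih => simp only [psi, ih]
  | swap f g L => exact psi_swap a g f L S
  | trans _ _ ih1 ih2 => exact (ih1 S).trans (ih2 S)

/-- exact marks only -/
def pe (a : Fin m → ℕ) (L : List ℕ) (S : Finset (Fin m)) : ℤ := psi a (L.map exq) S
/-- one tail mark and exact marks -/
def pt (a : Fin m → ℕ) (t : ℕ) (L : List ℕ) (S : Finset (Fin m)) : ℤ := psi a (tl t :: L.map exq) S

theorem pe_perm (a : Fin m → ℕ) {L L' : List ℕ} (h : L.Perm L') (S : Finset (Fin m)) :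
    pe a L S = pe a L' S := psi_perm a (h.map exq) S

theorem pt_perm (a : Fin m → ℕ) (t : ℕ) {L L' : List ℕ} (h : L.Perm L') (S : Finset (Fin m)) :
    pt a t L S = pt a t L' S := psi_perm a ((h.map exq).cons _) S

theorem pe_cons (a : Fin m → ℕ) (k : ℕ) (L : List ℕ) (S : Finset (Fin m)) :
    pe a (k :: L) S = ∑ i ∈ S, exq k (a i) * pe a L (S.erase i) := rfl

theorem pt_eq (a : Fin m → ℕ) (t : ℕ) (L : List ℕ) (S : Finset (Fin m)) :
    pt a t L S = ∑ i ∈ S, tl t (a i) * pe a L (S.erase i) := rfl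

theorem pe_nonneg (a : Fin m → ℕ) (L : List ℕ) (S : Finset (Fin m)) : 0 ≤ pe a L S := by
  induction L generalizing S with
  | nil => exact zero_le_one
  | cons k L ih =>
    exact sum_nonneg fun i _ => mul_nonneg (by unfold exq; split_ifs <;> simp) (ih _)

theorem pt_nonneg (a : Fin m → ℕ) (t : ℕ) (L : List ℕ) (S : Finset (Fin m)) : 0 ≤ pt a t L S :=
  sum_nonneg fun _ _ => mul_nonneg (Int.natCast_nonneg _) (pe_nonneg a L _)

theorem pt_split (a : Fin m → ℕ) (t : ℕ) (L : List ℕ) (S : Finset (Fin m)) :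
    pt a t L S = pe a (t :: L) S + pt a (t + 1) L S := by
  rw [pt_eq, pt_eq, pe_cons, ← sum_add_distrib]
  refine sum_congr rfl fun i _ => ?_
  rw [← add_mul]
  congr 1
  unfold tl exq
  split_ifs <;> omega

def picks : List ℕ → List (ℕ × List ℕ)
  | [] => []
  | k :: L => (k, L) :: (picks L).map fun p => (p.1, k :: p.2)

theorem sum_mul_list_sum {α : Type*} (S : Finset (Fin m)) (f : Fin m → ℤ) (l : List α)
    (g : α → Fin m → ℤ) :
    ∑ i ∈ S, f i * (l.map fun p => g p i).sum = (l.map fun p => ∑ i ∈ S, f i * g p i).sum := by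
  induction l with
  | nil => simp
  | cons p l ih => simp only [List.map_cons, List.sum_cons, mul_add, sum_add_distrib, ih]

theorem pe_identity (a : Fin m → ℕ) (L : List ℕ) (S : Finset (Fin m)) :
    ((∑ i ∈ S, a i : ℕ) : ℤ) * pe a L S = pt a 1 L S + (L.sum : ℕ) * pe a L S +
      ((picks L).map fun p => pt a (p.1 + 1) p.2 S).sum := by
  induction L generalizing S with
  | nil => simp [pe, pt, psi, picks, tl]
  | cons k L ih =>
    have h1 : ∀ i ∈ S, ((∑ i ∈ S, a i : ℕ) : ℤ) * (exq k (a i) * pe a L (S.erase i)) =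
        (k * (exq k (a i) * pe a L (S.erase i)) + tl (k + 1) (a i) * pe a L (S.erase i)) +
        (exq k (a i) * pt a 1 L (S.erase i) + (L.sum : ℕ) * (exq k (a i) * pe a L (S.erase i)) +
          exq k (a i) * ((picks L).map fun p => pt a (p.1 + 1) p.2 (S.erase i)).sum) := by
      intro i hi
      have e1 : exq k (a i) * a i = k * exq k (a i) + tl (k + 1) (a i) := by
        unfold tl exq
        split_ifs <;> omega
      rw [← add_sum_erase _ _ hi, Nat.cast_add]
      linear_combination pe a L (S.erase i) * e1 + exq k (a i) * ih (S.erase i)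
    rw [pe_cons, mul_sum, sum_congr rfl h1]
    simp only [sum_add_distrib, ← mul_sum]
    rw [sum_mul_list_sum S (fun i => exq k (a i)) (picks L)
      (fun p i => pt a (p.1 + 1) p.2 (S.erase i)), ← pt_eq]
    have e2 : ∀ t L', ∑ i ∈ S, exq k (a i) * pt a t L' (S.erase i) = pt a t (k :: L') S :=
      fun t L' => psi_swap a (exq k) (tl t) _ S
    simp only [e2, picks, List.map_cons, List.sum_cons, List.map_map, Function.comp_def]
    push_cast
    ring

theorem picks_sum_nonneg (a : Fin m → ℕ) (L : List ℕ) (S : Finset (Fin m)) :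
    0 ≤ ((picks L).map fun p => pt a (p.1 + 1) p.2 S).sum :=
  List.sum_nonneg fun x hx => by
    obtain ⟨p, _, rfl⟩ := List.mem_map.1 hx
    exact pt_nonneg _ _ _ _

theorem picks_ones (a : Fin m → ℕ) (n : ℕ) (c : List ℕ) (S : Finset (Fin m)) (pre : List ℕ) :
    ((picks (List.replicate (n + 1) 1 ++ c)).map fun p => pt a (p.1 + 1) (pre ++ p.2) S).sum =
      (n + 1) * pt a 2 (pre ++ (List.replicate n 1 ++ c)) S +
      ((picks c).map fun p => pt a (p.1 + 1) (pre ++ (List.replicate (n + 1) 1 ++ p.2)) S).sum := by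
  induction n generalizing pre with
  | zero =>
    simp [picks, Function.comp_def]
  | succ n ih =>
    rw [List.replicate_succ (n := n + 1), List.cons_append, picks]
    simp only [List.map_cons, List.sum_cons, List.map_map, Function.comp_def]
    have := ih (pre ++ [1])
    simp only [List.append_assoc, List.singleton_append] at this
    rw [this]
    simp only [List.cons_append, List.replicate_succ (n := n)]
    push_cast
    ring

/-- product formula -/
def prodF (A : ℕ → ℤ) : List ℕ → ℤ → ℤ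
  | [], _ => 1
  | k :: L, r => (A k - r) * prodF A L (r + 1)

theorem pe_eq_prodF (a : Fin m → ℕ) (A : ℕ → ℤ) (L : List ℕ) (hL : L.Pairwise (· ≥ ·))
    (S : Finset (Fin m)) (r : ℤ) (h : ∀ k ∈ L, A k = (S.filter fun i => k ≤ a i).card + r) :
    pe a L S = prodF A L r := by
  induction L generalizing S r with
  | nil => rfl
  | cons k L ih =>
    rw [List.pairwise_cons] at hL
    have h1 : ∀ i ∈ S, exq k (a i) * pe a L (S.erase i) =
        if k ≤ a i then prodF A L (r + 1) else 0 := by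
      intro i hi
      unfold exq
      split_ifs with h2
      · rw [one_mul]
        refine ih hL.2 _ _ fun k' hk' => ?_
        have h3 : i ∈ S.filter fun i => k' ≤ a i := mem_filter.2 ⟨hi, (hL.1 k' hk').trans h2⟩
        rw [h k' (List.mem_cons_of_mem _ hk'), filter_erase, ← card_erase_add_one h3]
        push_cast; ring
      · simp
    rw [pe_cons, sum_congr rfl h1, ← sum_filter, sum_const, prodF, h k List.mem_cons_self]
    simp

def ind (κ a : Fin m → ℕ) : ℤ := if ∀ l, κ l ≤ a l then 1 else 0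
def sp (κ : Fin m → ℕ) : ℕ := (univ.filter fun i => κ i ≠ 0).card

theorem functional_pe (Λ : ((Fin m → ℕ) → ℤ) →+ ℤ) (c : ℤ) (L : List ℕ) (hL : ∀ k ∈ L, 1 ≤ k)
    (S : Finset (Fin m)) (κ0 : Fin m → ℕ) (h0 : ∀ i ∈ S, κ0 i = 0)
    (h : ∀ κ : Fin m → ℕ, ∑ l, κ l = ∑ l, κ0 l + L.sum → Λ (ind κ) = c * 2 ^ sp κ) :
    Λ (fun a => ind κ0 a * pe a L S) =
      c * 2 ^ sp κ0 * (2 ^ L.length * S.card.descFactorial L.length) := by
  induction L generalizing S κ0 with
  | nil => simpa [pe, psi] using h κ0 (by simp)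
  | cons k L ih =>
    have hk := hL k List.mem_cons_self
    have e : (fun a => ind κ0 a * pe a (k :: L) S) =
        ∑ i ∈ S, fun a => ind (κ0 + Pi.single i k) a * pe a L (S.erase i) := by
      funext a
      rw [Finset.sum_apply, pe_cons, mul_sum]
      refine sum_congr rfl fun i hi => ?_
      rw [← mul_assoc]
      congr 1
      have : (∀ l, (κ0 + Pi.single i k : Fin m → ℕ) l ≤ a l) ↔ (∀ l, κ0 l ≤ a l) ∧ k ≤ a i := by
        refine ⟨fun h => ⟨fun l => le_trans (by simp) (h l), by simpa [h0 i hi] using h i⟩,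
          fun h l => ?_⟩
        by_cases hl : l = i
        · subst hl; simpa [h0 l hi] using h.2
        · simpa [Pi.single_eq_of_ne hl] using h.1 l
      simp only [ind, exq, this, ite_and]
      split_ifs <;> simp
    have h1 : ∀ i ∈ S, Λ (fun a => ind (κ0 + Pi.single i k) a * pe a L (S.erase i)) =
        c * 2 ^ (sp κ0 + 1) * (2 ^ L.length * (S.card - 1).descFactorial L.length) := by
      intro i hi
      rw [ih (fun k hk => hL k (List.mem_cons_of_mem _ hk)) _ _ ?_ ?_, card_erase_of_mem hi]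
      · congr 3
        unfold sp
        rw [← card_insert_of_notMem (a := i) (by simp [h0 i hi])]
        congr 1
        ext l
        by_cases hl : l = i
        · subst hl; simp; omega
        · simp [hl]
      · intro j hj
        rw [mem_erase] at hj
        simp [Pi.single_eq_of_ne hj.1, h0 j hj.2]
      · intro κ hκ
        refine h κ ?_
        rw [hκ]
        simp [sum_add_distrib, add_assoc]
    rw [e, map_sum, sum_congr rfl h1, sum_const, List.length_cons]
    rcases hS : S.card with _ | n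
    · simp
    · rw [Nat.succ_descFactorial_succ]
      simp only [nsmul_eq_mul, Nat.add_sub_cancel]
      push_cast; ring

def ab (x : V m) : Fin m → ℕ := fun i => (x i).natAbs

def evs (C : Finset (V m)) (h : V m → ℤ) : ((Fin m → ℕ) → ℤ) →+ ℤ where
  toFun f := ∑ u ∈ C, h u * f (ab u)
  map_zero' := by simp
  map_add' f g := by simp [mul_add, sum_add_distrib]

/-- the number of signed injective markings -/
def Fm (m j : ℕ) : ℤ := 2 ^ j * m.descFactorial j

theorem functional_pe' (Λ : ((Fin m → ℕ) → ℤ) →+ ℤ) (c : ℤ) (L : List ℕ) (hL : ∀ k ∈ L, 1 ≤ k)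
    (h : ∀ κ : Fin m → ℕ, ∑ l, κ l = L.sum → Λ (ind κ) = c * 2 ^ sp κ) :
    Λ (fun a => pe a L univ) = c * Fm m L.length := by
  have := functional_pe Λ c L hL univ 0 (fun _ _ => rfl) (by simpa using h)
  simpa [ind, sp, Fm] using this

theorem dom_self (κ : Fin m → ℕ) : dom κ (∑ l, κ l) = 2 ^ sp κ := by
  have e : ((sph m (∑ l, κ l)).filter fun y => ∀ l, κ l ≤ (y l).natAbs) =
      Fintype.piFinset fun l => ({(κ l : ℤ), -(κ l : ℤ)} : Finset ℤ) := by
    ext y
    simp only [mem_filter, mem_sph, Fintype.mem_piFinset, mem_insert, mem_singleton]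
    constructor
    · rintro ⟨h1, h2⟩ l
      have := (sum_eq_sum_iff_of_le (fun l _ => h2 l)).1 h1.symm l (mem_univ l)
      omega
    · intro h
      have h' : ∀ l, (y l).natAbs = κ l := fun l => by have := h l; omega
      exact ⟨sum_congr rfl fun l _ => h' l, fun l => (h' l).ge⟩
  rw [dom, e, Fintype.card_piFinset, sp, ← prod_const, prod_filter]
  refine prod_congr rfl fun l _ => ?_
  split_ifs with h
  · exact card_pair (by omega)
  · have : κ l = 0 := by omega
    simp [this]

theorem sum_sph_pe (L : List ℕ) (hL : ∀ k ∈ L, 1 ≤ k) :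
    ∑ y ∈ sph m L.sum, pe (ab y) L univ = Fm m L.length := by
  have := functional_pe' (evs (sph m L.sum) fun _ => 1) 1 L hL fun κ hκ => by
    have := dom_self κ
    rw [hκ, dom, card_filter] at this
    simp only [evs, AddMonoidHom.coe_mk, ZeroHom.coe_mk, one_mul, ind, ab]
    exact_mod_cast this
  simpa [evs] using this

theorem box_zero (a : Fin m → ℕ) : box a 0 = 1 := by
  rw [box, card_eq_one]
  refine ⟨0, eq_singleton_iff_unique_mem.2 ⟨by simp, fun z hz => ?_⟩⟩
  rw [mem_filter, sum_eq_zero_iff] at hz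
  exact funext fun i => hz.2 i (mem_univ i)

theorem sum_pe_eq (C : Finset (V m)) (L : List ℕ) (hL : ∀ k ∈ L, 1 ≤ k) :
    ∑ u ∈ C, pe (ab u) L univ =
      ∑ y ∈ sph m L.sum, ((C.filter fun u => Le y u).card : ℤ) * pe (ab y) L univ := by
  have := functional_pe' (evs C (fun _ => 1) -
    evs (sph m L.sum) fun y => ((C.filter fun u => Le y u).card : ℤ)) 0 L hL fun κ hκ => by
    simp only [evs, AddMonoidHom.sub_apply, AddMonoidHom.coe_mk, ZeroHom.coe_mk, one_mul,
      zero_mul, sub_eq_zero, card_filter]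
    push_cast
    simp only [sum_mul]
    rw [sum_comm]
    refine sum_congr rfl fun u _ => ?_
    have h1 : ind κ (ab u) = cnt u κ 0 (∑ l, κ l + 0) := by
      unfold ind
      split_ifs with h
      · rw [cnt_eq (by simpa [ab] using h), box_zero]; rfl
      · rw [cnt_eq_zero (by simpa [ab] using h)]; rfl
    rw [h1, cnt, card_filter, add_zero, hκ]
    push_cast
    refine sum_congr rfl fun y _ => ?_
    simp only [ind, ab, Pi.zero_apply, zero_le, implies_true, and_true, ite_and]
    split_ifs <;> simp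
  simpa [evs, sub_eq_zero] using this

namespace Tiling
variable {s : ℕ} {G : Type} [AddCommGroup G] [DecidableEq G] (T : Tiling m s G)

noncomputable def Pe (n : ℕ) (L : List ℕ) : ℤ := ∑ u ∈ T.L n, pe (ab u) L univ
noncomputable def Pt (n t : ℕ) (L : List ℕ) : ℤ := ∑ u ∈ T.L n, pt (ab u) t L univ

theorem Pe_one {L : List ℕ} (hL : ∀ k ∈ L, 1 ≤ k) (h : L.sum = s + 1) :
    T.Pe (2 * s + 1) L = Fm m L.length := by
  rw [Pe, sum_pe_eq _ L hL, ← sum_sph_pe L hL]
  refine sum_congr rfl fun y hy => ?_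
  have := T.cover1 ((mem_sph.1 hy).trans h)
  unfold up at this
  rw [this]; simp

theorem Pe_two {L : List ℕ} (hL : ∀ k ∈ L, 1 ≤ k) (h : L.sum = s + 2) :
    T.Pe (2 * s + 1) L + T.Pe (2 * s + 2) L = Fm m L.length := by
  rw [Pe, Pe, sum_pe_eq _ L hL, sum_pe_eq _ L hL, ← sum_sph_pe L hL, ← sum_add_distrib]
  refine sum_congr rfl fun y hy => ?_
  have := T.cover2 ((mem_sph.1 hy).trans h)
  unfold up at this
  rw [← add_mul, ← Nat.cast_add, this]; simp

theorem Pe_Kt {L : List ℕ} (hL : ∀ k ∈ L, 1 ≤ k) (h : L.sum = s + 1) :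
    T.Pe (2 * s + 2) L = ∑ y ∈ sph m (s + 1), (T.Kt y : ℤ) * pe (ab y) L univ := by
  rw [Pe, sum_pe_eq _ L hL, h]; rfl

/-- lower bound in the class `s+1 ∣ 2m` -/
theorem T2_lower (hd : s + 1 ∣ 2 * m) :
    (2 * m - s - 1) * Fm m (s + 1) ≤ (s + 1) * T.Pe (2 * s + 2) (List.replicate (s + 1) 1) := by
  have hL : ∀ k ∈ List.replicate (s + 1) 1, 1 ≤ k := fun k hk => (List.eq_of_mem_replicate hk).ge
  have h1 := sum_sph_pe (m := m) _ hL
  simp only [List.sum_replicate, smul_eq_mul, mul_one, List.length_replicate] at h1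
  rw [T.Pe_Kt hL (by simp), ← h1, mul_sum, mul_sum]
  refine sum_le_sum fun y hy => ?_
  rw [← mul_assoc]
  refine mul_le_mul_of_nonneg_right ?_ (pe_nonneg _ _ _)
  have h2 := T.Kt_ge (mem_sph.1 hy)
  obtain ⟨k, hk⟩ := hd
  have h3 : k ≤ 1 + T.Kt y := by
    by_contra h
    have : (s + 1) * (1 + T.Kt y + 1) ≤ (s + 1) * k := Nat.mul_le_mul_left _ (by omega)
    rw [mul_add (s + 1) _ 1] at this
    omega
  have := Nat.mul_le_mul_left (s + 1) h3
  zify at this hk
  linarith

/-- lower bound in the class `s+1 ∣ 2m+1` -/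
theorem T3_lower {n : ℕ} (hn : n + 1 = s) (hd : s + 1 ∣ 2 * m + 1) :
    (2 * m - s) * Fm m s ≤ (s + 1) * T.Pe (2 * s + 2) (2 :: List.replicate n 1) := by
  have hL : ∀ k ∈ 2 :: List.replicate n 1, 1 ≤ k := fun k hk => by
    rcases List.mem_cons.1 hk with h | h
    · omega
    · exact (List.eq_of_mem_replicate h).ge
  have hs : (2 :: List.replicate n 1).sum = s + 1 := by simp; omega
  have h1 := sum_sph_pe (m := m) _ hL
  rw [hs, List.length_cons, List.length_replicate, hn] at h1
  rw [T.Pe_Kt hL hs, ← h1, mul_sum, mul_sum]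
  refine sum_le_sum fun y hy => ?_
  by_cases he : exc y = 0
  · have : pe (ab y) (2 :: List.replicate n 1) univ = 0 := by
      rw [pe_cons]
      refine sum_eq_zero fun i _ => ?_
      have := sum_eq_zero_iff.1 he i (mem_univ i)
      rw [exq, if_neg (by unfold ab; omega), zero_mul]
    simp [this]
  rw [← mul_assoc]
  refine mul_le_mul_of_nonneg_right ?_ (pe_nonneg _ _ _)
  have h2 := T.Kt_ge (mem_sph.1 hy)
  obtain ⟨k, hk⟩ := hd
  have h3 : k ≤ 1 + T.Kt y := by
    by_contra h
    have : (s + 1) * (1 + T.Kt y + 1) ≤ (s + 1) * k := Nat.mul_le_mul_left _ (by omega)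
    rw [mul_add (s + 1) _ 1] at this
    omega
  have := Nat.mul_le_mul_left (s + 1) h3
  zify at this hk
  linarith

end Tiling

end Pool.Agent.Lib.MP_a6e91d_co
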