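import Pool.Agent.Lib.MP_a6e91d_co.Spec
import Pool.Agent.Lib.MP_a6e91d_co.Rsmall

set_option autoImplicit false

namespace Pool.Agent.Lib.MP_a6e91d_co
open Finset

def rchk (n m : ℕ) : Bool :=
  (List.range 20).any fun σ => decide ((σ - 1) ^ 2 < 4 * (2 * m - min m (n + 1) - 1)) &&
    (decide (4 ≤ σ ∧ 2 * Sc m (n + 2) + σ * Sc m n < σ * Sc m (n + 1) + 4 * Sc m n) ||
     decide (4 * m - (n + 1) ≤ (n + 2) * σ ∧ 2 * (n + 2) * Sc m (n + 2) + (n + 2) * σ * Sc m n <
      (n + 2) * σ * Sc m (n + 1) + (4 * m - (n + 1)) * Sc m n))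

theorem Tiling.rkill {m n : ℕ} {G : Type} [AddCommGroup G] [DecidableEq G]
    (T : Tiling m (n + 1) G) (hm : n + 1 < 2 * m) (h : rchk n m = true) : False := by
  simp only [rchk, List.any_eq_true, Bool.and_eq_true, Bool.or_eq_true, decide_eq_true_eq,
    ← S_eq_Sc] at h
  obtain ⟨σ, -, h1, h2 | h2⟩ := h
  · have := T.R_two hm 1 σ (2 * m - min m (n + 1) - 1) (by omega)
      (fun a b hab => by simpa using le_add_of_sq h1 hab) (by omega)
    omega
  · have := T.R_three (by omega) (4 * m - (n + 1)) ((n + 2) * σ) (2 * m - min m (n + 1) - 1)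
      (by omega)
      (fun a b hab => Nat.mul_le_mul_left _ (le_add_of_sq h1 hab)) h2.1 (by omega)
    omega

set_option synthInstance.maxSize 2000 in
theorem rchk_all : ∀ n < 9, ∀ m < 45, 2 ≤ n ∧ 3 ≤ m ∧ n + 2 < 2 * m ∧
    2 * m + 2 ≤ (n + 1) * (n + 2) →
    rchk n m = true ∨ (n, m) ∈ [(2, 3), (3, 3), (2, 4), (3, 7), (3, 8), (4, 13), (2, 5)] := by
  decide +kernel

/-- the range of small dimension -/
theorem Tiling.small_range {m s : ℕ} {G : Type} [AddCommGroup G] [Fintype G] [DecidableEq G]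
    (T : Tiling m s G) (hs : 3 ≤ s) (hm : 3 ≤ m) (h : 2 * m + 2 ≤ s * (s + 1)) : False := by
  by_cases h10 : 10 ≤ s
  · exact T.R_big h10 hm h
  by_cases hA : 2 * m ≤ s + 1
  · exact T.regimeA hm hA
  obtain ⟨k, rfl⟩ : ∃ k, s = k + 1 := ⟨s - 1, by omega⟩
  have hk : (k + 1) * (k + 1 + 1) ≤ 9 * 10 := Nat.mul_le_mul (by omega) (by omega)
  rcases rchk_all k (by omega) m (by omega) ⟨by omega, hm, by omega, h⟩ with h1 | h1
  · exact T.rkill (by omega) h1
  simp only [List.mem_cons, Prod.mk.injEq, List.not_mem_nil, or_false] at h1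
  rcases h1 with ⟨rfl, rfl⟩ | ⟨rfl, rfl⟩ | ⟨rfl, rfl⟩ | ⟨rfl, rfl⟩ | ⟨rfl, rfl⟩ | ⟨rfl, rfl⟩ |
    ⟨rfl, rfl⟩
  · have := T.R_one (by omega)
    rw [S_eq_Sc, S_eq_Sc, N_eq] at this
    revert this; decide +kernel
  · have := T.R_one (by omega)
    rw [S_eq_Sc, S_eq_Sc, N_eq] at this
    revert this; decide +kernel
  · exact T.kim 43 (by norm_num) (by decide +kernel)
  · exact T.kim 83 (by norm_num) (by decide +kernel)
  · exact T.kim 41 (by norm_num) (by decide +kernel)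
  · exact T.kim 2767 (by norm_num) (by decide +kernel)
  · exact T.three_mod_three (by decide +kernel) (3 : ZMod 13)
      (by decide) (by decide +kernel)

end Pool.Agent.Lib.MP_a6e91d_co
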