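import Pool.Agent.Lib.MP_a6e91d_co.ReflSound

set_option autoImplicit false

namespace Pool.Agent.Lib.MP_a6e91d_co
open Finset

variable {m : ℕ}

/-- number of odd coordinates -/
def odc (u : V m) : ℕ := (univ.filter fun i => (u i).natAbs % 2 = 1).card

theorem eq_one_of_sup_eq {y : V m} (h : sup y = nrm y) (i : Fin m) : (y i).natAbs ≤ 1 := by
  have h1 := sup_add_exc y
  have h2 : exc y = 0 := by omega
  have := sum_eq_zero_iff.1 h2 i (mem_univ i)
  omega

theorem nrm_two_mul (x : V m) : nrm (x + x) = 2 * nrm x := by
  unfold nrm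
  rw [mul_sum]
  refine sum_congr rfl fun i _ => ?_
  simp only [Pi.add_apply]; omega

namespace Tiling
variable {s : ℕ} {G : Type} [AddCommGroup G] [DecidableEq G] (T : Tiling m s G)

theorem odc_ne_zero (hs : 1 ≤ s) (h2 : ∀ g : G, g + g = 0 → g = 0) {w : V m}
    (hw : w ∈ T.L (2 * s + 2)) : odc w ≠ 0 := by
  intro h
  rw [mem_L] at hw
  rw [odc, card_eq_zero, filter_eq_empty_iff] at h
  have e : w = (fun i => w i / 2) + (fun i => w i / 2) := by
    funext i
    have := h (mem_univ i)
    simp only [Pi.add_apply]; omega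
  have h3 := nrm_two_mul (fun i => w i / 2)
  rw [← e] at h3
  have h4 : T.φ (fun i => w i / 2) = 0 := h2 _ (by rw [← map_add, ← e, hw.2])
  have := T.min_nrm h4 (fun h0 => by rw [h0, nrm_zero] at h3; omega)
  omega

theorem card_odc [Finite G] (h2 : ∀ g : G, g + g = 0 → g = 0) {j : ℕ} (hj1 : 1 ≤ j) (hj2 : j ≤ 2) :
    ((T.L (2 * s + j)).filter fun u => odc u = j).card = N m j j := by
  have hinj : Function.Injective fun g : G => g + g := by
    intro a b hab
    have : (a - b) + (a - b) = 0 := by
      simp only at hab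
      rw [sub_add_sub_comm, hab, sub_self]
    exact sub_eq_zero.1 (h2 _ this)
  have hsurj := Finite.injective_iff_surjective.1 hinj
  let f : V m → V m := fun u i => if (u i).natAbs % 2 = 1 then (u i).sign else 0
  have hf : ∀ (u : V m) i, (f u i).natAbs = (if (u i).natAbs % 2 = 1 then 1 else 0) ∧
      (f u i).natAbs + 2 * ((u i - f u i) / 2).natAbs = (u i).natAbs ∧
      (u i - f u i) / 2 + (u i - f u i) / 2 = u i - f u i := by
    intro u i
    simp only [f]
    split_ifs with h
    · rcases lt_trichotomy (u i) 0 with h' | h' | h'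
      · rw [Int.sign_eq_neg_one_of_neg h']; omega
      · omega
      · rw [Int.sign_eq_one_of_pos h']; omega
    · omega
  have hn : ∀ u : V m, nrm (f u) = odc u := fun u => by
    unfold nrm odc
    rw [card_filter]
    exact sum_congr rfl fun i _ => (hf u i).1
  have hn2 : ∀ u : V m, nrm (f u) + 2 * nrm (fun i => (u i - f u i) / 2) = nrm u := fun u => by
    unfold nrm
    rw [mul_sum, ← sum_add_distrib]
    exact sum_congr rfl fun i _ => (hf u i).2.1
  have hn3 : ∀ u : V m, (fun i => (u i - f u i) / 2) + (fun i => (u i - f u i) / 2) = u - f u :=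
    fun u => funext fun i => (hf u i).2.2
  unfold N
  refine card_bij (fun u _ => f u) ?_ ?_ ?_
  · intro u hu
    rw [mem_filter] at hu ⊢
    refine ⟨mem_sph.2 ((hn u).trans hu.2), Eq.trans ?_ hu.2⟩
    unfold sup odc
    congr 1
    refine filter_congr fun i _ => ?_
    have := (hf u i).1
    split_ifs at this <;> omega
  · intro u hu u' hu' e
    rw [mem_filter, mem_L] at hu hu'
    have a := hn2 u
    have a' := hn2 u'
    rw [hn] at a a'
    have b := T.uniq (fun i => (u i - f u i) / 2) (fun i => (u' i - f u' i) / 2) (by omega)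
      (by omega) (hinj (by
        simp only
        rw [← map_add, ← map_add, hn3, hn3, map_sub, map_sub, hu.1.2, hu'.1.2, e]))
    have c := hn3 u
    rw [b, hn3, e] at c
    exact (sub_left_inj.1 c).symm
  · intro y hy
    rw [mem_filter, mem_sph] at hy
    have h1 := eq_one_of_sup_eq (hy.2.trans hy.1.symm)
    obtain ⟨g, hg⟩ := hsurj (-T.φ y)
    obtain ⟨x, hx, rfl⟩ := T.ex g
    simp only at hg
    have hu : T.φ (y + (x + x)) = 0 := by rw [map_add, map_add, hg, add_neg_cancel]
    have ho : odc (y + (x + x)) = j := by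
      rw [← hy.2]
      unfold sup odc
      congr 1
      refine filter_congr fun i _ => ?_
      have := h1 i
      simp only [Pi.add_apply]; omega
    have h0 : y + (x + x) ≠ 0 := fun h => by
      rw [h] at ho
      simp [odc] at ho; omega
    have a := T.min_nrm hu h0
    have b := nrm_add_le y (x + x)
    have c := nrm_add_mod y (x + x)
    have d := nrm_two_mul x
    have hle : Le y (y + (x + x)) := le_of_nrm (by rw [add_sub_cancel_left]; omega)
    refine ⟨y + (x + x), mem_filter.2 ⟨T.mem_L.2 ⟨by omega, hu⟩, ho⟩, funext fun i => ?_⟩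
    have e1 := hle i
    have e2 := h1 i
    simp only [f, Pi.add_apply] at e1 ⊢
    split_ifs with h
    · rcases lt_trichotomy (y i + (x i + x i)) 0 with h' | h' | h'
      · rw [Int.sign_eq_neg_one_of_neg h']; omega
      · omega
      · rw [Int.sign_eq_one_of_pos h']; omega
    · omega

end Tiling

/-- enumeration of partitions -/
def allP (P : List ℕ → Bool) : ℕ → ℕ → ℕ → List ℕ → Bool
  | 0, _, _, acc => P acc.reverse
  | f + 1, b, rem, acc =>
    match rem with
    | 0 => P acc.reverse
    | rem + 1 => (List.range (min b (rem + 1))).all fun v =>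
        forceN (rem - v) fun r => allP P f (v + 1) r ((v + 1) :: acc)

theorem allP_sound (P : List ℕ → Bool) (f b rem : ℕ) (acc : List ℕ) (A : ℕ → ℕ)
    (hA : ∀ k, A (k + 1) ≤ A k) (h0 : A 0 ≤ b) (hs : ∑ k ∈ range f, A k = rem) (hf : A f = 0)
    (h : allP P f b rem acc = true) :
    ∃ l : List ℕ, P (acc.reverse ++ l) = true ∧ ∀ k, l.getD k 0 = A k := by
  have anti : Antitone A := antitone_nat_of_succ_le hA
  induction f generalizing b rem acc A with
  | zero =>
    refine ⟨[], by simpa [allP] using h, fun k => ?_⟩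
    have := anti (Nat.zero_le k)
    simp; omega
  | succ f ih =>
    rw [sum_range_succ'] at hs
    rcases rem with _ | rem
    · refine ⟨[], by simpa [allP] using h, fun k => ?_⟩
      have := anti (Nat.zero_le k)
      simp; omega
    · have hpos : A 0 ≠ 0 := by
        intro h0
        have : ∑ k ∈ range f, A (k + 1) = 0 :=
          sum_eq_zero fun k _ => by have := anti (Nat.zero_le (k + 1)); omega
        omega
      simp only [allP, List.all_eq_true, List.mem_range, forceN_eq] at h
      have h1 := h (A 0 - 1) (by omega)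
      rw [show A 0 - 1 + 1 = A 0 by omega] at h1
      obtain ⟨l, hl, hl'⟩ := ih _ _ _ (fun k => A (k + 1)) (fun k => hA _) (hA 0) (by omega) hf h1
        (antitone_nat_of_succ_le fun k => hA _)
      refine ⟨A 0 :: l, by simpa using hl, fun k => ?_⟩
      cases k with
      | zero => rfl
      | succ k => simpa using hl' k

def conj (a : Fin m → ℕ) (k : ℕ) : ℕ := (univ.filter fun i => k + 1 ≤ a i).card

theorem sum_conj (a : Fin m → ℕ) (D : ℕ) (h : ∀ i, a i ≤ D) : ∑ k ∈ range D, conj a k = ∑ i, a i := by
  simp only [conj, card_filter]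
  rw [sum_comm]
  refine sum_congr rfl fun i _ => ?_
  rw [← card_filter]
  have : (range D).filter (fun k => k + 1 ≤ a i) = range (a i) := by
    ext k
    have := h i
    simp only [mem_filter, mem_range]; omega
  rw [this, card_range]

def oddL : List ℕ → ℤ
  | [] => 0
  | a :: l => a - oddL l

theorem oddL_eq (l : List ℕ) (a : Fin m → ℕ) (h : ∀ k, l.getD k 0 = conj a k) :
    oddL l = (univ.filter fun i => a i % 2 = 1).card := by
  induction l generalizing a with
  | nil =>
    have := h 0
    simp only [List.getD_nil, conj] at this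
    have h1 := card_eq_zero.1 this.symm
    rw [filter_eq_empty_iff] at h1
    have : (univ.filter fun i => a i % 2 = 1) = ∅ :=
      filter_eq_empty_iff.2 fun i hi => by have := h1 hi; omega
    simp [oddL, this]
  | cons x l ih =>
    have h0 := h 0
    simp only [List.getD_cons_zero] at h0
    rw [oddL, ih (fun i => a i - 1) (fun k => ?_), h0, conj]
    · simp only [card_filter]
      push_cast
      rw [← sum_sub_distrib]
      refine sum_congr rfl fun i _ => ?_
      split_ifs <;> omega
    · have := h (k + 1)
      rw [List.getD_cons_succ] at this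
      rw [this]
      unfold conj
      congr 1
      exact filter_congr fun i _ => by simp only; omega

theorem exists_list (P : List ℕ → Bool) {D b : ℕ} (h : allP P D b D [] = true) {u : V m}
    (hu : nrm u = D) (hb : D ≤ b ∨ m ≤ b) :
    ∃ l : List ℕ, P l = true ∧ (∀ k, l.getD k 0 = conj (ab u) k) ∧ oddL l = odc u := by
  have h1 : ∀ i, ab u i ≤ D := fun i => hu ▸ natAbs_le_nrm u i
  have h2 := sum_conj (ab u) D h1
  obtain ⟨l, hl, hl'⟩ := allP_sound P D b D [] (conj (ab u))
    (fun k => card_le_card fun i hi => by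
      rw [mem_filter] at hi ⊢
      exact ⟨hi.1, by omega⟩) (by
      rcases hb with hb | hb
      · have := sup_add_exc u
        have e : conj (ab u) 0 = sup u := by
          unfold conj sup ab
          congr 1
          exact filter_congr fun i _ => by omega
        omega
      · exact (card_filter_le _ _).trans (by simpa using hb)) (h2.trans hu)
    (card_eq_zero.2 (filter_eq_empty_iff.2 fun i _ => by have := h1 i; omega)) h
  exact ⟨l, by simpa using hl, hl', oddL_eq l _ hl'⟩

inductive Trie where
  | nil : Trie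
  | leaf (c : ℤ) (sib : Trie) : Trie
  | node (k : ℕ) (ch sib : Trie) : Trie

def Trie.eval (A : List ℕ) : Trie → ℕ → ℤ
  | .nil, _ => 0
  | .leaf c sib, r => c + sib.eval A r
  | .node k ch sib, r =>
    match A.getD k 0 - r with
    | 0 => sib.eval A r
    | a + 1 => Int.ofNat (a + 1) * ch.eval A (r + 1) + sib.eval A r

def Trie.paths : Trie → List (List ℕ × ℤ)
  | .nil => []
  | .leaf c sib => ([], c) :: sib.paths
  | .node k ch sib => (ch.paths.map fun p => ((k + 1) :: p.1, p.2)) ++ sib.paths

def prodN (A : List ℕ) : List ℕ → ℕ → ℤ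
  | [], _ => 1
  | k :: L, r => ((A.getD (k - 1) 0 - r : ℕ) : ℤ) * prodN A L (r + 1)

theorem Trie.eval_eq (A : List ℕ) (t : Trie) (r : ℕ) :
    t.eval A r = (t.paths.map fun p => p.2 * prodN A p.1 r).sum := by
  induction t generalizing r with
  | nil => rfl
  | leaf c sib ih => simp [Trie.eval, Trie.paths, prodN, ih]
  | node k ch sib ih1 ih2 =>
    simp only [Trie.eval, Trie.paths, List.map_append, List.sum_append, List.map_map,
      Function.comp_def, prodN, Nat.add_sub_cancel]
    rcases A.getD k 0 - r with _ | a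
    · simp [ih2]
    · simp only [ih1, ih2, ← List.sum_map_mul_left, Int.ofNat_eq_natCast]
      congr 2
      exact List.map_congr_left fun p _ => by ring

theorem pe_eq_prodN (a : Fin m → ℕ) (A : List ℕ) (L : List ℕ) (hL : L.Pairwise (· ≥ ·))
    (S : Finset (Fin m)) (r : ℕ)
    (h : ∀ k ∈ L, A.getD (k - 1) 0 = (S.filter fun i => k ≤ a i).card + r) :
    pe a L S = prodN A L r := by
  induction L generalizing S r with
  | nil => rfl
  | cons k L ih =>
    rw [List.pairwise_cons] at hL
    have h1 : ∀ i ∈ S, exq k (a i) * pe a L (S.erase i) =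
        if k ≤ a i then prodN A L (r + 1) else 0 := by
      intro i hi
      unfold exq
      split_ifs with h2
      · rw [one_mul]
        refine ih hL.2 _ _ fun k' hk' => ?_
        have h3 : i ∈ S.filter fun i => k' ≤ a i := mem_filter.2 ⟨hi, (hL.1 k' hk').trans h2⟩
        rw [h k' (List.mem_cons_of_mem _ hk'), filter_erase, ← card_erase_add_one h3]
        ring
      · simp
    rw [pe_cons, sum_congr rfl h1, ← sum_filter, sum_const, prodN, h k List.mem_cons_self]
    simp

def okL : List ℕ → Bool
  | [] => true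
  | [a] => Nat.ble 1 a
  | a :: b :: l => Nat.ble b a && okL (b :: l)

theorem okL_sound {L : List ℕ} (h : okL L = true) : L.Pairwise (· ≥ ·) ∧ ∀ k ∈ L, 1 ≤ k := by
  induction L with
  | nil => simp
  | cons a l ih =>
    cases l with
    | nil => simpa [okL] using h
    | cons b l =>
      simp only [okL, Bool.and_eq_true, Nat.ble_eq] at h
      obtain ⟨h1, h2⟩ := ih h.2
      have h3 := List.pairwise_cons.1 h1
      refine ⟨List.pairwise_cons.2 ⟨fun k hk => ?_, h1⟩, fun k hk => ?_⟩
      · rcases List.mem_cons.1 hk with rfl | hk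
        exacts [h.1, (h3.1 k hk).trans h.1]
      · rcases List.mem_cons.1 hk with rfl | hk
        exacts [(h2 b List.mem_cons_self).trans h.1, h2 k hk]

def pl (l : List (List ℕ × ℤ)) (a : Fin m → ℕ) : ℤ := (l.map fun p => p.2 * pe a p.1 univ).sum

theorem eval_eq_pl (t : Trie) (ht : t.paths.all (fun p => okL p.1) = true) {A : List ℕ}
    {a : Fin m → ℕ} (hA : ∀ k, A.getD k 0 = conj a k) : t.eval A 0 = pl t.paths a := by
  rw [Trie.eval_eq, pl]
  congr 1
  refine List.map_congr_left fun p hp => ?_
  have := okL_sound (List.all_eq_true.1 ht p hp)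
  rw [pe_eq_prodN a A p.1 this.1 univ 0 fun k hk => ?_]
  rw [hA, conj, Nat.sub_add_cancel (this.2 k hk), add_zero]

theorem sum_pl (C : Finset (V m)) (h : V m → ℤ) (l : List (List ℕ × ℤ)) :
    ∑ u ∈ C, h u * pl l (ab u) = (l.map fun p => p.2 * ∑ u ∈ C, h u * pe (ab u) p.1 univ).sum := by
  induction l with
  | nil => simp [pl]
  | cons p l ih =>
    simp only [pl, List.map_cons, List.sum_cons, mul_add, sum_add_distrib] at ih ⊢
    rw [ih, mul_sum]
    congr 1
    exact sum_congr rfl fun u _ => by ring

end Pool.Agent.Lib.MP_a6e91d_co
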