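import Pool.Agent.Lib.MP_a6e91d_co.Psi

set_option autoImplicit false

namespace Pool.Agent.Lib.MP_a6e91d_co

abbrev Poly := List ℤ

def ev (x : ℤ) : Poly → ℤ
  | [] => 0
  | a :: p => a + x * ev x p

def padd : Poly → Poly → Poly
  | [], q => q
  | a :: p, [] => a :: p
  | a :: p, b :: q => (a + b) :: padd p q

def psc (c : ℤ) : Poly → Poly
  | [] => []
  | a :: p => (c * a) :: psc c p

def pmul : Poly → Poly → Poly
  | [], _ => []
  | a :: p, q => padd (psc a q) (0 :: pmul p q)

/-- multiply by `x + c` -/
def plin (c : ℤ) (p : Poly) : Poly := padd (psc c p) (0 :: p)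

def ppos : Poly → Poly
  | [] => []
  | a :: p => (bif decide (a < 0) then 0 else a) :: ppos p

def pzero : Poly → Bool
  | [] => true
  | a :: p => decide (a = 0) && pzero p

def pnonneg : Poly → Bool
  | [] => true
  | a :: p => decide (0 ≤ a) && pnonneg p

theorem ev_padd (x : ℤ) (p q : Poly) : ev x (padd p q) = ev x p + ev x q := by
  induction p generalizing q with
  | nil => simp [padd, ev]
  | cons a p ih =>
    cases q with
    | nil => simp [padd, ev]
    | cons b q => simp only [padd, ev, ih]; ring

theorem ev_psc (x c : ℤ) (p : Poly) : ev x (psc c p) = c * ev x p := by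
  induction p with
  | nil => simp [psc, ev]
  | cons a p ih => simp only [psc, ev, ih]; ring

theorem ev_pmul (x : ℤ) (p q : Poly) : ev x (pmul p q) = ev x p * ev x q := by
  induction p with
  | nil => simp [pmul, ev]
  | cons a p ih => simp only [pmul, ev, ev_padd, ev_psc, ih]; ring

theorem ev_plin (x c : ℤ) (p : Poly) : ev x (plin c p) = ev x p * (x + c) := by
  simp only [plin, ev, ev_padd, ev_psc]; ring

theorem ev_ppos {x : ℤ} (hx : 0 ≤ x) (p : Poly) : 0 ≤ ev x (ppos p) ∧ ev x p ≤ ev x (ppos p) := by
  induction p with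
  | nil => simp [ppos, ev]
  | cons a p ih =>
    simp only [ppos, ev, Bool.cond_decide]
    have h1 := mul_nonneg hx ih.1
    have h2 := mul_le_mul_of_nonneg_left ih.2 hx
    split_ifs <;> constructor <;> omega

theorem ev_pzero (x : ℤ) {p : Poly} (h : pzero p = true) : ev x p = 0 := by
  induction p with
  | nil => rfl
  | cons a p ih =>
    simp only [pzero, Bool.and_eq_true, decide_eq_true_eq] at h
    simp [ev, h.1, ih h.2]

theorem ev_pnonneg {x : ℤ} (hx : 0 ≤ x) {p : Poly} (h : pnonneg p = true) : 0 ≤ ev x p := by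
  induction p with
  | nil => exact le_rfl
  | cons a p ih =>
    simp only [pnonneg, Bool.and_eq_true, decide_eq_true_eq] at h
    exact add_nonneg h.1 (mul_nonneg hx (ih h.2))

def forceN {α : Type} (n : ℕ) (k : ℕ → α) : α :=
  match n with
  | 0 => k 0
  | n + 1 => k (Nat.succ n)

def forceZ {α : Type} (z : ℤ) (k : ℤ → α) : α :=
  match z with
  | Int.ofNat n => forceN n fun n => k (Int.ofNat n)
  | Int.negSucc n => forceN n fun n => k (Int.negSucc n)

def forceP {α : Type} : Poly → (Poly → α) → α
  | [], k => k []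
  | a :: p, k => forceZ a fun a => forceP p fun p => k (a :: p)

def forceL {α : Type} : List ℕ → (List ℕ → α) → α
  | [], k => k []
  | a :: p, k => forceN a fun a => forceL p fun p => k (a :: p)

@[simp] theorem forceN_eq {α : Type} (n : ℕ) (k : ℕ → α) : forceN n k = k n := by cases n <;> rfl
@[simp] theorem forceZ_eq {α : Type} (z : ℤ) (k : ℤ → α) : forceZ z k = k z := by
  cases z <;> simp [forceZ]
@[simp] theorem forceP_eq {α : Type} (p : Poly) (k : Poly → α) : forceP p k = k p := by
  induction p generalizing k with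
  | nil => rfl
  | cons a p ih => simp [forceP, ih]
@[simp] theorem forceL_eq {α : Type} (p : List ℕ) (k : List ℕ → α) : forceL p k = k p := by
  induction p generalizing k with
  | nil => rfl
  | cons a p ih => simp [forceL, ih]

structure St where
  dl : ℕ
  c : List ℕ
  t : ℕ
  n : ℕ

def leq : List ℕ → List ℕ → Bool
  | [], [] => true
  | a :: p, b :: q => Nat.beq a b && leq p q
  | _, _ => false

theorem leq_eq {p q : List ℕ} (h : leq p q = true) : p = q := by
  induction p generalizing q with
  | nil => cases q with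
    | nil => rfl
    | cons => simp [leq] at h
  | cons a p ih => cases q with
    | nil => simp [leq] at h
    | cons b q =>
      simp only [leq, Bool.and_eq_true, Nat.beq_eq] at h
      rw [h.1, ih h.2]

def St.eqb (a b : St) : Bool :=
  Nat.beq a.dl b.dl && Nat.beq a.t b.t && Nat.beq a.n b.n && leq a.c b.c

theorem St.eq_of_eqb {a b : St} (h : a.eqb b = true) : a = b := by
  cases a; cases b
  simp only [St.eqb, Bool.and_eq_true, Nat.beq_eq] at h
  simp [h.1.1.1, h.1.1.2, h.1.2, leq_eq h.2]

def St.e (a : St) : ℕ := a.c.sum - a.c.length + (a.t - 1) + a.dl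

def St.key (a : St) : ℕ :=
  (((((a.e - a.dl) * 2 + a.dl) * 2 + (1 - a.t)) * 64 + (63 - a.n)) * 65536 +
    (a.c.foldl (fun r x => r * 11 + x) a.t * 40503) % 65521)

inductive Tr where
  | nil : Tr
  | node (l : Tr) (k : ℕ) (s : St) (q : Poly) (r : Tr) : Tr

def Tr.ins (k : ℕ) (s : St) (q : Poly) : Tr → Tr
  | .nil => .node .nil k s q .nil
  | .node l k2 s2 q2 r =>
    bif Nat.blt k k2 then
      match Tr.ins k s q l with
      | .nil => .node .nil k2 s2 q2 r
      | .node a b c d e => .node (.node a b c d e) k2 s2 q2 r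
    else bif Nat.beq k k2 && s.eqb s2 then .node l k2 s2 (padd q q2) r
    else
      match Tr.ins k s q r with
      | .nil => .node l k2 s2 q2 .nil
      | .node a b c d e => .node l k2 s2 q2 (.node a b c d e)

def Tr.pop : Tr → Option (St × Poly × Tr)
  | .nil => none
  | .node l k s q r =>
    match Tr.pop l with
    | none => some (s, q, r)
    | some (a, b, l2) => some (a, b, .node l2 k s q r)

def insDesc (t : ℕ) : List ℕ → List ℕ
  | [] => [t]
  | a :: c => bif Nat.blt t a then a :: insDesc t c else t :: a :: c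

theorem insDesc_perm (t : ℕ) (c : List ℕ) : (insDesc t c).Perm (t :: c) := by
  induction c with
  | nil => rfl
  | cons a c ih =>
    unfold insDesc
    cases Nat.blt t a
    · rfl
    · exact (ih.cons a).trans (List.Perm.swap _ _ _)

def addAt (q : Poly) : ℕ → List Poly → List Poly
  | 0, [] => [q]
  | 0, p :: l => padd q p :: l
  | j + 1, [] => [] :: addAt q j []
  | j + 1, p :: l => p :: addAt q j l

def insAll : List (St × Poly) → Tr → Tr
  | [], tr => tr
  | (s, q) :: l, tr =>
    forceL s.c fun c => forceN s.t fun t => forceN (St.key ⟨s.dl, c, t, s.n⟩) fun k =>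
      match Tr.ins k ⟨s.dl, c, t, s.n⟩ q tr with
      | .nil => insAll l .nil
      | .node a b c d e => insAll l (.node a b c d e)

/-- one rewriting step: new terms, and possibly a known total -/
def step (s1 E Et : ℕ) (s : St) (q : Poly) : Option (List (St × Poly) × Option (ℕ × Poly)) :=
  let D : ℤ := 2 * s1 + 2 - s.dl - s.c.sum
  bif pzero q then some ([], none) else
  bif Nat.blt 0 s.t then
    bif Nat.blt s.e Et then
      some ([(⟨s.dl, insDesc s.t s.c, 0, s.n⟩, q), (⟨s.dl, s.c, s.t + 1, s.n⟩, q)], none)
    else some ([(⟨s.dl, insDesc s.t s.c, 0, s.n⟩, plin (1 + D - s.t - s.n) (ppos q))], none)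
  else bif Nat.blt s.e E then
    bif Nat.beq (s.c.sum + s.n + s.dl) (s1 + 2) && s.c.all (Nat.ble 1) then
      match s.dl with
      | 0 => some ([(⟨1, s.c, 0, s.n⟩, psc (-1) q)], some (s.c.length + s.n, q))
      | 1 => some ([], some (s.c.length + s.n, q))
      | _ => none
    else
      match s.n with
      | n + 2 => some ((⟨s.dl, s.c, 0, n + 1⟩, plin (D - (n + 1)) q) ::
          (⟨s.dl, s.c, 2, n + 1⟩, psc (-1) q) :: (⟨s.dl, s.c, 2, n⟩, plin (n + 1) (psc (-1) q)) ::
          (picks s.c).map (fun p => (⟨s.dl, p.2, p.1 + 1, n + 1⟩, psc (-1) q)), none)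
      | _ => none
  else
    bif pzero (ppos q) then some ([], none) else
    bif Nat.beq (s.c.sum + s.n + s.dl) (s1 + 2) && s.c.all (Nat.ble 1) && Nat.ble s.dl 1 then
      some ([], some (s.c.length + s.n, ppos q))
    else
      match s.n with
      | n + 1 => some ([(⟨s.dl, s.c, 0, n⟩, plin (D - n) (ppos q))], none)
      | _ => none

def run (s1 E Et : ℕ) : ℕ → Tr → List Poly → Option (List Poly)
  | 0, _, _ => none
  | f + 1, tr, F =>
    match tr.pop with
    | none => some F
    | some (s, q, tr') =>
      forceP q fun q =>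
      match step s1 E Et s q with
      | none => none
      | some (l, none) => run s1 E Et f (insAll l tr') F
      | some (l, some (j, p)) => run s1 E Et f (insAll l tr') (addAt p j F)

/-- final estimate: `W j` bounds the ratio of consecutive totals from below -/
def horner (M0 : Poly) : List Poly → ℕ → Poly → Poly → Poly
  | [], _, num, _ => num
  | f :: l, j, num, den =>
    forceP (pmul den (padd M0 [-2 * (j : ℤ), -2])) fun den' =>
    forceP (padd (ppos num) (pmul den' f)) fun num' => horner M0 l (j + 1) num' den'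

def negP : Poly → Bool
  | [] => false
  | a :: p => decide (a < 0) && pnonneg (psc (-1) p)

def checkF (M0 : Poly) (b : ℕ) (top : Poly) (F : List Poly) : Bool :=
  match F with
  | [] => false
  | f :: l => decide (l.drop b = [top, [1]]) && decide (b ≤ l.length) &&
      negP (horner M0 (l.take b) 0 f [1])

def check0 : Bool :=
  match run 10 6 7 2000 (insAll [(⟨0, [], 0, 12⟩, [1]), (⟨0, [], 2, 11⟩, [1]),
    (⟨0, [], 2, 10⟩, [11, 1])] .nil) [] with
  | none => false
  | some F => checkF [110, 21, 1] 10 [11, 1] F

def check1 : Bool :=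
  match run 12 6 7 2000 (insAll [(⟨0, [2], 0, 12⟩, [1]), (⟨0, [2], 2, 11⟩, [1]),
    (⟨0, [2], 2, 10⟩, [11, 1]), (⟨0, [], 3, 11⟩, [1])] .nil) [] with
  | none => false
  | some F => checkF [168, 26, 1] 11 [12, 1] F

end Pool.Agent.Lib.MP_a6e91d_co
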