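import Pool.Agent.Lib.MP_a6e91d_co.Refl

set_option autoImplicit false

namespace Pool.Agent.Lib.MP_a6e91d_co

structure Model (x : ℤ) (s1 : ℕ) where
  PE : ℕ → List ℕ → ℕ → ℤ
  PT : ℕ → ℕ → List ℕ → ℕ → ℤ
  FF : ℕ → ℤ
  hx : 0 ≤ x
  nnE : ∀ d c n, 0 ≤ PE d c n
  nnT : ∀ d t c n, 0 ≤ PT d t c n
  perm : ∀ d c c' n, c.Perm c' → PE d c n = PE d c' n
  split : ∀ d t c n, PT d t c n = PE d (t :: c) n + PT d (t + 1) c n
  cutT : ∀ d t c n, PT d t c n ≤ (x + (1 + (2 * s1 + 2 - d - c.sum) - t - n)) * PE d (t :: c) n
  crude : ∀ d c n, PE d c (n + 1) ≤ (x + ((2 * s1 + 2 - d - c.sum) - n)) * PE d c n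
  ident : ∀ d c n, PE d c (n + 2) = (x + ((2 * s1 + 2 - d - c.sum) - (n + 1))) * PE d c (n + 1) -
    PT d 2 c (n + 1) - (x + (n + 1)) * PT d 2 c n -
    ((picks c).map fun p => PT d (p.1 + 1) p.2 (n + 1)).sum
  known1 : ∀ c n, (∀ k ∈ c, 1 ≤ k) → c.sum + n + 1 = s1 + 2 → PE 1 c n = FF (c.length + n)
  known0 : ∀ c n, (∀ k ∈ c, 1 ≤ k) → c.sum + n = s1 + 2 →
    PE 1 c n + PE 0 c n = FF (c.length + n)

namespace Model
variable {x : ℤ} {s1 : ℕ} (M : Model x s1)

def val (s : St) : ℤ := if s.t = 0 then M.PE s.dl s.c s.n else M.PT s.dl s.t s.c s.n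

def valT : Tr → ℤ
  | .nil => 0
  | .node l _ s q r => valT l + ev x q * M.val s + valT r

def valL (l : List (St × Poly)) : ℤ := (l.map fun p => ev x p.2 * M.val p.1).sum

def valF : List Poly → ℕ → ℤ
  | [], _ => 0
  | p :: l, j => ev x p * M.FF j + valF l (j + 1)

theorem valT_ins (k : ℕ) (s : St) (q : Poly) (tr : Tr) :
    M.valT (tr.ins k s q) = ev x q * M.val s + M.valT tr := by
  induction tr with
  | nil => simp [Tr.ins, valT]
  | node l k2 s2 q2 r ihl ihr =>
    unfold Tr.ins
    cases Nat.blt k k2
    · cases h : (Nat.beq k k2 && s.eqb s2)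
      · simp only [cond_false]
        cases h2 : Tr.ins k s q r <;> simp only [h2, valT] at ihr ⊢ <;> linarith
      · simp only [cond_false, cond_true, valT, ev_padd]
        rw [Bool.and_eq_true] at h
        rw [St.eq_of_eqb h.2]; ring
    · simp only [cond_true]
      cases h2 : Tr.ins k s q l <;> simp only [h2, valT] at ihl ⊢ <;> linarith

theorem valT_pop (tr : Tr) : (tr.pop = none → M.valT tr = 0) ∧
    ∀ s q tr', tr.pop = some (s, q, tr') → M.valT tr = ev x q * M.val s + M.valT tr' := by
  induction tr with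
  | nil => simp [Tr.pop, valT]
  | node l k s q r ihl _ =>
    unfold Tr.pop
    rcases h : l.pop with _ | ⟨a, b, l2⟩
    · simp only [reduceCtorEq, false_imp_iff, true_and, Option.some.injEq, Prod.mk.injEq]
      rintro s' q' tr' ⟨rfl, rfl, rfl⟩
      simp [valT, ihl.1 h]
    · simp only [reduceCtorEq, false_imp_iff, true_and, Option.some.injEq, Prod.mk.injEq]
      rintro s' q' tr' ⟨rfl, rfl, rfl⟩
      simp only [valT, ihl.2 _ _ _ h]; ring

theorem valT_insAll (l : List (St × Poly)) (tr : Tr) :
    M.valT (insAll l tr) = M.valL l + M.valT tr := by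
  induction l generalizing tr with
  | nil => simp [insAll, valL]
  | cons p l ih =>
    obtain ⟨s, q⟩ := p
    have h := M.valT_ins (St.key ⟨s.dl, s.c, s.t, s.n⟩) ⟨s.dl, s.c, s.t, s.n⟩ q tr
    simp only [insAll, forceL_eq, forceN_eq]
    cases h2 : Tr.ins (St.key ⟨s.dl, s.c, s.t, s.n⟩) ⟨s.dl, s.c, s.t, s.n⟩ q tr <;>
      simp only [h2] at h ⊢ <;> rw [ih, h] <;> simp only [valL, List.map_cons, List.sum_cons] <;> ring

theorem valF_addAt (q : Poly) (j : ℕ) (l : List Poly) (i : ℕ) :
    M.valF (addAt q j l) i = ev x q * M.FF (i + j) + M.valF l i := by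
  induction j generalizing l i with
  | zero => cases l <;> simp [addAt, valF, ev_padd, add_mul, add_assoc]
  | succ j ih =>
    cases l with
    | nil => simp only [addAt, valF, ih, ev, show i + 1 + j = i + (j + 1) by ring]; ring
    | cons p l => simp only [addAt, valF, ih, show i + 1 + j = i + (j + 1) by ring]; ring

def valO (o : Option (ℕ × Poly)) : ℤ :=
  match o with
  | none => 0
  | some (j, p) => ev x p * M.FF j

theorem all_ble {c : List ℕ} (h : c.all (Nat.ble 1) = true) : ∀ k ∈ c, 1 ≤ k := by
  intro k hk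
  simpa using List.all_eq_true.1 h k hk

theorem step_sound (E Et : ℕ) (s : St) (q : Poly) (l : List (St × Poly)) (o : Option (ℕ × Poly))
    (h : step s1 E Et s q = some (l, o)) : ev x q * M.val s ≤ M.valL l + M.valO o := by
  obtain ⟨d, c, t, n⟩ := s
  have hp := ev_ppos M.hx q
  unfold step at h
  simp only [Bool.cond_eq_ite] at h
  split_ifs at h with h1 h2 h3 h4 h5 h6 h7
  · obtain ⟨rfl, rfl⟩ := Prod.mk.inj (Option.some.inj h)
    simp [valL, valO, ev_pzero x h1]
  · obtain ⟨rfl, rfl⟩ := Prod.mk.inj (Option.some.inj h)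
    have ht : t ≠ 0 := by simp only [Nat.blt_eq] at h2; omega
    simp only [valL, valO, val, ht, if_false, if_true, List.map_cons, List.map_nil, List.sum_cons,
      List.sum_nil, Nat.succ_ne_zero, M.perm d _ _ n (insDesc_perm t c), M.split d t c n]
    linarith
  · obtain ⟨rfl, rfl⟩ := Prod.mk.inj (Option.some.inj h)
    have ht : t ≠ 0 := by simp only [Nat.blt_eq] at h2; omega
    simp only [valL, valO, val, ht, if_false, if_true, List.map_cons, List.map_nil, List.sum_cons,
      List.sum_nil, M.perm d _ _ n (insDesc_perm t c), ev_plin]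
    have a := mul_le_mul_of_nonneg_right hp.2 (M.nnT d t c n)
    have b := mul_le_mul_of_nonneg_left (M.cutT d t c n) hp.1
    linarith
  · have ht : t = 0 := by simp only [Nat.blt_eq] at h2; omega
    subst ht
    simp only [Bool.and_eq_true, Nat.beq_eq] at h5
    rcases d with _ | _ | d
    · obtain ⟨rfl, rfl⟩ := Prod.mk.inj (Option.some.inj h)
      simp only [valL, valO, val, if_true, List.map_cons, List.map_nil, List.sum_cons,
        List.sum_nil, ev_psc, ← M.known0 c n (all_ble h5.2) h5.1]
      linarith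
    · obtain ⟨rfl, rfl⟩ := Prod.mk.inj (Option.some.inj h)
      simp only [valL, valO, val, if_true, List.map_nil,
        List.sum_nil, ← M.known1 c n (all_ble h5.2) h5.1, zero_add, le_refl]
    · simp at h
  · have ht : t = 0 := by simp only [Nat.blt_eq] at h2; omega
    subst ht
    rcases n with _ | _ | n
    · simp at h
    · simp at h
    · obtain ⟨rfl, rfl⟩ := Prod.mk.inj (Option.some.inj h)
      simp only [valL, valO, val, if_true, List.map_cons, List.sum_cons, ev_psc, ev_plin,
        M.ident d c n, List.map_map, Function.comp_def, Nat.succ_ne_zero, if_false,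
        List.sum_map_mul_left, OfNat.ofNat_ne_zero]
      linarith
  · obtain ⟨rfl, rfl⟩ := Prod.mk.inj (Option.some.inj h)
    have ht : t = 0 := by simp only [Nat.blt_eq] at h2; omega
    subst ht
    have a := mul_le_mul_of_nonneg_right hp.2 (M.nnE d c n)
    rw [ev_pzero x h6] at a
    simpa [valL, valO, val] using a
  · obtain ⟨rfl, rfl⟩ := Prod.mk.inj (Option.some.inj h)
    have ht : t = 0 := by simp only [Nat.blt_eq] at h2; omega
    subst ht
    simp only [Bool.and_eq_true, Nat.beq_eq, Nat.ble_eq] at h7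
    have a := mul_le_mul_of_nonneg_right hp.2 (M.nnE d c n)
    have b : M.PE d c n ≤ M.FF (c.length + n) := by
      rcases d with _ | _ | d
      · have := M.known0 c n (all_ble h7.1.2) h7.1.1
        have := M.nnE 1 c n
        linarith
      · exact (M.known1 c n (all_ble h7.1.2) h7.1.1).le
      · omega
    have := mul_le_mul_of_nonneg_left b hp.1
    simp only [valL, valO, val, if_true, List.map_nil, List.sum_nil]
    linarith
  · have ht : t = 0 := by simp only [Nat.blt_eq] at h2; omega
    subst ht
    rcases n with _ | n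
    · simp at h
    · obtain ⟨rfl, rfl⟩ := Prod.mk.inj (Option.some.inj h)
      have a := mul_le_mul_of_nonneg_right hp.2 (M.nnE d c (n + 1))
      have b := mul_le_mul_of_nonneg_left (M.crude d c n) hp.1
      simp only [valL, valO, val, if_true, List.map_cons, List.map_nil, List.sum_cons,
        List.sum_nil, ev_plin]
      linarith

theorem run_sound (E Et f : ℕ) (tr : Tr) (F F' : List Poly) (h : run s1 E Et f tr F = some F') :
    M.valT tr + M.valF F 0 ≤ M.valF F' 0 := by
  induction f generalizing tr F with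
  | zero => simp [run] at h
  | succ f ih =>
    unfold run at h
    rcases hp : tr.pop with _ | ⟨s, q, tr'⟩
    · simp only [hp, Option.some.injEq] at h
      rw [(M.valT_pop tr).1 hp, h]; simp
    · simp only [hp, forceP_eq] at h
      rw [(M.valT_pop tr).2 _ _ _ hp]
      rcases hs : step s1 E Et s q with _ | ⟨l, _ | ⟨j, p⟩⟩
      · simp [hs] at h
      · simp only [hs] at h
        have a := ih _ _ h
        have b := M.step_sound E Et s q l _ hs
        rw [valT_insAll] at a
        simp only [valO] at b
        linarith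
      · simp only [hs] at h
        have a := ih _ _ h
        have b := M.step_sound E Et s q l _ hs
        rw [valT_insAll, valF_addAt, zero_add] at a
        simp only [valO] at b
        linarith

theorem valF_append (l l' : List Poly) (j : ℕ) :
    M.valF (l ++ l') j = M.valF l j + M.valF l' (j + l.length) := by
  induction l generalizing j with
  | nil => simp [valF]
  | cons p l ih =>
    simp only [List.cons_append, valF, ih, List.length_cons, show j + 1 + l.length =
      j + (l.length + 1) by ring]
    ring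

theorem horner_sound (M0 : Poly) (b : ℕ) (hF : ∀ j, 0 ≤ M.FF j)
    (hW : ∀ j < b, 0 ≤ ev x M0 - 2 * x - 2 * j ∧ (ev x M0 - 2 * x - 2 * j) * M.FF j ≤ M.FF (j + 1))
    (l : List Poly) (j : ℕ) (num den : Poly) (A : ℤ) (hj : j + l.length ≤ b) (hd : 0 ≤ ev x den)
    (hA : ev x den * A ≤ ev x num * M.FF j) :
    ∃ d, 0 ≤ d ∧ d * (A + M.valF l (j + 1)) ≤ ev x (horner M0 l j num den) * M.FF (j + l.length) := by
  induction l generalizing j num den A with
  | nil => exact ⟨_, hd, by simpa [valF, horner] using hA⟩
  | cons f l ih =>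
    rw [List.length_cons] at hj
    simp only [horner, forceP_eq, valF, List.length_cons]
    obtain ⟨w1, w2⟩ := hW j (by omega)
    have e : ev x (padd M0 [-2 * (j : ℤ), -2]) = ev x M0 - 2 * x - 2 * j := by
      simp only [ev_padd, ev]; ring
    have hp := ev_ppos M.hx num
    have := ih (j + 1) (padd (ppos num) (pmul (pmul den (padd M0 [-2 * (j : ℤ), -2])) f))
      (pmul den (padd M0 [-2 * (j : ℤ), -2])) (A + ev x f * M.FF (j + 1)) (by omega)
      (by rw [ev_pmul, e]; exact mul_nonneg hd w1) (by
        simp only [ev_padd (p := ppos num), ev_pmul, e]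
        have a := mul_le_mul_of_nonneg_right hp.2 (hF j)
        have b := mul_le_mul_of_nonneg_left (hA.trans a) w1
        have c := mul_le_mul_of_nonneg_left w2 hp.1
        linarith)
    rw [show j + (l.length + 1) = j + 1 + l.length by ring, ← add_assoc A]
    exact this

theorem checkF_sound (M0 : Poly) (b : ℕ) (top : Poly) (F : List Poly) (hF : ∀ j, 0 ≤ M.FF j)
    (hb : 0 < M.FF b)
    (hW : ∀ j < b, 0 ≤ ev x M0 - 2 * x - 2 * j ∧ (ev x M0 - 2 * x - 2 * j) * M.FF j ≤ M.FF (j + 1))
    (h : checkF M0 b top F = true) :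
    M.valF F 0 < ev x top * M.FF (b + 1) + M.FF (b + 2) := by
  rcases F with _ | ⟨f, l⟩
  · simp [checkF] at h
  simp only [checkF, Bool.and_eq_true, decide_eq_true_eq] at h
  obtain ⟨⟨h1, h2⟩, h3⟩ := h
  have hl : (l.take b).length = b := by simp [h2]
  obtain ⟨d, hd, hd'⟩ := M.horner_sound M0 b hF hW (l.take b) 0 f [1] (ev x f * M.FF 0)
    (by omega) (by simp [ev]) (by simp [ev])
  rw [hl, zero_add b] at hd'
  have h4 : ev x (horner M0 (l.take b) 0 f [1]) < 0 := by
    rcases hh : horner M0 (l.take b) 0 f [1] with _ | ⟨a, p⟩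
    · simp [hh, negP] at h3
    · simp only [hh, negP, Bool.and_eq_true, decide_eq_true_eq] at h3
      have := mul_nonneg M.hx (ev_pnonneg M.hx h3.2)
      rw [ev_psc] at this
      simp only [ev]
      linarith [h3.1]
  have h5 := mul_neg_of_neg_of_pos h4 hb
  have h6 : ev x f * M.FF 0 + M.valF (l.take b) (0 + 1) < 0 := by
    by_contra h
    have := mul_nonneg hd (not_lt.1 h)
    linarith
  rw [← List.take_append_drop b l, valF, valF_append, h1, hl]
  simp only [valF, ev, show 0 + 1 + b = b + 1 by ring]
  linarith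

end Model

variable {m : ℕ}

theorem Fm_succ {j : ℕ} (h : j ≤ m) : Fm m (j + 1) = 2 * (m - j) * Fm m j := by
  unfold Fm
  rw [Nat.descFactorial_succ, Nat.cast_mul, Nat.cast_sub h]; ring

theorem Fm_nonneg (j : ℕ) : 0 ≤ Fm m j := by unfold Fm; positivity

theorem Fm_pos {j : ℕ} (h : j ≤ m) : 0 < Fm m j := by
  unfold Fm
  have := Nat.descFactorial_pos.2 h
  positivity

namespace Tiling
variable {s : ℕ} {G : Type} [AddCommGroup G] [DecidableEq G] (T : Tiling m s G)

theorem Pe_identity (D : ℕ) (L : List ℕ) : ((D : ℤ) - L.sum) * T.Pe D L =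
    T.Pt D 1 L + ((picks L).map fun p => T.Pt D (p.1 + 1) p.2).sum := by
  have h : ∀ u ∈ T.L D, ((D : ℤ) - L.sum) * pe (ab u) L Finset.univ = pt (ab u) 1 L Finset.univ +
      1 * ((picks L).map fun p => pt (ab u) (p.1 + 1) p.2 Finset.univ).sum := by
    intro u hu
    have := pe_identity (ab u) L Finset.univ
    have e : ∑ i, ab u i = D := (T.mem_L.1 hu).1
    rw [e] at this
    linarith
  rw [Pe, Finset.mul_sum, Finset.sum_congr rfl h, Finset.sum_add_distrib]
  congr 1
  simp only [one_mul, Pt]
  induction picks L with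
  | nil => simp
  | cons p l ih => simp only [List.map_cons, List.sum_cons, Finset.sum_add_distrib, ih]

theorem Pe_nonneg (D : ℕ) (L : List ℕ) : 0 ≤ T.Pe D L :=
  Finset.sum_nonneg fun _ _ => pe_nonneg _ _ _
theorem Pt_nonneg (D t : ℕ) (L : List ℕ) : 0 ≤ T.Pt D t L :=
  Finset.sum_nonneg fun _ _ => pt_nonneg _ _ _ _
theorem Pe_perm (D : ℕ) {L L' : List ℕ} (h : L.Perm L') : T.Pe D L = T.Pe D L' :=
  Finset.sum_congr rfl fun _ _ => pe_perm _ h _
theorem Pt_split (D t : ℕ) (L : List ℕ) : T.Pt D t L = T.Pe D (t :: L) + T.Pt D (t + 1) L := by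
  unfold Pt Pe
  rw [← Finset.sum_add_distrib]
  exact Finset.sum_congr rfl fun _ _ => pt_split _ _ _ _

theorem picks_nonneg (D : ℕ) (l : List (ℕ × List ℕ)) :
    0 ≤ (l.map fun p => T.Pt D (p.1 + 1) p.2).sum :=
  List.sum_nonneg fun x hx => by
    obtain ⟨p, _, rfl⟩ := List.mem_map.1 hx
    exact T.Pt_nonneg _ _ _

theorem picks_ones' (D n : ℕ) (c pre : List ℕ) :
    ((picks (List.replicate (n + 1) 1 ++ c)).map fun p => T.Pt D (p.1 + 1) (pre ++ p.2)).sum =
      (n + 1) * T.Pt D 2 (pre ++ (List.replicate n 1 ++ c)) +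
      ((picks c).map fun p => T.Pt D (p.1 + 1) (pre ++ (List.replicate (n + 1) 1 ++ p.2))).sum := by
  induction n generalizing pre with
  | zero =>
    simp [picks, Function.comp_def]
  | succ n ih =>
    rw [List.replicate_succ (n := n + 1), List.cons_append, picks]
    simp only [List.map_cons, List.sum_cons, List.map_map, Function.comp_def]
    have := ih (pre ++ [1])
    simp only [List.append_assoc, List.singleton_append] at this
    rw [this]
    simp only [List.cons_append, List.replicate_succ (n := n)]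
    push_cast
    ring

theorem Pe_ident_ones (D n : ℕ) (c : List ℕ) :
    ((D : ℤ) - (n + 1) - c.sum) * T.Pe D (List.replicate (n + 1) 1 ++ c) =
      T.Pe D (List.replicate (n + 2) 1 ++ c) + T.Pt D 2 (List.replicate (n + 1) 1 ++ c) +
      (n + 1) * T.Pt D 2 (List.replicate n 1 ++ c) +
      ((picks c).map fun p => T.Pt D (p.1 + 1) (List.replicate (n + 1) 1 ++ p.2)).sum := by
  have h1 := T.Pe_identity D (List.replicate (n + 1) 1 ++ c)
  have h2 := T.picks_ones' D n c []
  simp only [List.nil_append] at h2
  rw [h2, T.Pt_split D 1] at h1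
  simp only [List.sum_append, List.sum_replicate, smul_eq_mul, mul_one] at h1
  push_cast at h1 ⊢
  rw [List.replicate_succ (n := n + 1), List.cons_append]
  linarith

noncomputable def model {x s1 : ℕ} (T : Tiling m (x + s1) G) : Model x s1 where
  PE d c n := if d ≤ 1 then T.Pe (2 * (x + s1) + 2 - d) (List.replicate (x + n) 1 ++ c) else 0
  PT d t c n := if d ≤ 1 then T.Pt (2 * (x + s1) + 2 - d) t (List.replicate (x + n) 1 ++ c) else 0
  FF j := Fm m (x + j)
  hx := Int.natCast_nonneg x
  nnE d c n := by split_ifs; exacts [T.Pe_nonneg _ _, le_rfl]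
  nnT d t c n := by split_ifs; exacts [T.Pt_nonneg _ _ _, le_rfl]
  perm d c c' n h := by split_ifs; exacts [T.Pe_perm _ (h.append_left _), rfl]
  split d t c n := by
    split_ifs
    · rw [T.Pt_split, T.Pe_perm _ List.perm_middle]
    · rfl
  cutT d t c n := by
    split_ifs with h
    · have h1 := T.Pe_identity (2 * (x + s1) + 2 - d) (t :: (List.replicate (x + n) 1 ++ c))
      rw [T.Pt_split, T.Pe_perm _ List.perm_middle]
      simp only [picks, List.map_cons, List.sum_cons, List.map_map] at h1
      have h2 := T.picks_nonneg (2 * (x + s1) + 2 - d)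
        ((picks (List.replicate (x + n) 1 ++ c)).map fun p => (p.1, t :: p.2))
      have h3 := T.Pt_nonneg (2 * (x + s1) + 2 - d) 1 (t :: (List.replicate (x + n) 1 ++ c))
      simp only [List.map_map] at h2
      simp only [List.sum_append, List.sum_replicate, smul_eq_mul, mul_one] at h1
      rw [Nat.cast_sub (by omega)] at h1
      push_cast at h1 ⊢
      linarith
    · simp
  crude d c n := by
    split_ifs with h
    · have h1 := T.Pe_identity (2 * (x + s1) + 2 - d) (List.replicate (x + n) 1 ++ c)
      have h2 := T.picks_nonneg (2 * (x + s1) + 2 - d) (picks (List.replicate (x + n) 1 ++ c))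
      have h3 := T.Pt_nonneg (2 * (x + s1) + 2 - d) 2 (List.replicate (x + n) 1 ++ c)
      rw [T.Pt_split _ 1] at h1
      simp only [List.sum_append, List.sum_replicate, smul_eq_mul, mul_one] at h1
      rw [Nat.cast_sub (by omega)] at h1
      rw [← add_assoc x, List.replicate_succ, List.cons_append]
      push_cast at h1 ⊢
      linarith
    · simp
  ident d c n := by
    split_ifs with h
    · have h1 := T.Pe_ident_ones (2 * (x + s1) + 2 - d) (x + n) c
      rw [Nat.cast_sub (by omega)] at h1
      simp only [← add_assoc x]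
      push_cast at h1 ⊢
      linarith
    · simp
  known1 c n hc h := by
    rw [if_pos le_rfl]
    have := T.Pe_one (L := List.replicate (x + n) 1 ++ c) (fun k hk => by
      rcases List.mem_append.1 hk with h | h
      exacts [(List.eq_of_mem_replicate h).ge, hc k h]) (by simp; omega)
    rw [List.length_append, List.length_replicate] at this
    rw [show x + (c.length + n) = x + n + c.length by ring]
    exact this
  known0 c n hc h := by
    rw [if_pos le_rfl, if_pos (Nat.zero_le 1)]
    have := T.Pe_two (L := List.replicate (x + n) 1 ++ c) (fun k hk => by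
      rcases List.mem_append.1 hk with h | h
      exacts [(List.eq_of_mem_replicate h).ge, hc k h]) (by simp; omega)
    rw [List.length_append, List.length_replicate] at this
    rw [show x + (c.length + n) = x + n + c.length by ring]
    exact this

end Tiling

end Pool.Agent.Lib.MP_a6e91d_co
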