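import Pool.Agent.Lib.MP_a6e91d_co.Kim

set_option autoImplicit false

namespace Pool.Agent.Lib.MP_a6e91d_co
open Finset

variable {m : ℕ}

theorem ball_zero {M : Type*} [AddCommMonoid M] (h : V m → M) : ∑ x ∈ ball m 0, h x = h 0 := by
  simp [sum_ball, sph_zero]

theorem sph_one {M : Type*} [AddCommMonoid M] (h : V m → M) :
    ∑ x ∈ sph m 1, h x = ∑ d, h (dir d) := by
  have := zsum 1 h
  simp only [sum_range_succ, range_zero, sum_empty, Nat.reduceAdd, Nat.reduceSub, ball_zero,
    Nat.reduceDiv, zero_add, mul_zero, one_smul, zero_smul, add_zero] at this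
  exact this.symm

theorem ball_one {M : Type*} [AddCommMonoid M] (h : V m → M) :
    ∑ x ∈ ball m 1, h x = h 0 + ∑ d, h (dir d) := by
  simp [sum_ball, sum_range_succ, sph_zero, sph_one]

theorem ball_two {R : Type*} [CommRing R] (h : V m → R) :
    2 * ∑ x ∈ ball m 2, h x = ∑ d, ∑ d', h (dir d' + dir d) + 2 * ∑ d, h (dir d) +
      ∑ d, h (2 • dir d) + (2 - 2 * m) * h 0 := by
  have := zsum 2 h
  simp only [sum_range_succ, range_zero, sum_empty, Nat.reduceAdd, Nat.reduceSub, ball_zero,
    Nat.reduceDiv, zero_add, mul_zero, one_smul, add_zero, ball_one, sum_add_distrib, sph_zero,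
    sum_singleton, sph_one, mul_one] at this
  simp only [sum_ball, sum_range_succ, range_zero, sum_empty, zero_add, sph_zero, sum_singleton,
    sph_one]
  rw [nsmul_eq_mul, nsmul_eq_mul] at this
  push_cast at this
  linear_combination -this

theorem char_two {R : Type*} [CommRing R] (χ : V m → R) (h0 : χ 0 = 1)
    (h : ∀ x y, χ (x + y) = χ x * χ y) :
    2 * ∑ x ∈ ball m 2, χ x = (∑ d, χ (dir d)) ^ 2 + 2 * ∑ d, χ (dir d) +
      ∑ d, χ (2 • dir d) + (2 - 2 * m) := by
  rw [ball_two, h0, mul_one]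
  simp only [h, ← sum_mul, ← mul_sum, sq]

theorem char_three {R : Type*} [CommRing R] (χ : V m → R) (h0 : χ 0 = 1)
    (h : ∀ x y, χ (x + y) = χ x * χ y) {a b c : R} (ha : ∑ d, χ (dir d) = a)
    (hb : ∑ d, χ (2 • dir d) = b) (hc : ∑ d, χ (3 • dir d) = c) :
    6 * ∑ x ∈ ball m 3, χ x =
      a ^ 3 + 3 * a ^ 2 + 3 * a * b + 3 * b + 2 * c + (6 - 6 * m) * a + 6 - 6 * m := by
  have h2 := char_two χ h0 h
  rw [hb] at h2
  have := zsum 3 χ
  simp only [h, ← sum_mul, ← mul_sum] at this
  simp only [sum_range_succ, range_zero, sum_empty, Nat.reduceAdd, Nat.reduceSub, ball_zero,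
    Nat.reduceDiv, zero_add, mul_zero, one_smul, add_zero, sph_zero,
    sum_singleton, sph_one, mul_one, ha, hb, hc, h0] at this
  simp only [sum_ball, sum_range_succ, range_zero, sum_empty, zero_add, sph_zero, sum_singleton,
    sph_one, ha, h0, nsmul_eq_mul] at this h2 ⊢
  push_cast at this
  linear_combination -2 * this + (a + 1) * h2

theorem Tiling.three_mod_three {G : Type} [AddCommGroup G] [Fintype G] (T : Tiling m 3 G)
    (h3 : 3 ∣ Bc m 3) {R : Type} [CommRing R] (ω : R) (hω : ω ^ 2 + ω + 1 = 0)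
    (hx : ∀ k ≤ m, ((2 * m - 3 * k) ^ 3 + 6 * (2 * m - 3 * k) ^ 2 + (9 - 6 * m) * (2 * m - 3 * k) +
      6 - 2 * m : R) ≠ 0) : False := by
  obtain ⟨f, hf⟩ := exists_surj (G := G) Nat.prime_three (by rwa [T.card_eq, card_ball_Bc])
  obtain ⟨hU, -⟩ := T.unif_zmod h3 f hf
  set ψ := f.comp T.φ
  let χ : ZMod 3 → R := fun t => ω ^ t.val
  have c0 : χ 0 = 1 := pow_zero ω
  have c1 : χ 1 = ω := pow_one ω
  have c2 : χ 2 = ω ^ 2 := rfl
  have t3 : ∀ t : ZMod 3, t = 0 ∨ t = 1 ∨ t = 2 := by decide
  have hm : ∀ a b, χ (a + b) = χ a * χ b := by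
    intro a b
    have e1 : (1 + 1 : ZMod 3) = 2 := rfl
    have e2 : (1 + 2 : ZMod 3) = 0 := rfl
    have e3 : (2 + 1 : ZMod 3) = 0 := rfl
    have e4 : (2 + 2 : ZMod 3) = 1 := rfl
    rcases t3 a with rfl | rfl | rfl <;> rcases t3 b with rfl | rfl | rfl <;>
      simp only [zero_add, add_zero, c0, c1, c2, e1, e2, e3, e4, one_mul, mul_one]
    · ring
    · linear_combination (1 - ω) * hω
    · linear_combination (1 - ω) * hω
    · linear_combination (ω - ω ^ 2) * hω
  have hs : ∑ t, χ t = 0 := by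
    have : (univ : Finset (ZMod 3)) = {0, 1, 2} := rfl
    rw [this, sum_insert (by decide), sum_insert (by decide), sum_singleton, c0, c1, c2]
    linear_combination hω
  have hp : ∀ t, χ t + χ (-t) = 2 - 3 * if t ≠ 0 then 1 else 0 := by
    intro t
    have e1 : (-1 : ZMod 3) = 2 := rfl
    have e2 : (-2 : ZMod 3) = 1 := rfl
    rcases t3 t with rfl | rfl | rfl
    · simp [c0, one_add_one_eq_two]
    · rw [e1, c1, c2, if_pos (by decide)]; linear_combination hω
    · rw [e2, c1, c2, if_pos (by decide)]; linear_combination hω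
  have e2 : ∀ i, (Pi.single i (-1) : V m) = -Pi.single i 1 := fun i => Pi.single_neg i 1
  have ha : ∑ d, χ (ψ (dir d)) =
      2 * m - 3 * ((univ.filter fun i => ψ (Pi.single i 1) ≠ 0).card : R) := by
    simp only [Fintype.sum_prod_type, Fintype.sum_bool, dir, sg, if_true, Bool.false_eq_true,
      if_false, e2, map_neg, hp, sum_sub_distrib, ← mul_sum, sum_boole]
    simp [mul_comm]
  have hb : ∑ d, χ (ψ (2 • dir d)) = ∑ d, χ (ψ (dir d)) := by
    have : ∀ t : ZMod 3, 2 • t = -t := by decide
    simp only [map_nsmul, this, Fintype.sum_prod_type, Fintype.sum_bool, dir, sg, if_true,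
      Bool.false_eq_true, if_false, e2, map_neg, neg_neg, add_comm]
  have hc : ∑ d, χ (ψ (3 • dir d)) = 2 * m := by
    have : ∀ t : ZMod 3, 3 • t = 0 := by decide
    simp only [map_nsmul, this, c0]
    simp [mul_comm]
  have := char_three (fun x => χ (ψ x)) (by simp [c0]) (fun x y => by simp only [map_add, hm]) ha
    (hb.trans ha) hc
  rw [hU.sum χ, hs, smul_zero] at this
  refine hx _ ((card_filter_le univ fun i => ψ (Pi.single i 1) ≠ 0).trans_eq (by simp)) ?_
  linear_combination -this

theorem three_eight {G : Type} [AddCommGroup G] [Fintype G] (T : Tiling 8 3 G) : False := by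
  have hn : Bc 8 3 = 833 := rfl
  have hG : Fintype.card G = 833 := by rw [T.card_eq, card_ball_Bc, hn]
  obtain ⟨f, hf⟩ := exists_surj (G := G) (p := 17) (by norm_num) (by rw [hG]; norm_num)
  obtain ⟨f', hf'⟩ := exists_surj (G := G) (p := 7) (by norm_num) (by rw [hG]; norm_num)
  obtain ⟨hA, -⟩ := T.unif_zmod (by rw [hn]; norm_num) f hf
  obtain ⟨hB, hB'⟩ := T.unif_zmod (by rw [hn]; norm_num) f' hf'
  have hC := T.unif (f'.prod f) fun t => by
    obtain ⟨a, ha⟩ := hf' t.1
    obtain ⟨b, hb⟩ := hf t.2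
    have e1 : ∀ x y : ZMod 7, 85 • x + 35 • y = x := by decide +kernel
    have e2 : ∀ x y : ZMod 17, 85 • x + 35 • y = y := by decide +kernel
    exact ⟨85 • a + 35 • b, by
      rw [AddMonoidHom.prod_apply, map_add, map_add, map_nsmul, map_nsmul, map_nsmul, map_nsmul,
        e1, e2, ha, hb]⟩
  rw [card_ball_Bc] at hC
  rw [hn] at hA hB hB' hC
  set α := f.comp T.φ
  set β := f'.comp T.φ
  have h1 : ∀ i, 1 ≤ i → i ≤ 15 → pw α i = 0 := @kim_zero 8 17 3 _ ⟨by norm_num⟩ α hA 15
      (by omega) fun j hj => by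
    have : ∀ j < 7, cK 8 3 (2 * j + 1) % 17 ≠ 0 := by decide +kernel
    exact this j (by omega)
  have h2 := kim_step 3 α 15 h1
  rw [hA.sum fun t => t ^ (15 + 1)] at h2
  have h3 : pw α 16 = -1 := by
    have : ∀ x : ZMod 17, (833 / 17) • ∑ t : ZMod 17, t ^ (15 + 1) = x * (cK 8 3 15 : ℕ) → x = -1 := by
      decide +kernel
    exact this _ h2
  have h4 : ∀ t : ZMod 17, t ≠ 0 → ∃ d, α (dir d) = t := by
    intro t ht
    by_contra hne
    have a : ∑ d, (α (dir d) + -t) ^ 16 = 16 := by
      have : ∀ u : ZMod 17, u ≠ 0 → u ^ 16 = 1 := by decide +kernel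
      rw [sum_congr rfl fun d _ => this _ fun h => hne ⟨d, by linear_combination h⟩]
      simp
    simp only [add_pow] at a
    rw [sum_comm] at a
    simp only [← sum_mul] at a
    rw [sum_range_succ, sum_range_succ', sum_eq_zero fun r hr => by
      rw [show ∑ d, α (dir d) ^ (r + 1) = 0 from h1 (r + 1) (by omega) (mem_range.1 hr)]
      simp] at a
    rw [show ∑ d, α (dir d) ^ 16 = -1 from h3] at a
    simp only [pow_zero, sum_const, card_univ, Fintype.card_prod, Fintype.card_fin,
      Fintype.card_bool] at a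
    clear hne
    revert t; decide +kernel
  have h5 : (univ.image fun d => α (dir d)) = univ.erase 0 := by
    refine (eq_of_subset_of_card_le (fun t ht => ?_) (card_image_le.trans ?_)).symm
    · obtain ⟨d, hd⟩ := h4 t (ne_of_mem_erase ht)
      exact mem_image.2 ⟨d, mem_univ _, hd⟩
    · rfl
  have h6 : ∀ d d', α (dir d) = α (dir d') → d = d' := by
    have := card_image_iff.1 (show (univ.image fun d => α (dir d)).card = univ.card by
      rw [h5]; rfl)
    exact fun d d' e => this (mem_coe.2 (mem_univ _)) (mem_coe.2 (mem_univ _)) e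
  have h7 : ∀ h : ZMod 17 → ZMod 7, ∑ d, h (α (dir d)) = ∑ t ∈ univ.erase 0, h t := fun h => by
    rw [← h5, sum_image fun d _ d' _ => h6 d d']
  let γ : ZMod 17 → ZMod 7 := fun τ => ∑ d, β (dir d) * if α (dir d) = τ then 1 else 0
  have h8 : ∀ τ, γ (6 * τ) = γ τ := by
    intro τ
    have a := tsum' 3 β fun x => if α x = τ then 1 else 0
    have b := hC.sum fun t => t.1 * if t.2 = τ then 1 else 0
    have z : ∀ x : ZMod 7, (833 / Fintype.card (ZMod 7 × ZMod 17)) • x = 0 := by decide +kernel
    rw [z] at b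
    replace a := b.symm.trans a
    have c1 : ∀ g : V 8, ∑ y ∈ ball 8 1, (if α (y + g) = τ then 1 else 0 : ZMod 7) = 1 := by
      intro g
      simp only [ball_one, map_add, map_zero, h7 fun t => if t + α g = τ then 1 else 0]
      generalize α g = u
      clear a b
      revert u τ; decide +kernel
    have c2 : ∀ g : V 8, ∑ y ∈ ball 8 2, (if α (y + g) = τ then 1 else 0 : ZMod 7) =
        2 - if α g = τ then 1 else 0 := by
      intro g
      have e := ball_two fun y => (if α (y + g) = τ then 1 else 0 : ZMod 7)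
      simp only [map_add, map_zero, map_nsmul, h7 fun t => if t + α g = τ then 1 else 0,
        h7 fun t => if 2 • t + α g = τ then 1 else 0,
        fun u => h7 fun t => if t + u + α g = τ then 1 else 0,
        h7 fun u => ∑ t ∈ univ.erase 0, if t + u + α g = τ then 1 else 0] at e ⊢
      have f0 : ∀ w τ : ZMod 17, (∑ t ∈ univ.erase 0, if t + w = τ then 1 else 0 : ZMod 7) =
          if w = τ then 0 else 1 := by decide +kernel
      simp only [add_assoc, f0] at e
      have f : ∀ u τ : ZMod 17, (∑ v ∈ univ.erase 0, if v + u = τ then 0 else 1 : ZMod 7) +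
          (2 * (if u = τ then 0 else 1) +
          ((∑ t ∈ univ.erase 0, if 2 • t + u = τ then 1 else 0) +
          (2 - 2 * (8 : ℕ)) * (if 0 + u = τ then 1 else 0))) = 2 * (2 - if u = τ then 1 else 0) := by
        decide +kernel
      rw [f] at e
      have k : ∀ x y : ZMod 7, 2 * x = 2 * y → x = y := by decide
      exact k _ _ e
    have c3 : ∀ t τ : ZMod 17, 3 • t = τ ↔ t = 6 * τ := by decide +kernel
    have c4 : ∑ d, β (dir d) = 0 := by
      have := pw_eq β 1
      simpa [pw] using this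
    simp only [sum_range_succ, range_zero, sum_empty, Nat.reduceAdd, Nat.reduceSub, ball_zero,
      c1, c2, zero_add, one_smul, map_nsmul, c3, mul_one, mul_sub, sum_sub_distrib, ← sum_mul,
      c4] at a
    simp only [γ]
    linear_combination -a
  have h9 : ∀ d, γ (α (dir d)) = β (dir d) := by
    intro d
    simp only [γ]
    rw [sum_eq_single d (fun d' _ h => by rw [if_neg fun e => h (h6 _ _ e), mul_zero]) (by simp)]
    simp
  have h10 := hom_eq_zero (ψ := β) fun i => by
    have a := h9 (i, true)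
    have b := h9 (i, false)
    have e2 : (Pi.single i (-1) : V 8) = -Pi.single i 1 := Pi.single_neg i 1
    simp only [dir, sg, if_true, Bool.false_eq_true, if_false, e2, map_neg] at a b
    have c : ∀ t : ZMod 17, -t = 6 * (6 * (6 * (6 * (6 * (6 * (6 * (6 * t))))))) := by
      decide +kernel
    rw [c, h8, h8, h8, h8, h8, h8, h8, h8, a] at b
    have k : ∀ x : ZMod 7, x = -x → x = 0 := by decide
    exact k _ b
  rw [← hB 1, card_pos] at hB'
  obtain ⟨x, hx⟩ := hB'
  exact absurd ((h10 x).symm.trans (mem_filter.1 hx).2) (by decide)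

end Pool.Agent.Lib.MP_a6e91d_co
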