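import Pool.Agent.Lib.MP_a6e91d_co.Spec

set_option autoImplicit false

namespace Pool.Agent.Lib.MP_a6e91d_co
open Finset

theorem sum_pow_prime_eq {R ι : Type*} [CommRing R] {p : ℕ} (hp : p.Prime) (s : Finset ι)
    (f : ι → R) : ∃ r, (∑ i ∈ s, f i) ^ p = ∑ i ∈ s, f i ^ p + p * r := by
  classical
  induction s using Finset.induction_on with
  | empty => exact ⟨0, by simp [hp.ne_zero]⟩
  | insert a s ha ih =>
    obtain ⟨r, hr⟩ := ih
    obtain ⟨r', hr'⟩ := exists_add_pow_prime_eq hp (f a) (∑ i ∈ s, f i)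
    exact ⟨r + f a * (∑ i ∈ s, f i) * r', by rw [sum_insert ha, sum_insert ha, hr', hr]; ring⟩

variable {G : Type} [AddCommGroup G] [Fintype G] [DecidableEq G]

abbrev GR (G : Type) := AddMonoidAlgebra ℤ G

noncomputable def tt (D : Finset G) (k : ℕ) : GR G := ∑ a ∈ D, AddMonoidAlgebra.single (k • a) 1
noncomputable def gg (G : Type) [AddCommGroup G] [Fintype G] : GR G :=
  ∑ g, AddMonoidAlgebra.single g 1

noncomputable def cf (g : G) : GR G →+ ℤ where
  toFun x := x.coeff g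
  map_zero' := rfl
  map_add' _ _ := rfl

def tf (D : Finset G) (k : ℕ) (g : G) : ℤ := ∑ a ∈ D, if k • a = g then 1 else 0
def pf (D : Finset G) (k : ℕ) (g : G) : ℤ := ∑ y ∈ D, tf D 1 (g - k • y)
def dl (g : G) : ℤ := if g = 0 then 1 else 0

omit [Fintype G] [AddCommGroup G] in
theorem cf_single (a g : G) : cf g (AddMonoidAlgebra.single a 1) = if a = g then 1 else 0 :=
  Finsupp.single_apply

omit [Fintype G] in
theorem cf_tt (D : Finset G) (k : ℕ) (g : G) : cf g (tt D k) = tf D k g := by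
  simp only [tt, tf, map_sum, cf_single]

theorem cf_gg (g : G) : cf g (gg G) = 1 := by
  simp [gg, map_sum, cf_single]

omit [Fintype G] in
theorem cf_one (g : G) : cf g 1 = dl g := by
  rw [AddMonoidAlgebra.one_def, cf_single, dl]
  simp only [eq_comm]

omit [Fintype G] [DecidableEq G] in
theorem cf_int (g : G) (z : ℤ) (x : GR G) : cf g ((z : GR G) * x) = z * cf g x := by
  rw [← zsmul_eq_mul, map_zsmul, smul_eq_mul]

omit [Fintype G] [DecidableEq G] in
theorem cf_mul_tt (D : Finset G) (x : GR G) (k : ℕ) (g : G) :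
    cf g (x * tt D k) = ∑ y ∈ D, cf (g - k • y) x := by
  simp only [tt, mul_sum, map_sum]
  refine sum_congr rfl fun y _ => ?_
  have := AddMonoidAlgebra.coeff_mul_single_apply x 1 (k • y) g
  rw [mul_one, ← sub_eq_add_neg] at this
  exact this

omit [Fintype G] in
theorem cf_pf (D : Finset G) (k : ℕ) (g : G) : cf g (tt D 1 * tt D k) = pf D k g := by
  simp only [cf_mul_tt, cf_tt, pf]

omit [DecidableEq G] in
theorem cf_mul_zero (x y : GR G) : cf 0 (x * y) = ∑ g, cf g x * cf (-g) y := by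
  have := AddMonoidAlgebra.coeff_mul_apply_left x y 0
  rw [Finsupp.sum_fintype _ _ (by simp)] at this
  simp only [add_zero] at this
  exact this

omit [DecidableEq G] in
theorem single_mul_gg (a : G) : AddMonoidAlgebra.single a 1 * gg G = gg G := by
  simp only [gg, mul_sum, AddMonoidAlgebra.single_mul_single, mul_one]
  exact Equiv.sum_comp (Equiv.addLeft a) fun g => (AddMonoidAlgebra.single g 1 : GR G)

omit [DecidableEq G] in
theorem tt_mul_gg (D : Finset G) (k : ℕ) : tt D k * gg G = D.card * gg G := by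
  simp only [tt, sum_mul, single_mul_gg, sum_const, nsmul_eq_mul]

omit [DecidableEq G] in
theorem gg_mul_gg : gg G * gg G = Fintype.card G * gg G := by
  conv_lhs => lhs; unfold gg
  simp only [sum_mul, single_mul_gg, sum_const, nsmul_eq_mul, card_univ]

def Inj (G : Type) [AddCommGroup G] (k : ℕ) : Prop := ∀ g : G, k • g = 0 → g = 0

omit [Fintype G] [DecidableEq G] in
theorem Inj.eq {k : ℕ} (h : Inj G k) {a b : G} (e : k • a = k • b) : a = b :=
  sub_eq_zero.1 (h _ (by rw [nsmul_sub, e, sub_self]))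

omit [Fintype G] [DecidableEq G] in
theorem Inj.mul {j k : ℕ} (h : Inj G j) (h' : Inj G k) : Inj G (j * k) :=
  fun g e => h' g (h _ (by rwa [← mul_nsmul'] ))

omit [DecidableEq G] in
theorem inj_of_coprime {k : ℕ} (h : k.Coprime (Fintype.card G)) : Inj G k := fun g e => by
  rw [← AddMonoid.addOrderOf_eq_one_iff]
  exact Nat.eq_one_of_dvd_coprimes h (addOrderOf_dvd_of_nsmul_eq_zero e) addOrderOf_dvd_card

noncomputable def sgm (k : ℕ) : GR G →+* GR G :=
  AddMonoidAlgebra.mapDomainRingHom ℤ (nsmulAddMonoidHom k)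

omit [Fintype G] [DecidableEq G] in
theorem sgm_single (k : ℕ) (a : G) :
    sgm k (AddMonoidAlgebra.single a 1) = AddMonoidAlgebra.single (k • a) 1 :=
  AddMonoidAlgebra.mapDomain_single

omit [Fintype G] [DecidableEq G] in
theorem sgm_tt (D : Finset G) (k j : ℕ) : sgm k (tt D j) = tt D (k * j) := by
  simp only [tt, map_sum, sgm_single, mul_nsmul']

omit [DecidableEq G] in
theorem sgm_gg {k : ℕ} (h : Inj G k) : sgm k (gg G) = gg G := by
  simp only [gg, map_sum, sgm_single]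
  exact (Finite.injective_iff_bijective.1 fun a b e => h.eq e :
    Function.Bijective fun g : G => k • g).sum_comp fun g => (AddMonoidAlgebra.single g 1 : GR G)

omit [Fintype G] [DecidableEq G] in
theorem tt_pow (D : Finset G) {p : ℕ} (hp : p.Prime) : ∃ r, tt D 1 ^ p = tt D p + p * r := by
  obtain ⟨r, hr⟩ := sum_pow_prime_eq hp D fun a => (AddMonoidAlgebra.single (1 • a) 1 : GR G)
  exact ⟨r, by simpa [tt, AddMonoidAlgebra.single_pow] using hr⟩

omit [Fintype G] in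
theorem tf_nonneg (D : Finset G) (k : ℕ) (g : G) : 0 ≤ tf D k g :=
  sum_nonneg fun _ _ => by split_ifs <;> simp

omit [Fintype G] in
theorem pf_nonneg (D : Finset G) (k : ℕ) (g : G) : 0 ≤ pf D k g :=
  sum_nonneg fun _ _ => tf_nonneg _ _ _

omit [Fintype G] in
theorem one_le_tf {D : Finset G} (k : ℕ) {a : G} (ha : a ∈ D) : 1 ≤ tf D k (k • a) := by
  have := single_le_sum (f := fun b => if k • b = k • a then (1 : ℤ) else 0)
    (fun _ _ => by split_ifs <;> simp) ha
  rwa [if_pos rfl] at this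

omit [Fintype G] in
theorem exists_of_tf {D : Finset G} {k : ℕ} {g : G} (h : tf D k g ≠ 0) : ∃ a ∈ D, k • a = g := by
  obtain ⟨a, ha, e⟩ := exists_ne_zero_of_sum_ne_zero h
  exact ⟨a, ha, by simpa using e⟩

omit [Fintype G] in
theorem tf_cases (D : Finset G) {k : ℕ} (h : Inj G k) (g : G) : tf D k g = 0 ∨ tf D k g = 1 := by
  by_cases h0 : tf D k g = 0
  · exact .inl h0
  obtain ⟨a, ha, rfl⟩ := exists_of_tf h0
  right
  rw [tf, sum_eq_single_of_mem a ha fun b _ hb => if_neg fun e => hb (h.eq e), if_pos rfl]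

theorem sum_tf (D : Finset G) (k : ℕ) : ∑ g, tf D k g = D.card := by
  unfold tf
  rw [sum_comm]; simp

theorem sum_pf (D : Finset G) (k : ℕ) : ∑ g, pf D k g = D.card ^ 2 := by
  unfold pf
  have : ∀ y : G, ∑ g, tf D 1 (g - y) = D.card := fun y =>
    (Equiv.sum_comp (Equiv.subRight y) (tf D 1)).trans (sum_tf D 1)
  rw [sum_comm, sum_congr rfl fun y _ => this _]
  simp [sq]

theorem sum_dl : ∑ g : G, dl g = 1 := by simp [dl]

structure Two (G : Type) [AddCommGroup G] [Fintype G] (m : ℕ) where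
  D : Finset G
  h0 : 0 ∈ D
  neg : ∀ a ∈ D, -a ∈ D
  hD : D.card = 2 * m + 1
  hG : Fintype.card G = 2 * m ^ 2 + 2 * m + 1
  sq : tt D 1 ^ 2 = 2 * gg G - tt D 2 + 2 * m

theorem Tiling.two {m : ℕ} (T : Tiling m 2 G) : Nonempty (Two G m) := by
  have hinj : ∀ x ∈ ball m 1, ∀ y ∈ ball m 1, T.φ x = T.φ y → x = y := fun x hx y hy =>
    T.uniq x y ((mem_ball.1 hx).trans one_le_two) ((mem_ball.1 hy).trans one_le_two)
  refine ⟨(ball m 1).image T.φ, mem_image.2 ⟨0, by simp [mem_ball], map_zero _⟩, ?_, ?_, ?_, ?_⟩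
  · intro a ha
    obtain ⟨x, hx, rfl⟩ := mem_image.1 ha
    exact mem_image.2 ⟨-x, by simpa [mem_ball] using hx, map_neg _ _⟩
  · rw [card_image_of_injOn fun x hx y hy => hinj x hx y hy, card_ball_Bc]
    simp [Bc, Sc, add_comm]
  · rw [T.card_eq, card_ball_Bc]
    simp only [Bc, Sc, zero_mul, add_zero, zero_add, mul_assoc 2, Nat.mul_div_cancel_left _ two_pos]
    ring
  · have := char_two (fun x => (AddMonoidAlgebra.single (T.φ x) 1 : GR G))
      (by rw [map_zero]; rfl) (fun x y => by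
        rw [map_add, AddMonoidAlgebra.single_mul_single, mul_one])
    rw [T.sum_ball_eq fun g => (AddMonoidAlgebra.single g 1 : GR G)] at this
    simp only [tt, gg, sum_image hinj, ball_one, map_zero, smul_zero, one_smul, map_nsmul,
      ← AddMonoidAlgebra.one_def] at this ⊢
    linear_combination -this

namespace Two
variable {m : ℕ} (A : Two G m)
include A

omit [DecidableEq G] in
theorem inj2 : Inj G 2 := inj_of_coprime (by
  rw [A.hG, Nat.Prime.coprime_iff_not_dvd Nat.prime_two]; omega)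

omit [DecidableEq G] in
theorem inj3 : Inj G 3 := inj_of_coprime (by
  rw [A.hG, Nat.Prime.coprime_iff_not_dvd Nat.prime_three, ← ZMod.natCast_eq_zero_iff]
  push_cast
  generalize (m : ZMod 3) = x
  revert x; decide)

omit [DecidableEq G] in
theorem inj5 (h : m % 5 = 0) : Inj G 5 := inj_of_coprime (by
  rw [A.hG, Nat.Prime.coprime_iff_not_dvd Nat.prime_five, pow_two]
  obtain ⟨k, rfl⟩ := Nat.dvd_of_mod_eq_zero h
  rw [mul_assoc]
  omega)

omit A [Fintype G] [DecidableEq G] in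
theorem inj1 : Inj G 1 := fun g h => by simpa using h

theorem tf_neg (k : ℕ) (g : G) : tf A.D k (-g) = tf A.D k g := by
  unfold tf
  refine sum_bij' (fun a _ => -a) (fun a _ => -a) A.neg A.neg (by simp) (by simp) fun a _ => ?_
  simp only [neg_nsmul, neg_eq_iff_eq_neg]

theorem pf_neg (k : ℕ) (g : G) : pf A.D k (-g) = pf A.D k g := by
  unfold pf
  refine sum_bij' (fun a _ => -a) (fun a _ => -a) A.neg A.neg (by simp) (by simp) fun a _ => ?_
  rw [← A.tf_neg]
  congr 1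
  rw [neg_nsmul]; abel

theorem one_le_tf_zero (k : ℕ) : 1 ≤ tf A.D k 0 := by simpa using one_le_tf k A.h0

theorem tf_zero {k : ℕ} (h : Inj G k) : tf A.D k 0 = 1 := by
  have := A.one_le_tf_zero k
  have := tf_cases A.D h 0
  omega

omit [DecidableEq G] in
theorem sqk {k : ℕ} (h : Inj G k) : tt A.D k ^ 2 = 2 * gg G - tt A.D (2 * k) + 2 * m := by
  have := congrArg (sgm k) A.sq
  simpa only [map_pow, map_add, map_sub, map_mul, sgm_tt, sgm_gg h, map_ofNat, map_natCast,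
    mul_one, mul_comm k 2] using this

omit [DecidableEq G] in
theorem tg (k : ℕ) : tt A.D k * gg G = (2 * m + 1) * gg G := by
  rw [tt_mul_gg, A.hD]; push_cast; rfl

omit [DecidableEq G] in
theorem ggg : gg G * gg G = (2 * m ^ 2 + 2 * m + 1) * gg G := by
  rw [gg_mul_gg, A.hG]; push_cast; rfl

theorem sum_pf_sq {k : ℕ} (h : Inj G k) :
    ∑ g, pf A.D k g ^ 2 = 12 * m ^ 2 + 4 * m + pf A.D k 0 := by
  have h1 := cf_mul_zero (tt A.D 1 * tt A.D k) (tt A.D 1 * tt A.D k)
  simp only [cf_pf, A.pf_neg, ← pow_two] at h1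
  have h2 : (tt A.D 1 * tt A.D k) ^ 2 = ((8 * m ^ 2 + 8 * m : ℤ) : GR G) * gg G +
      tt A.D 2 * tt A.D (2 * k) - ((2 * m : ℤ) : GR G) * tt A.D 2 -
      ((2 * m : ℤ) : GR G) * tt A.D (2 * k) + ((4 * m ^ 2 : ℤ) : GR G) * 1 := by
    rw [mul_pow, A.sq, A.sqk h]
    push_cast
    linear_combination 4 * A.ggg - 2 * A.tg 2 - 2 * A.tg (2 * k)
  have h3 : cf 0 (tt A.D 2 * tt A.D (2 * k)) = pf A.D k 0 := by
    simp only [cf_mul_tt, cf_tt, pf, tf]
    refine sum_congr rfl fun y _ => sum_congr rfl fun x _ => if_congr ?_ rfl rfl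
    rw [mul_nsmul', zero_sub, zero_sub, ← neg_nsmul, one_smul]
    exact ⟨A.inj2.eq, fun e => by rw [e]⟩
  rw [← h1, h2]
  simp only [map_add, map_sub, cf_int, h3, cf_gg, cf_tt, cf_one, A.tf_zero A.inj2,
    A.tf_zero (A.inj2.mul h), dl, if_true]
  ring

omit [DecidableEq G] in
theorem pow4 : tt A.D 1 ^ 4 = 2 * (2 * m + 1) ^ 2 * gg G - tt A.D 4 - 4 * m * tt A.D 2 +
    (4 * m ^ 2 + 2 * m) := by
  rw [show tt A.D 1 ^ 4 = (tt A.D 1 ^ 2) ^ 2 by ring, A.sq]
  linear_combination 4 * A.ggg - 4 * A.tg 2 + A.sqk A.inj2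

theorem cong3 (g : G) : ∃ ρ : ℤ, pf A.D 3 g + 3 * ρ = 2 * (2 * m + 1) ^ 2 - tf A.D 4 g -
    4 * m * tf A.D 2 g + (4 * m ^ 2 + 2 * m) * dl g := by
  obtain ⟨r, hr⟩ := tt_pow A.D Nat.prime_three
  have h : tt A.D 1 * tt A.D 3 + ((3 : ℤ) : GR G) * (tt A.D 1 * r) =
      ((2 * (2 * m + 1) ^ 2 : ℤ) : GR G) * gg G - tt A.D 4 - ((4 * m : ℤ) : GR G) * tt A.D 2 +
      ((4 * m ^ 2 + 2 * m : ℤ) : GR G) * 1 := by
    push_cast at hr ⊢
    linear_combination A.pow4 - tt A.D 1 * hr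
  have := congrArg (cf g) h
  simp only [map_add, map_sub, cf_int, cf_gg, cf_tt, cf_one, cf_pf] at this
  exact ⟨_, by rwa [mul_one] at this⟩

theorem cong2 (g : G) : ∃ ρ : ℤ, pf A.D 2 g + tf A.D 3 g + 3 * ρ = 2 * (2 * m + 1) +
    2 * m * tf A.D 1 g := by
  obtain ⟨r, hr⟩ := tt_pow A.D Nat.prime_three
  have h : tt A.D 1 * tt A.D 2 + tt A.D 3 + ((3 : ℤ) : GR G) * r =
      ((2 * (2 * m + 1) : ℤ) : GR G) * gg G + ((2 * m : ℤ) : GR G) * tt A.D 1 := by
    push_cast at hr ⊢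
    linear_combination tt A.D 1 * A.sq - hr + 2 * A.tg 1
  have := congrArg (cf g) h
  simp only [map_add, cf_int, cf_gg, cf_tt, cf_pf, mul_one] at this
  exact ⟨_, this⟩

theorem cong5 (g : G) : ∃ ρ : ℤ, pf A.D 4 g + tf A.D 5 g + 5 * ρ = 2 * (2 * m + 1) ^ 3 -
    4 * m * pf A.D 2 g + (4 * m ^ 2 + 2 * m) * tf A.D 1 g := by
  obtain ⟨r, hr⟩ := tt_pow A.D Nat.prime_five
  have h : tt A.D 1 * tt A.D 4 + tt A.D 5 + ((5 : ℤ) : GR G) * r =
      ((2 * (2 * m + 1) ^ 3 : ℤ) : GR G) * gg G - ((4 * m : ℤ) : GR G) * (tt A.D 1 * tt A.D 2) +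
      ((4 * m ^ 2 + 2 * m : ℤ) : GR G) * tt A.D 1 := by
    push_cast at hr ⊢
    linear_combination tt A.D 1 * A.pow4 - hr + 2 * (2 * m + 1) ^ 2 * A.tg 1
  have := congrArg (cf g) h
  simp only [map_add, map_sub, cf_int, cf_gg, cf_tt, cf_pf, mul_one] at this
  exact ⟨_, this⟩

end Two

end Pool.Agent.Lib.MP_a6e91d_co
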